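import Pool.Agent.SigK.Tab
import Pool.Agent.SigK.S00
import Pool.Agent.SigK.S01
import Pool.Agent.SigK.S02
import Pool.Agent.SigK.S03
import Pool.Agent.SigK.S04
import Pool.Agent.SigK.S05
import Pool.Agent.SigK.S06
import Pool.Agent.SigK.S07
import Pool.Agent.SigK.S08
import Pool.Agent.SigK.S09
import Pool.Agent.SigK.S10
import Pool.Agent.SigK.S11
import Pool.Agent.SigK.S12
import Pool.Agent.SigK.S13
import Pool.Agent.SigK.S14
import Pool.Agent.SigK.S15

/-!
# All first discs
-/

namespace SigK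

theorem mem_lor {x a b : ℕ} (h : Mem x (Nat.lor a b)) : Mem x a ∨ Mem x b := by
  unfold Mem at *
  have e : Nat.lor a b = a ||| b := rfl
  rw [e, Nat.testBit_or, Bool.or_eq_true] at h
  exact h

/-- the certificates for the first disc in cell `b` exist -/
def HasCert (b : ℕ) : Prop :=
  ∃ nx w, chkU nx rowT.get shpT.get levT.get exT.get base b w = true

theorem v00 : Nat.beq (bitsOf c00) u00 = true := by decide +kernel

theorem h00 (b : ℕ) (h : Mem b u00) : HasCert b := by
  rw [← (beq_iff _ _).mp v00] at h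
  obtain ⟨p, hp, rfl⟩ := mem_bitsOf h
  refine ⟨q00.get, p.2, ?_⟩
  simp only [c00, List.mem_append] at hp
  rcases hp with (((hp | hp) | hp) | hp)
  · exact chkL_spec t00_0 p hp
  · exact chkL_spec t00_1 p hp
  · exact chkL_spec t00_2 p hp
  · exact chkL_spec t00_3 p hp

theorem v01 : Nat.beq (bitsOf c01) u01 = true := by decide +kernel

theorem h01 (b : ℕ) (h : Mem b u01) : HasCert b := by
  rw [← (beq_iff _ _).mp v01] at h
  obtain ⟨p, hp, rfl⟩ := mem_bitsOf h
  refine ⟨q01.get, p.2, ?_⟩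
  simp only [c01, List.mem_append] at hp
  rcases hp with ((((hp | hp) | hp) | hp) | hp)
  · exact chkL_spec t01_0 p hp
  · exact chkL_spec t01_1 p hp
  · exact chkL_spec t01_2 p hp
  · exact chkL_spec t01_3 p hp
  · exact chkL_spec t01_4 p hp

theorem v02 : Nat.beq (bitsOf c02) u02 = true := by decide +kernel

theorem h02 (b : ℕ) (h : Mem b u02) : HasCert b := by
  rw [← (beq_iff _ _).mp v02] at h
  obtain ⟨p, hp, rfl⟩ := mem_bitsOf h
  refine ⟨q02.get, p.2, ?_⟩
  simp only [c02, List.mem_append] at hp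
  rcases hp with ((((hp | hp) | hp) | hp) | hp)
  · exact chkL_spec t02_0 p hp
  · exact chkL_spec t02_1 p hp
  · exact chkL_spec t02_2 p hp
  · exact chkL_spec t02_3 p hp
  · exact chkL_spec t02_4 p hp

theorem v03 : Nat.beq (bitsOf c03) u03 = true := by decide +kernel

theorem h03 (b : ℕ) (h : Mem b u03) : HasCert b := by
  rw [← (beq_iff _ _).mp v03] at h
  obtain ⟨p, hp, rfl⟩ := mem_bitsOf h
  refine ⟨q03.get, p.2, ?_⟩
  simp only [c03, List.mem_append] at hp
  rcases hp with ((((hp | hp) | hp) | hp) | hp)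
  · exact chkL_spec t03_0 p hp
  · exact chkL_spec t03_1 p hp
  · exact chkL_spec t03_2 p hp
  · exact chkL_spec t03_3 p hp
  · exact chkL_spec t03_4 p hp

theorem v04 : Nat.beq (bitsOf c04) u04 = true := by decide +kernel

theorem h04 (b : ℕ) (h : Mem b u04) : HasCert b := by
  rw [← (beq_iff _ _).mp v04] at h
  obtain ⟨p, hp, rfl⟩ := mem_bitsOf h
  refine ⟨q04.get, p.2, ?_⟩
  simp only [c04, List.mem_append] at hp
  rcases hp with ((((hp | hp) | hp) | hp) | hp)
  · exact chkL_spec t04_0 p hp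
  · exact chkL_spec t04_1 p hp
  · exact chkL_spec t04_2 p hp
  · exact chkL_spec t04_3 p hp
  · exact chkL_spec t04_4 p hp

theorem v05 : Nat.beq (bitsOf c05) u05 = true := by decide +kernel

theorem h05 (b : ℕ) (h : Mem b u05) : HasCert b := by
  rw [← (beq_iff _ _).mp v05] at h
  obtain ⟨p, hp, rfl⟩ := mem_bitsOf h
  refine ⟨q05.get, p.2, ?_⟩
  simp only [c05, List.mem_append] at hp
  rcases hp with ((((hp | hp) | hp) | hp) | hp)
  · exact chkL_spec t05_0 p hp
  · exact chkL_spec t05_1 p hp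
  · exact chkL_spec t05_2 p hp
  · exact chkL_spec t05_3 p hp
  · exact chkL_spec t05_4 p hp

theorem v06 : Nat.beq (bitsOf c06) u06 = true := by decide +kernel

theorem h06 (b : ℕ) (h : Mem b u06) : HasCert b := by
  rw [← (beq_iff _ _).mp v06] at h
  obtain ⟨p, hp, rfl⟩ := mem_bitsOf h
  refine ⟨q06.get, p.2, ?_⟩
  simp only [c06, List.mem_append] at hp
  rcases hp with (((((hp | hp) | hp) | hp) | hp) | hp)
  · exact chkL_spec t06_0 p hp
  · exact chkL_spec t06_1 p hp
  · exact chkL_spec t06_2 p hp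
  · exact chkL_spec t06_3 p hp
  · exact chkL_spec t06_4 p hp
  · exact chkL_spec t06_5 p hp

theorem v07 : Nat.beq (bitsOf c07) u07 = true := by decide +kernel

theorem h07 (b : ℕ) (h : Mem b u07) : HasCert b := by
  rw [← (beq_iff _ _).mp v07] at h
  obtain ⟨p, hp, rfl⟩ := mem_bitsOf h
  refine ⟨q07.get, p.2, ?_⟩
  simp only [c07, List.mem_append] at hp
  rcases hp with (((((hp | hp) | hp) | hp) | hp) | hp)
  · exact chkL_spec t07_0 p hp
  · exact chkL_spec t07_1 p hp
  · exact chkL_spec t07_2 p hp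
  · exact chkL_spec t07_3 p hp
  · exact chkL_spec t07_4 p hp
  · exact chkL_spec t07_5 p hp

theorem v08 : Nat.beq (bitsOf c08) u08 = true := by decide +kernel

theorem h08 (b : ℕ) (h : Mem b u08) : HasCert b := by
  rw [← (beq_iff _ _).mp v08] at h
  obtain ⟨p, hp, rfl⟩ := mem_bitsOf h
  refine ⟨q08.get, p.2, ?_⟩
  simp only [c08, List.mem_append] at hp
  rcases hp with (((((hp | hp) | hp) | hp) | hp) | hp)
  · exact chkL_spec t08_0 p hp
  · exact chkL_spec t08_1 p hp
  · exact chkL_spec t08_2 p hp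
  · exact chkL_spec t08_3 p hp
  · exact chkL_spec t08_4 p hp
  · exact chkL_spec t08_5 p hp

theorem v09 : Nat.beq (bitsOf c09) u09 = true := by decide +kernel

theorem h09 (b : ℕ) (h : Mem b u09) : HasCert b := by
  rw [← (beq_iff _ _).mp v09] at h
  obtain ⟨p, hp, rfl⟩ := mem_bitsOf h
  refine ⟨q09.get, p.2, ?_⟩
  simp only [c09, List.mem_append] at hp
  rcases hp with (((((hp | hp) | hp) | hp) | hp) | hp)
  · exact chkL_spec t09_0 p hp
  · exact chkL_spec t09_1 p hp
  · exact chkL_spec t09_2 p hp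
  · exact chkL_spec t09_3 p hp
  · exact chkL_spec t09_4 p hp
  · exact chkL_spec t09_5 p hp

theorem v10 : Nat.beq (bitsOf c10) u10 = true := by decide +kernel

theorem h10 (b : ℕ) (h : Mem b u10) : HasCert b := by
  rw [← (beq_iff _ _).mp v10] at h
  obtain ⟨p, hp, rfl⟩ := mem_bitsOf h
  refine ⟨q10.get, p.2, ?_⟩
  simp only [c10, List.mem_append] at hp
  rcases hp with (((((hp | hp) | hp) | hp) | hp) | hp)
  · exact chkL_spec t10_0 p hp
  · exact chkL_spec t10_1 p hp
  · exact chkL_spec t10_2 p hp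
  · exact chkL_spec t10_3 p hp
  · exact chkL_spec t10_4 p hp
  · exact chkL_spec t10_5 p hp

theorem v11 : Nat.beq (bitsOf c11) u11 = true := by decide +kernel

theorem h11 (b : ℕ) (h : Mem b u11) : HasCert b := by
  rw [← (beq_iff _ _).mp v11] at h
  obtain ⟨p, hp, rfl⟩ := mem_bitsOf h
  refine ⟨q11.get, p.2, ?_⟩
  simp only [c11, List.mem_append] at hp
  rcases hp with (((((hp | hp) | hp) | hp) | hp) | hp)
  · exact chkL_spec t11_0 p hp
  · exact chkL_spec t11_1 p hp
  · exact chkL_spec t11_2 p hp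
  · exact chkL_spec t11_3 p hp
  · exact chkL_spec t11_4 p hp
  · exact chkL_spec t11_5 p hp

theorem v12 : Nat.beq (bitsOf c12) u12 = true := by decide +kernel

theorem h12 (b : ℕ) (h : Mem b u12) : HasCert b := by
  rw [← (beq_iff _ _).mp v12] at h
  obtain ⟨p, hp, rfl⟩ := mem_bitsOf h
  refine ⟨q12.get, p.2, ?_⟩
  simp only [c12, List.mem_append] at hp
  rcases hp with (((((hp | hp) | hp) | hp) | hp) | hp)
  · exact chkL_spec t12_0 p hp
  · exact chkL_spec t12_1 p hp
  · exact chkL_spec t12_2 p hp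
  · exact chkL_spec t12_3 p hp
  · exact chkL_spec t12_4 p hp
  · exact chkL_spec t12_5 p hp

theorem v13 : Nat.beq (bitsOf c13) u13 = true := by decide +kernel

theorem h13 (b : ℕ) (h : Mem b u13) : HasCert b := by
  rw [← (beq_iff _ _).mp v13] at h
  obtain ⟨p, hp, rfl⟩ := mem_bitsOf h
  refine ⟨q13.get, p.2, ?_⟩
  simp only [c13, List.mem_append] at hp
  rcases hp with (((((hp | hp) | hp) | hp) | hp) | hp)
  · exact chkL_spec t13_0 p hp
  · exact chkL_spec t13_1 p hp
  · exact chkL_spec t13_2 p hp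
  · exact chkL_spec t13_3 p hp
  · exact chkL_spec t13_4 p hp
  · exact chkL_spec t13_5 p hp

theorem v14 : Nat.beq (bitsOf c14) u14 = true := by decide +kernel

theorem h14 (b : ℕ) (h : Mem b u14) : HasCert b := by
  rw [← (beq_iff _ _).mp v14] at h
  obtain ⟨p, hp, rfl⟩ := mem_bitsOf h
  refine ⟨q14.get, p.2, ?_⟩
  simp only [c14, List.mem_append] at hp
  rcases hp with (((((hp | hp) | hp) | hp) | hp) | hp)
  · exact chkL_spec t14_0 p hp
  · exact chkL_spec t14_1 p hp
  · exact chkL_spec t14_2 p hp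
  · exact chkL_spec t14_3 p hp
  · exact chkL_spec t14_4 p hp
  · exact chkL_spec t14_5 p hp

theorem v15 : Nat.beq (bitsOf c15) u15 = true := by decide +kernel

theorem h15 (b : ℕ) (h : Mem b u15) : HasCert b := by
  rw [← (beq_iff _ _).mp v15] at h
  obtain ⟨p, hp, rfl⟩ := mem_bitsOf h
  refine ⟨q15.get, p.2, ?_⟩
  simp only [c15, List.mem_append] at hp
  rcases hp with (((((hp | hp) | hp) | hp) | hp) | hp)
  · exact chkL_spec t15_0 p hp
  · exact chkL_spec t15_1 p hp
  · exact chkL_spec t15_2 p hp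
  · exact chkL_spec t15_3 p hp
  · exact chkL_spec t15_4 p hp
  · exact chkL_spec t15_5 p hp

def uAll : ℕ :=
  (Nat.lor (Nat.lor (Nat.lor (Nat.lor (Nat.lor (Nat.lor (Nat.lor (Nat.lor (Nat.lor (Nat.lor (Nat.lor (Nat.lor (Nat.lor (Nat.lor (Nat.lor u00 u01) u02) u03) u04) u05) u06) u07) u08) u09) u10) u11) u12) u13) u14) u15)

theorem first_ok : firstOK base uAll = true := by decide +kernel

theorem all_chk (b : ℕ) (h : Mem b uAll) : HasCert b := by
  unfold uAll at h
  rcases mem_lor h with h | h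
  swap
  · exact h15 b h
  rcases mem_lor h with h | h
  swap
  · exact h14 b h
  rcases mem_lor h with h | h
  swap
  · exact h13 b h
  rcases mem_lor h with h | h
  swap
  · exact h12 b h
  rcases mem_lor h with h | h
  swap
  · exact h11 b h
  rcases mem_lor h with h | h
  swap
  · exact h10 b h
  rcases mem_lor h with h | h
  swap
  · exact h09 b h
  rcases mem_lor h with h | h
  swap
  · exact h08 b h
  rcases mem_lor h with h | h
  swap
  · exact h07 b h
  rcases mem_lor h with h | h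
  swap
  · exact h06 b h
  rcases mem_lor h with h | h
  swap
  · exact h05 b h
  rcases mem_lor h with h | h
  swap
  · exact h04 b h
  rcases mem_lor h with h | h
  swap
  · exact h03 b h
  rcases mem_lor h with h | h
  swap
  · exact h02 b h
  rcases mem_lor h with h | h
  swap
  · exact h01 b h
  exact h00 b h

end SigK
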