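import Pool.Agent.SigK.Pub

/-!
# D3: `K_2, ..., K_8` are sphere-of-influence graphs, and the reduction to nine normalised discs
-/

namespace SigK

/-- no nine discs: the centres are `x i`, the radii `r i`; disc `0` is the smallest one and disc `1`
its nearest neighbour -/
def NoNine : Prop :=
  ∀ (x : Fin 9 → ℂ) (r : Fin 9 → ℝ), x 0 = 0 → x 1 = 1 → r 0 = 1 → r 1 = 1 → (∀ i, 1 ≤ r i) →
    (∀ i j, i ≠ j → r i ≤ ‖x i - x j‖) → (∀ i j, i ≠ j → ‖x i - x j‖ < r i + r j) → False

private lemma d3_le (S : Finset Pl) (x : Pl) {R : ℝ} (hne : ∃ y ∈ S, y ≠ x)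
    (h : ∀ y ∈ S, y ≠ x → R ≤ dist x y) : R ≤ nrad S x := by
  obtain ⟨y, hy, hyx⟩ := hne
  refine le_csInf ⟨dist x y, y, ⟨hy, hyx⟩, rfl⟩ ?_
  rintro _ ⟨z, ⟨hz, hzx⟩, rfl⟩
  exact h z hz hzx

private lemma d3_ge (S : Finset Pl) {x y : Pl} (hy : y ∈ S) (hyx : y ≠ x) :
    nrad S x ≤ dist x y := by
  refine csInf_le ⟨0, ?_⟩ ⟨y, ⟨hy, hyx⟩, rfl⟩
  rintro _ ⟨z, _, rfl⟩
  exact dist_nonneg

/-- the coordinates and radii of the eight discs -/
private def d3X : Fin 8 → ℤ := ![9535, -1538, 297, -3263, 902, 1294, 1229, 4788]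
private def d3Y : Fin 8 → ℤ := ![-6174, 5199, -10707, -1347, -630, -757, -380, 4357]
private def d3R : Fin 8 → ℤ := ![9861, 6227, 9999, 4226, 411, 382, 382, 5925]

private lemma d3_tab : ∀ i j : Fin 8, i ≠ j →
    d3R i ^ 2 ≤ (d3X i - d3X j) ^ 2 + (d3Y i - d3Y j) ^ 2 ∧
      (d3X i - d3X j) ^ 2 + (d3Y i - d3Y j) ^ 2 < (d3R i + d3R j) ^ 2 := by
  decide

private lemma d3_pos : ∀ i : Fin 8, 0 < d3R i := by
  decide

/-- the eight centres -/
private noncomputable def d3P (i : Fin 8) : Pl := !₂[(d3X i : ℝ), (d3Y i : ℝ)]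

private lemma d3_dist (i j : Fin 8) :
    dist (d3P i) (d3P j) = Real.sqrt ((((d3X i - d3X j) ^ 2 + (d3Y i - d3Y j) ^ 2 : ℤ)) : ℝ) := by
  rw [EuclideanSpace.dist_eq, Fin.sum_univ_two]
  simp only [d3P, Real.dist_eq, sq_abs]
  push_cast
  rfl

private lemma d3_lo {i j : Fin 8} (h : i ≠ j) : (d3R i : ℝ) ≤ dist (d3P i) (d3P j) := by
  rw [d3_dist]
  refine Real.le_sqrt_of_sq_le ?_
  exact_mod_cast (d3_tab i j h).1

private lemma d3_hi {i j : Fin 8} (h : i ≠ j) : dist (d3P i) (d3P j) < (d3R i : ℝ) + d3R j := by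
  rw [d3_dist]
  have h1 : (0 : ℝ) < (d3R i : ℝ) + d3R j := by
    exact_mod_cast add_pos (d3_pos i) (d3_pos j)
  rw [Real.sqrt_lt' h1]
  exact_mod_cast (d3_tab i j h).2

private lemma d3_inj : Function.Injective d3P := by
  intro i j h
  by_contra hij
  have h1 := d3_lo hij
  rw [h, dist_self] at h1
  have h2 := d3_pos i
  have h3 : (0 : ℝ) < d3R i := by exact_mod_cast h2
  linarith

/-- complete for every subset of the eight points -/
private lemma d3_small {n : ℕ} (h2 : 2 ≤ n) (h8 : n ≤ 8) :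
    IsSIG (⊤ : SimpleGraph (Fin n)) := by
  classical
  set f : Fin n ↪ Pl := ⟨fun i => d3P (Fin.castLE h8 i),
    d3_inj.comp (Fin.castLE_injective h8)⟩ with hf
  set S : Finset Pl := Finset.univ.map f with hS
  have hcard : S.card = n := by rw [hS, Finset.card_map, Finset.card_univ, Fintype.card_fin]
  have hlow : ∀ i : Fin n, (d3R (Fin.castLE h8 i) : ℝ) ≤ nrad S (f i) := by
    intro i
    refine d3_le S _ ?_ ?_
    · have : Nontrivial (Fin n) := Fin.nontrivial_iff_two_le.mpr h2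
      obtain ⟨j, hj⟩ := exists_ne i
      exact ⟨f j, Finset.mem_map_of_mem f (Finset.mem_univ j), fun h => hj (f.injective h)⟩
    · intro y hy hyx
      obtain ⟨j, _, rfl⟩ := Finset.mem_map.mp hy
      refine d3_lo fun h => hyx ?_
      rw [Fin.castLE_injective h8 h]
  have htop : sigGraph S = ⊤ := by
    ext x y
    rw [SimpleGraph.top_adj]
    refine ⟨fun h => h.1, fun h => ⟨h, ?_⟩⟩
    obtain ⟨x, hx⟩ := x
    obtain ⟨y, hy⟩ := y
    obtain ⟨i, _, rfl⟩ := Finset.mem_map.mp hx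
    obtain ⟨j, _, rfl⟩ := Finset.mem_map.mp hy
    have hij : Fin.castLE h8 i ≠ Fin.castLE h8 j := by
      intro hh
      exact h (Subtype.ext (congrArg f (Fin.castLE_injective h8 hh)))
    have hi : (0 : ℝ) < d3R (Fin.castLE h8 i) := by exact_mod_cast d3_pos _
    have hj : (0 : ℝ) < d3R (Fin.castLE h8 j) := by exact_mod_cast d3_pos _
    rw [← Set.not_disjoint_iff_nonempty_inter,
      disjoint_ball_ball_iff (lt_of_lt_of_le hi (hlow i)) (lt_of_lt_of_le hj (hlow j)), not_le]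
    exact lt_of_lt_of_le (d3_hi hij) (add_le_add (hlow i) (hlow j))
  refine ⟨S, by rw [hcard]; exact h2, ?_⟩
  rw [htop]
  exact ⟨SimpleGraph.Iso.completeGraph (Fintype.equivOfCardEq (by
    rw [Fintype.card_fin, Fintype.card_coe, hcard]))⟩

/-- Proof.  `n ≤ 8`: delete points from the 8 points
`(9535,-6174), (-1538,5199), (297,-10707), (-3263,-1347), (902,-630), (1294,-757), (1229,-380),
(4788,4357)` (deleting points only increases `nrad`); for these the integer radii
`R = 9861, 6227, 9999, 4226, 411, 382, 382, 5925` satisfy `max R_i R_j ≤ d_ij < R_i + R_j`.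
`n ≥ 9`: take a closest pair `p, q` of `S` (so `nrad p = nrad q = |p - q|` is the minimum of all
`nrad`), any 7 other points, and put `x = (z - p)/(q - p)`, `r = nrad / |q - p|`. -/
theorem sig_complete (h : NoNine) :
    {n : ℕ | 2 ≤ n ∧ IsSIG (⊤ : SimpleGraph (Fin n))} = Set.Icc 2 8 := by
  classical
  ext n
  constructor
  swap
  · rintro ⟨h2, h8⟩
    exact ⟨h2, d3_small h2 h8⟩
  rintro ⟨h2, S, hS2, ⟨φ⟩⟩
  refine ⟨h2, ?_⟩
  by_contra hn
  have hn9 : 9 ≤ n := by omega
  have hcard : S.card = n := by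
    have h3 := Fintype.card_congr φ.toEquiv
    rw [Fintype.card_fin, Fintype.card_coe] at h3
    exact h3.symm
  have hmeet : ∀ x ∈ S, ∀ y ∈ S, x ≠ y → dist x y < nrad S x + nrad S y := by
    intro x hx y hy hxy
    have h3 : (sigGraph S).Adj ⟨x, hx⟩ ⟨y, hy⟩ := by
      rw [← φ.apply_symm_apply ⟨x, hx⟩, ← φ.apply_symm_apply ⟨y, hy⟩, φ.map_adj_iff,
        SimpleGraph.top_adj]
      intro h4
      exact hxy (congrArg Subtype.val (φ.symm.injective h4))
    obtain ⟨z, hz1, hz2⟩ := h3.2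
    rw [Metric.mem_ball] at hz1 hz2
    calc dist x y ≤ dist x z + dist z y := dist_triangle _ _ _
      _ < nrad S x + nrad S y := by
        rw [dist_comm x z]
        exact add_lt_add hz1 hz2
  -- a closest pair
  have hoff : S.offDiag.Nonempty := by
    obtain ⟨a, ha, b, hb, hab⟩ := Finset.one_lt_card.mp (lt_of_lt_of_le one_lt_two hS2)
    exact ⟨(a, b), Finset.mem_offDiag.mpr ⟨ha, hb, hab⟩⟩
  obtain ⟨⟨p, q⟩, hpq, hmin⟩ := Finset.exists_min_image S.offDiag (fun z => dist z.1 z.2) hoff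
  obtain ⟨hp, hq, hne⟩ := Finset.mem_offDiag.mp hpq
  simp only at hp hq hne
  have hδ : 0 < dist p q := dist_pos.mpr hne
  have hmin' : ∀ x ∈ S, ∀ y ∈ S, y ≠ x → dist p q ≤ dist x y := fun x hx y hy hyx =>
    hmin (x, y) (Finset.mem_offDiag.mpr ⟨hx, hy, hyx.symm⟩)
  have hlow : ∀ x ∈ S, dist p q ≤ nrad S x := by
    intro x hx
    refine d3_le S x ?_ (hmin' x hx)
    by_cases hxp : x = p
    · exact ⟨q, hq, fun h => hne (hxp ▸ h.symm)⟩
    · exact ⟨p, hp, fun h => hxp h.symm⟩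
  have hnp : nrad S p = dist p q := le_antisymm (d3_ge S hq hne.symm) (hlow p hp)
  have hnq : nrad S q = dist p q := by
    refine le_antisymm ?_ (hlow q hq)
    rw [dist_comm]
    exact d3_ge S hp hne
  -- seven more points
  have hT : 7 ≤ ((S.erase p).erase q).card := by
    rw [Finset.card_erase_of_mem (Finset.mem_erase.mpr ⟨hne.symm, hq⟩),
      Finset.card_erase_of_mem hp]
    omega
  obtain ⟨f⟩ : Nonempty (Fin 7 ↪ {x // x ∈ (S.erase p).erase q}) := by
    refine Function.Embedding.nonempty_of_card_le ?_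
    rw [Fintype.card_fin, Fintype.card_coe]
    exact hT
  have hf : ∀ i, (f i : Pl) ≠ q ∧ (f i : Pl) ≠ p ∧ (f i : Pl) ∈ S := by
    intro i
    have h3 := Finset.mem_erase.mp (f i).2
    have h4 := Finset.mem_erase.mp h3.2
    exact ⟨h3.1, h4.1, h4.2⟩
  set z : Fin 9 → Pl := Fin.cons p (Fin.cons q fun i => (f i : Pl)) with hz
  have hz0 : z 0 = p := rfl
  have hz1 : z 1 = q := rfl
  have hzS : ∀ i, z i ∈ S := by
    intro i
    refine Fin.cases hp (fun i => ?_) i
    refine Fin.cases hq (fun i => ?_) i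
    exact (hf i).2.2
  have hzinj : Function.Injective z := by
    rw [hz, Fin.cons_injective_iff]
    constructor
    · rintro ⟨i, hi⟩
      revert hi
      refine Fin.cases (fun hi => hne hi.symm) (fun i hi => (hf i).2.1 hi) i
    · rw [Fin.cons_injective_iff]
      constructor
      · rintro ⟨i, hi⟩
        exact (hf i).1 hi
      · intro i j hij
        exact f.injective (Subtype.ext hij)
  set c : Pl ≃ₗᵢ[ℝ] ℂ := Complex.orthonormalBasisOneI.repr.symm with hc
  have hcn : ∀ x y : Pl, ‖c x - c y‖ = dist x y := by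
    intro x y
    rw [← dist_eq_norm, c.dist_map]
  have hq0 : c q - c p ≠ 0 := by
    intro h3
    have h4 := hcn q p
    rw [h3, norm_zero, dist_comm] at h4
    linarith
  have hx : ∀ i j, ‖(c (z i) - c p) / (c q - c p) - (c (z j) - c p) / (c q - c p)‖ =
      dist (z i) (z j) / dist p q := by
    intro i j
    rw [← sub_div, sub_sub_sub_cancel_right, norm_div, hcn, hcn, dist_comm q p]
  refine h (fun i => (c (z i) - c p) / (c q - c p)) (fun i => nrad S (z i) / dist p q)
    ?_ ?_ ?_ ?_ ?_ ?_ ?_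
  · simp only [hz0, sub_self, zero_div]
  · simp only [hz1]
    exact div_self hq0
  · simp only [hz0, hnp]
    exact div_self hδ.ne'
  · simp only [hz1, hnq]
    exact div_self hδ.ne'
  · intro i
    rw [le_div_iff₀ hδ, one_mul]
    exact hlow _ (hzS i)
  · intro i j hij
    rw [hx]
    exact (div_le_div_iff_of_pos_right hδ).mpr (d3_ge S (hzS j) fun h => hij (hzinj h).symm)
  · intro i j hij
    rw [hx, ← add_div]
    exact (div_lt_div_iff_of_pos_right hδ).mpr
      (hmeet _ (hzS i) _ (hzS j) fun h => hij (hzinj h))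

end SigK
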