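import Mathlib

/-!
MP_9fd1a9_co, D2 (helper69 for helper6): at most five far discs.
-/

namespace SigK

-- BEGIN D2

private lemma d2_nsq (u v : ℂ) : ‖u - v‖ ^ 2 =
    ‖u‖ ^ 2 + ‖v‖ ^ 2 - 2 * ‖u‖ * ‖v‖ * Real.cos (u.arg - v.arg) := by
  have h1 := Complex.norm_mul_cos_arg u
  have h2 := Complex.norm_mul_sin_arg u
  have h3 := Complex.norm_mul_cos_arg v
  have h4 := Complex.norm_mul_sin_arg v
  have h5 : ‖u - v‖ ^ 2 = (u.re - v.re) ^ 2 + (u.im - v.im) ^ 2 := by
    rw [← Complex.normSq_eq_norm_sq, Complex.normSq_apply]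
    simp only [Complex.sub_re, Complex.sub_im]
    ring
  have h6 : ‖u‖ ^ 2 = u.re ^ 2 + u.im ^ 2 := by
    rw [← Complex.normSq_eq_norm_sq, Complex.normSq_apply]
    ring
  have h7 : ‖v‖ ^ 2 = v.re ^ 2 + v.im ^ 2 := by
    rw [← Complex.normSq_eq_norm_sq, Complex.normSq_apply]
    ring
  have h8 : 2 * ‖u‖ * ‖v‖ * Real.cos (u.arg - v.arg) = 2 * (u.re * v.re + u.im * v.im) := by
    rw [Real.cos_sub, ← h1, ← h2, ← h3, ← h4]
    ring
  rw [h5, h6, h7, h8]
  ring

/-- inequality (1), for `q ≤ p` -/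
private lemma d2_one {p q a η c : ℝ} (hp : 0 < p) (hq : 7 ≤ q) (hqp : q ≤ p)
    (ha1 : a < 1) (hae : a ≤ η * p)
    (h : (p - a) ^ 2 ≤ p ^ 2 + q ^ 2 - 2 * p * q * c) : c ≤ 1 / 2 + η := by
  have hq0 : 0 < q := by linarith
  have hpq : 0 < p * q := mul_pos hp hq0
  have h1 : 2 * p * q * c ≤ q ^ 2 + 2 * a * p := by nlinarith [sq_nonneg a]
  have h2 : q ^ 2 + 2 * a * p ≤ p * q + 2 * η * (p * q) := by
    rcases le_total (2 * η * p) q with h3 | h3
    · have h4 : (p - q) * (q - 2 * η * p) ≥ 0 :=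
        mul_nonneg (by linarith) (by linarith)
      have h5 : a * p ≤ η * p * p := mul_le_mul_of_nonneg_right hae hp.le
      nlinarith
    · have h4 : q * q ≤ 2 * η * p * q := mul_le_mul_of_nonneg_right h3 hq0.le
      have h5 : (2 * a) * p ≤ q * p := mul_le_mul_of_nonneg_right (by linarith) hp.le
      nlinarith
  have h3 : p * q * (2 * c) ≤ p * q * (1 + 2 * η) := by nlinarith
  have h4 := le_of_mul_le_mul_left h3 hpq
  linarith

/-- inequalities (3) and (4) -/
private lemma d2_two {p q a b c : ℝ} (hp : 7 ≤ p) (hq : 7 ≤ q) (ha0 : 0 ≤ a)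
    (ha1 : a < 1) (hb0 : 0 ≤ b) (hb1 : b < 1)
    (h : p ^ 2 + q ^ 2 - 2 * p * q * c < (p + q - a - b) ^ 2)
    (hc : c ≤ 4 * (1 / 2 + a / p) ^ 3 - 3 * (1 / 2 + a / p)) : False := by
  have hp0 : 0 < p := by linarith
  have hq0 : 0 < q := by linarith
  have hpq : 0 < p * q := mul_pos hp0 hq0
  set η : ℝ := a / p with hη
  have hη0 : 0 ≤ η := div_nonneg ha0 hp0.le
  have hη1 : η < 1 / 7 := by
    rw [hη, div_lt_iff₀ hp0]
    linarith
  have hap : a = η * p := by
    rw [hη, div_mul_cancel₀ _ hp0.ne']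
  have h1 : 2 * (a + b) * (p + q) - (a + b) ^ 2 < 2 * (p * q) * (1 + c) := by nlinarith
  have h2 : 2 * a * (p + q) - a ^ 2 ≤ 2 * (a + b) * (p + q) - (a + b) ^ 2 := by
    nlinarith [mul_nonneg hb0 (show 0 ≤ 2 * (p + q) - (2 * a + b) by linarith)]
  have h3 : 2 * (p * q) * η ≤ 2 * a * (p + q) - a ^ 2 := by
    have h4 : 2 * (p * q) * η = 2 * a * q := by rw [hap]; ring
    have h5 : 0 ≤ a * (2 * p - a) := mul_nonneg ha0 (by linarith)
    rw [h4]
    nlinarith
  have h4 : 2 * (p * q) * η < 2 * (p * q) * (1 + c) := by linarith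
  have h5 : η < 1 + c := lt_of_mul_lt_mul_left h4 (by positivity)
  have h6 : 1 + c ≤ 6 * η ^ 2 + 4 * η ^ 3 := by nlinarith
  have h7 : η ^ 2 ≤ η * (1 / 7) := by nlinarith
  have h8 : η ^ 3 ≤ η * (1 / 49) := by nlinarith [mul_nonneg hη0 (sub_nonneg.2 h7)]
  nlinarith

theorem six_far (x : Fin 6 → ℂ) (r : Fin 6 → ℝ) (hr : ∀ i, 7 ≤ r i)
    (h0 : ∀ i, r i ≤ ‖x i‖) (h1 : ∀ i, ‖x i‖ < r i + 1)
    (hn : ∀ i j, i ≠ j → r i ≤ ‖x i - x j‖)
    (hs : ∀ i j, i ≠ j → ‖x i - x j‖ < r i + r j) : False := by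
  have hρ : ∀ i, 7 ≤ ‖x i‖ := fun i => (hr i).trans (h0 i)
  have hρ0 : ∀ i, 0 < ‖x i‖ := fun i => by linarith [hρ i]
  obtain ⟨i, hi⟩ := Finite.exists_max (fun i => (‖x i‖ - r i) / ‖x i‖)
  set η : ℝ := (‖x i‖ - r i) / ‖x i‖ with hη
  have hη0 : 0 ≤ η := div_nonneg (by linarith [h0 i]) (hρ0 i).le
  have hη1 : η < 1 / 7 := by
    rw [hη, div_lt_iff₀ (hρ0 i)]
    linarith [h1 i, hρ i]
  have hx0 : x i ≠ 0 := norm_pos_iff.1 (hρ0 i)
  -- the angles
  have hd : ∀ k l, ‖x k - x l‖ ^ 2 = ‖x k‖ ^ 2 + ‖x l‖ ^ 2 -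
      2 * ‖x k‖ * ‖x l‖ * Real.cos ((x k / x i).arg - (x l / x i).arg) := by
    intro k l
    have h2 := d2_nsq (x k / x i) (x l / x i)
    rw [← sub_div, norm_div, norm_div, norm_div] at h2
    have h3 : ‖x i‖ ≠ 0 := (hρ0 i).ne'
    field_simp at h2
    linarith
  have hcos : ∀ k l, k ≠ l → Real.cos ((x k / x i).arg - (x l / x i).arg) ≤ 1 / 2 + η := by
    intro k l hkl
    rcases le_total ‖x l‖ ‖x k‖ with h2 | h2
    · refine d2_one (p := ‖x k‖) (q := ‖x l‖) (a := ‖x k‖ - r k) (hρ0 k) (hρ l) h2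
        (by linarith [h1 k]) ?_ ?_
      · exact (div_le_iff₀ (hρ0 k)).1 (hi k)
      · rw [sub_sub_cancel, ← hd k l]
        exact pow_le_pow_left₀ (by linarith [hr k]) (hn k l hkl) 2
    · refine d2_one (p := ‖x l‖) (q := ‖x k‖) (a := ‖x l‖ - r l) (hρ0 l) (hρ k) h2
        (by linarith [h1 l]) ?_ ?_
      · exact (div_le_iff₀ (hρ0 l)).1 (hi l)
      · have h3 : ‖x l‖ ^ 2 + ‖x k‖ ^ 2 - 2 * ‖x l‖ * ‖x k‖ *
            Real.cos ((x k / x i).arg - (x l / x i).arg) = ‖x k - x l‖ ^ 2 := by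
          rw [hd k l]; ring
        rw [sub_sub_cancel, h3, norm_sub_rev]
        exact pow_le_pow_left₀ (by linarith [hr l]) (hn l k hkl.symm) 2
  have harg : (x i / x i).arg = 0 := by rw [div_self hx0, Complex.arg_one]
  set α : ℝ := Real.arccos (1 / 2 + η) with hα
  have hca : Real.cos α = 1 / 2 + η := Real.cos_arccos (by linarith) (by linarith)
  have hα0 : 0 < α := Real.arccos_pos.2 (by linarith)
  have hαpi : α ≤ Real.pi := Real.arccos_le_pi _
  have hα3 : α ≤ Real.pi / 3 := by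
    by_contra h2
    push Not at h2
    have h3 := Real.cos_lt_cos_of_nonneg_of_le_pi (by positivity) hαpi h2
    rw [Real.cos_pi_div_three, hca] at h3
    linarith
  -- an angle far away from `x i`
  obtain ⟨k, hki, hk⟩ : ∃ k, k ≠ i ∧ 3 * α ≤ |(x k / x i).arg| := by
    by_contra hcon
    push Not at hcon
    have hlow : ∀ k, k ≠ i → α ≤ |(x k / x i).arg| := by
      intro k hki
      by_contra h2
      push Not at h2
      have h3 := Real.cos_lt_cos_of_nonneg_of_le_pi (abs_nonneg _) hαpi h2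
      rw [Real.cos_abs, hca] at h3
      have h4 := hcos k i hki
      rw [harg, sub_zero] at h4
      linarith
    have hcard : Fintype.card (Bool × Bool) < Fintype.card {k : Fin 6 // k ≠ i} := by
      rw [Fintype.card_subtype_compl, Fintype.card_fin, Fintype.card_subtype_eq]
      decide
    obtain ⟨⟨k, hk⟩, ⟨l, hl⟩, hkl, hf⟩ := Fintype.exists_ne_map_eq_of_card_lt
      (fun k : {k : Fin 6 // k ≠ i} => (decide (0 ≤ (x k / x i).arg),
        decide (|(x k / x i).arg| < 2 * α))) hcard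
    have hkl' : k ≠ l := fun h => hkl (Subtype.ext h)
    simp only [Prod.mk.injEq, decide_eq_decide] at hf
    obtain ⟨hf1, hf2⟩ := hf
    have h2 := hcos k l hkl'
    have h3 : |(x k / x i).arg - (x l / x i).arg| < α := by
      have hk1 := hlow k hk
      have hk2 := hcon k hk
      have hl1 := hlow l hl
      have hl2 := hcon l hl
      set s := (x k / x i).arg
      set t := (x l / x i).arg
      rw [abs_lt]
      rcases le_or_gt 0 s with hs0 | hs0
      · have ht0 := hf1.1 hs0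
        rw [abs_of_nonneg hs0, abs_of_nonneg ht0] at hf2
        rw [abs_of_nonneg hs0] at hk1 hk2
        rw [abs_of_nonneg ht0] at hl1 hl2
        rcases lt_or_ge s (2 * α) with h4 | h4
        · have h5 := hf2.1 h4
          constructor <;> linarith
        · have h5 : 2 * α ≤ t := by
            by_contra h6
            push Not at h6
            linarith [hf2.2 h6]
          constructor <;> linarith
      · have ht0 : t < 0 := by
          by_contra h6
          push Not at h6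
          linarith [hf1.2 h6]
        rw [abs_of_neg hs0, abs_of_neg ht0] at hf2
        rw [abs_of_neg hs0] at hk1 hk2
        rw [abs_of_neg ht0] at hl1 hl2
        rcases lt_or_ge (-s) (2 * α) with h4 | h4
        · have h5 := hf2.1 h4
          constructor <;> linarith
        · have h5 : 2 * α ≤ -t := by
            by_contra h6
            push Not at h6
            linarith [hf2.2 h6]
          constructor <;> linarith
    have h4 := Real.cos_lt_cos_of_nonneg_of_le_pi (abs_nonneg _) hαpi h3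
    rw [Real.cos_abs, hca] at h4
    linarith
  have h2 : Real.cos (x k / x i).arg ≤ 4 * (1 / 2 + η) ^ 3 - 3 * (1 / 2 + η) := by
    rw [← hca, ← Real.cos_three_mul, ← Real.cos_abs (x k / x i).arg]
    exact Real.cos_le_cos_of_nonneg_of_le_pi (by positivity) (Complex.abs_arg_le_pi _) hk
  have h3 := hd i k
  rw [harg, zero_sub, Real.cos_neg] at h3
  have h4 : ‖x i - x k‖ ^ 2 < (r i + r k) ^ 2 :=
    pow_lt_pow_left₀ (hs i k hki.symm) (norm_nonneg _) two_ne_zero
  refine d2_two (p := ‖x i‖) (q := ‖x k‖) (a := ‖x i‖ - r i) (b := ‖x k‖ - r k)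
    (c := Real.cos (x k / x i).arg) (hρ i) (hρ k) (by linarith [h0 i]) (by linarith [h1 i])
    (by linarith [h0 k]) (by linarith [h1 k]) ?_ h2
  have h5 : ‖x i‖ + ‖x k‖ - (‖x i‖ - r i) - (‖x k‖ - r k) = r i + r k := by ring
  rw [h5, ← h3]
  exact h4

-- END D2

end SigK

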