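import Pool.Agent.SigK.Pair
import Pool.Agent.SigK.LemF
import Pool.Agent.SigK.Fin

/-!
# Seven discs around two unit discs at distance one
-/

namespace SigK

/-- the conditions for the seven discs -/
structure Seven (x : Fin 7 → ℂ) (r : Fin 7 → ℝ) : Prop where
  h1 : ∀ i, 1 ≤ r i
  hx : ∀ i, r i ≤ ‖x i‖
  hx' : ∀ i, ‖x i‖ < r i + 1
  hy : ∀ i, r i ≤ ‖1 - x i‖
  hy' : ∀ i, ‖1 - x i‖ < 1 + r i
  hn : ∀ i j, i ≠ j → r i ≤ ‖x i - x j‖
  hs : ∀ i j, i ≠ j → ‖x i - x j‖ < r i + r j

theorem Seven.conj {x : Fin 7 → ℂ} {r : Fin 7 → ℝ} (h : Seven x r) :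
    Seven (fun i => (starRingEnd ℂ) (x i)) r where
  h1 := h.h1
  hx i := by rw [RCLike.norm_conj]; exact h.hx i
  hx' i := by rw [RCLike.norm_conj]; exact h.hx' i
  hy i := by
    have : (1 : ℂ) - (starRingEnd ℂ) (x i) = (starRingEnd ℂ) (1 - x i) := by simp
    rw [this, RCLike.norm_conj]; exact h.hy i
  hy' i := by
    have : (1 : ℂ) - (starRingEnd ℂ) (x i) = (starRingEnd ℂ) (1 - x i) := by simp
    rw [this, RCLike.norm_conj]; exact h.hy' i
  hn i j hij := by rw [← map_sub, RCLike.norm_conj]; exact h.hn i j hij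
  hs i j hij := by rw [← map_sub, RCLike.norm_conj]; exact h.hs i j hij

theorem Seven.flip {x : Fin 7 → ℂ} {r : Fin 7 → ℝ} (h : Seven x r) :
    Seven (fun i => 1 - x i) r where
  h1 := h.h1
  hx := h.hy
  hx' i := by rw [add_comm]; exact h.hy' i
  hy i := by rw [sub_sub_cancel]; exact h.hx i
  hy' i := by rw [sub_sub_cancel, add_comm]; exact h.hx' i
  hn i j hij := by
    have : (1 - x i) - (1 - x j) = -(x i - x j) := by ring
    rw [this, norm_neg]; exact h.hn i j hij
  hs i j hij := by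
    have : (1 - x i) - (1 - x j) = -(x i - x j) := by ring
    rw [this, norm_neg]; exact h.hs i j hij

/-- two near discs -/
theorem Seven.near {x : Fin 7 → ℂ} {r : Fin 7 → ℝ} (h : Seven x r) (u : Fin 7)
    (hu : ∀ i, r u ≤ r i) : r u < 7 ∧ ∃ v, v ≠ u ∧ r v < 7 := by
  classical
  set F : Finset (Fin 7) := Finset.univ.filter (fun i => 7 ≤ r i) with hF
  have hcard : F.card ≤ 5 := by
    by_contra hc
    push Not at hc
    obtain ⟨G, hG, hGc⟩ := Finset.exists_subset_card_eq (show 6 ≤ F.card from hc)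
    let f := G.orderEmbOfFin hGc
    have hf : ∀ i, 7 ≤ r (f i) := by
      intro i
      have := hG (G.orderEmbOfFin_mem hGc i)
      rw [hF, Finset.mem_filter] at this
      exact this.2
    exact six_far (fun i => x (f i)) (fun i => r (f i)) hf (fun i => h.hx _) (fun i => h.hx' _)
      (fun i j hij => h.hn _ _ (fun e => hij (f.injective e)))
      (fun i j hij => h.hs _ _ (fun e => hij (f.injective e)))
  have hN : 2 ≤ (Finset.univ.filter (fun i : Fin 7 => ¬ 7 ≤ r i)).card := by
    have := Finset.card_filter_add_card_filter_not (s := (Finset.univ : Finset (Fin 7)))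
      (fun i => 7 ≤ r i)
    rw [Finset.card_univ, Fintype.card_fin, ← hF] at this
    omega
  obtain ⟨a, ha, b, hb, hab⟩ := Finset.one_lt_card.mp (show 1 < _ from hN)
  rw [Finset.mem_filter] at ha hb
  have ha' : r a < 7 := not_le.mp ha.2
  have hb' : r b < 7 := not_le.mp hb.2
  refine ⟨lt_of_le_of_lt (hu a) ha', ?_⟩
  by_cases hau : a = u
  · exact ⟨b, fun e => hab (hau.trans e.symm), hb'⟩
  · exact ⟨a, hau, ha'⟩

/-- the cell of a disc -/
theorem exists_cell {x : ℂ} {r : ℝ} (h1 : 1 ≤ r) (hx : r ≤ ‖x‖) (hx' : ‖x‖ < r + 1) :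
    ∃ c t, c < 88 ∧ c / 8 = lvR (28 / r) ∧ InCell x r c t ∧
      (0 ≤ x.im → x.re ≤ 1 / 2 → 16 ≤ t ∧ t ≤ 47) := by
  have hr0 : 0 < r := lt_of_lt_of_le one_pos h1
  have hxn : 1 ≤ ‖x‖ := le_trans h1 hx
  have hx0 : x ≠ 0 := norm_pos_iff.mp (lt_of_lt_of_le one_pos hxn)
  obtain ⟨t, ht, hs, ht2⟩ := exists_sec x hx0
  set A := ⌊8 * (‖x‖ - r)⌋₊ with hA
  have ha0 : 0 ≤ 8 * (‖x‖ - r) := by linarith
  have hA1 : (A : ℝ) ≤ 8 * (‖x‖ - r) := Nat.floor_le ha0
  have hA2 : 8 * (‖x‖ - r) < (A : ℝ) + 1 := Nat.lt_floor_add_one _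
  have hA8 : A < 8 := by
    have : (A : ℝ) < 8 := by linarith
    exact_mod_cast this
  have hl := lvR_lt (28 / r)
  have hy0 : 0 ≤ 28 / r := by positivity
  have hy1 : 28 / r ≤ 28 := by rw [div_le_iff₀ hr0]; linarith
  obtain ⟨b1, b2⟩ := lvR_box hy0 hy1
  set c := 8 * lvR (28 / r) + A with hc
  have hc8 : c / 8 = lvR (28 / r) := by omega
  have hcm : c % 8 = A := by omega
  refine ⟨c, t, by omega, hc8, ⟨h1, hx, ?_, ?_, ?_, ?_, hs, ht⟩, ?_⟩
  · unfold k1
    have : Nat.div c 8 = lvR (28 / r) := hc8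
    rw [this, div_le_iff₀ (by norm_num)]
    calc (kbT.get (lvR (28 / r)) : ℝ) ≤ 28 / r := b1
      _ = 1 / r * 28 := by ring
  · unfold k2
    have : Nat.div c 8 = lvR (28 / r) := hc8
    rw [this, le_div_iff₀ (by norm_num)]
    calc 1 / r * 28 = 28 / r := by ring
      _ ≤ _ := b2
  · unfold a1
    have : Nat.mod c 8 = A := hcm
    rw [this]; linarith
  · unfold a2
    have e1 : Nat.mod c 8 = A := hcm
    have e2 : Nat.div c 88 = 0 := by
      show c / 88 = 0
      omega
    rw [e1, e2]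
    have : Nat.sub (Nat.succ A) 0 = A + 1 := rfl
    rw [this]
    push_cast
    linarith
  · intro hi hre
    exact ht2 hi (by linarith)

theorem seven_core {U : ℕ} (hI : IndS rowT.get shpT.get) (hF : firstOK base U = true)
    (hU : ∀ b, Mem b U → ∃ nx w, chkU nx rowT.get shpT.get levT.get exT.get base b w = true)
    {x : Fin 7 → ℂ} {r : Fin 7 → ℝ} (h : Seven x r) (u : Fin 7) (hu : ∀ i, r u ≤ r i)
    (him : 0 ≤ (x u).im) (hre : (x u).re ≤ 1 / 2) : False := by
  classical
  choose c t hc hcl hcell hsec using fun i => exists_cell (h.h1 i) (h.hx i) (h.hx' i)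
  obtain ⟨hnu, v, hvu, hnv⟩ := h.near u hu
  set b : Fin 7 → ℕ := fun i => t i * 88 + c i with hb
  have hb88 : ∀ i, b i % 88 = c i := by intro i; have := hc i; simp only [hb]; omega
  have hbd : ∀ i, b i / 88 = t i := by intro i; have := hc i; simp only [hb]; omega
  have hlt : ∀ i, b i < 8448 := by
    intro i; have := hc i; have := (hcell i).ht; simp only [hb]; omega
  have hlvl : ∀ i, lvl (b i) = lvR (28 / r i) := by
    intro i; unfold lvl; rw [hb88, hcl]
  have hadj : ∀ i j, i ≠ j → Adj rowT.get (b i) (b j) := by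
    intro i j hij
    exact pair_adj (hcell i) (hcell j) (hc i) (hc j) (h.hn i j hij)
      (by rw [norm_sub_rev]; exact h.hn j i hij.symm) (h.hs i j hij)
  have hbase : ∀ i, Mem (b i) base := by
    intro i
    exact mem_base (hcell i) (hc i) (h.hy i) (h.hy' i)
  have hpos : ∀ i, 0 < r i := fun i => lt_of_lt_of_le one_pos (h.h1 i)
  have hlev : ∀ i, lvl (b i) ≤ lvl (b u) := by
    intro i
    rw [hlvl, hlvl]
    apply lvR_mono
    exact div_le_div_of_nonneg_left (by norm_num) (hpos u) (hu i)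
  have hnear : ∀ i, r i < 7 → 4 ≤ lvl (b i) := by
    intro i hi
    rw [hlvl]
    apply lvR_near
    rw [le_div_iff₀ (hpos i)]
    linarith
  obtain ⟨s1, s2⟩ := hsec u him hre
  obtain ⟨nx, w, hw⟩ := hU (b u) (firstOK_spec hF (hlt u) (hbase u) (hnear u hnu)
    (by rw [hbd]; exact s1) (by rw [hbd]; exact s2))
  set l : List ℕ := ((List.finRange 7).erase u).map b with hl
  have hnd : (u :: (List.finRange 7).erase u).Nodup := by
    rw [List.nodup_cons]
    exact ⟨fun hm => (List.Nodup.mem_erase_iff (List.nodup_finRange 7)).mp hm |>.1 rfl,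
      (List.nodup_finRange 7).erase u⟩
  have hcl' : Cl rowT.get (b u :: l) := by
    constructor
    · have e : b u :: l = (u :: (List.finRange 7).erase u).map b := by simp [hl]
      rw [e, List.pairwise_map]
      exact hnd.imp (fun {i j} hij => ⟨hadj i j hij, hadj j i hij.symm⟩)
    · intro a ha
      rcases List.mem_cons.mp ha with rfl | ha'
      · exact hlt u
      · rw [hl, List.mem_map] at ha'
        obtain ⟨i, _, rfl⟩ := ha'
        exact hlt i
  refine chkU_spec hI (maskOK_spec chk_mask) hw (l := l) ?_ hcl' ?_ ?_ ?_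
  · rw [hl, List.length_map, List.length_erase_of_mem (List.mem_finRange u), List.length_finRange]
  · intro a ha
    rw [hl, List.mem_map] at ha
    obtain ⟨i, _, rfl⟩ := ha
    exact hbase i
  · intro a ha
    rw [hl, List.mem_map] at ha
    obtain ⟨i, _, rfl⟩ := ha
    exact hlev i
  · refine ⟨b v, ?_, hnear v hnv⟩
    rw [hl, List.mem_map]
    exact ⟨v, (List.mem_erase_of_ne hvu).mpr (List.mem_finRange v), rfl⟩

theorem seven_false {U : ℕ} (hI : IndS rowT.get shpT.get) (hF : firstOK base U = true)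
    (hU : ∀ b, Mem b U → ∃ nx w, chkU nx rowT.get shpT.get levT.get exT.get base b w = true)
    {x : Fin 7 → ℂ} {r : Fin 7 → ℝ} (h : Seven x r) : False := by
  obtain ⟨u, hu⟩ := Finite.exists_min r
  -- first the real part, then the imaginary part
  have step : ∀ y : Fin 7 → ℂ, Seven y r → (y u).re ≤ 1 / 2 → False := by
    intro y hy hre
    rcases le_total 0 (y u).im with him | him
    · exact seven_core hI hF hU hy u hu him hre
    · refine seven_core hI hF hU hy.conj u hu ?_ ?_
      · simp only [Complex.conj_im]; linarith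
      · simp only [Complex.conj_re]; exact hre
  rcases le_total (x u).re (1 / 2) with hre | hre
  · exact step x h hre
  · refine step _ h.flip ?_
    simp only [Complex.sub_re, Complex.one_re]
    linarith

/-- `NoNine` from the certificate -/
theorem noNine_of_cert {U : ℕ} (hI : IndS rowT.get shpT.get) (hF : firstOK base U = true)
    (hU : ∀ b, Mem b U → ∃ nx w, chkU nx rowT.get shpT.get levT.get exT.get base b w = true) :
    NoNine := by
  intro x r hx0 hx1 hr0 hr1 h1 hn hs
  have hne : ∀ i : Fin 7, (i.succ.succ : Fin 9) ≠ 0 := fun i => Fin.succ_ne_zero _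
  have hne1 : ∀ i : Fin 7, (i.succ.succ : Fin 9) ≠ 1 := by
    intro i hi
    have h2 := congrArg Fin.val hi
    simp at h2
  refine seven_false hI hF hU (x := fun i => x i.succ.succ) (r := fun i => r i.succ.succ)
    ⟨fun i => h1 _, ?_, ?_, ?_, ?_, ?_, ?_⟩
  · intro i
    have := hn _ 0 (hne i)
    rwa [hx0, sub_zero] at this
  · intro i
    have := hs _ 0 (hne i)
    rwa [hx0, hr0, sub_zero] at this
  · intro i
    have := hn _ 1 (hne1 i)
    rw [hx1, norm_sub_rev] at this
    exact this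
  · intro i
    have := hs 1 _ (hne1 i).symm
    rw [hx1, hr1] at this
    exact this
  · intro i j hij
    exact hn _ _ (fun e => hij (Fin.succ_injective _ (Fin.succ_injective _ e)))
  · intro i j hij
    exact hs _ _ (fun e => hij (Fin.succ_injective _ (Fin.succ_injective _ e)))

end SigK
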