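import Pool.Agent.SigK.Tab
import Pool.Agent.SigK.Dat

/-!
# Kernel check of the independent sets, part B
-/

namespace SigK

theorem chk_shB : shB.all (shapeOK rowT.get) = true := by decide +kernel

end SigK
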