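import Pool.Agent.SigK.HA
import Pool.Agent.SigK.HB
import Pool.Agent.SigK.HC
import Pool.Agent.SigK.HD

/-!
# All shapes are independent sets
-/

namespace SigK

theorem ind_shp : IndS rowT.get shpT.get := by
  apply indS_of_shapes
  have e : shpT.all (shapeOK rowT.get) = cond
      (cond (shA.all (shapeOK rowT.get)) (shB.all (shapeOK rowT.get)) false)
      (cond (shC.all (shapeOK rowT.get)) (shD.all (shapeOK rowT.get)) false) false := rfl
  rw [e, chk_shA, chk_shB, chk_shC, chk_shD]
  rfl

end SigK
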