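import Pool.Agent.SigK.Tab
import Pool.Agent.SigK.Dat

/-!
# D5: angles, sectors and levels
-/

namespace SigK

/-- the point `x` lies in the closed sector number `t` -/
def InSec (x : ℂ) (t : ℕ) : Prop :=
  ∃ θ : ℝ, x = (‖x‖ : ℂ) * Complex.exp (θ * Complex.I) ∧
    (t : ℝ) * (Real.pi / 48) ≤ θ ∧ θ ≤ ((t : ℝ) + 1) * (Real.pi / 48)

/-- every point lies in a sector, with numbers 16, .., 47 for the points of the upper half plane
whose argument is at least `π / 3` -/
theorem exists_sec (x : ℂ) (hx : x ≠ 0) :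
    ∃ t < 96, InSec x t ∧ (0 ≤ x.im → x.re ≤ ‖x‖ / 2 → 16 ≤ t ∧ t ≤ 47) := by
  have hpi := Real.pi_pos
  have key : ∀ θ : ℝ, 0 ≤ θ → θ < 2 * Real.pi → x = (‖x‖ : ℂ) * Complex.exp (θ * Complex.I) →
      (0 ≤ x.im → θ < Real.pi ∧ (x.re ≤ ‖x‖ / 2 → Real.pi / 3 ≤ θ)) →
      ∃ t < 96, InSec x t ∧ (0 ≤ x.im → x.re ≤ ‖x‖ / 2 → 16 ≤ t ∧ t ≤ 47) := by
    intro θ h0 h1 hx1 h2
    have hs : θ = (θ / (Real.pi / 48)) * (Real.pi / 48) := by field_simp
    have hs0 : 0 ≤ θ / (Real.pi / 48) := by positivity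
    have hf1 := Nat.floor_le hs0
    have hf2 := Nat.lt_floor_add_one (θ / (Real.pi / 48))
    refine ⟨⌊θ / (Real.pi / 48)⌋₊, ?_, ⟨θ, hx1, ?_, ?_⟩, ?_⟩
    · rw [Nat.floor_lt hs0, div_lt_iff₀ (by positivity)]
      push_cast
      linarith
    · calc (⌊θ / (Real.pi / 48)⌋₊ : ℝ) * (Real.pi / 48) ≤ θ / (Real.pi / 48) * (Real.pi / 48) :=
          mul_le_mul_of_nonneg_right hf1 (by positivity)
        _ = θ := hs.symm
    · calc θ = θ / (Real.pi / 48) * (Real.pi / 48) := hs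
        _ ≤ (((⌊θ / (Real.pi / 48)⌋₊ : ℕ) : ℝ) + 1) * (Real.pi / 48) :=
          mul_le_mul_of_nonneg_right hf2.le (by positivity)
    · intro him hre
      obtain ⟨h3, h4⟩ := h2 him
      constructor
      · apply Nat.le_floor
        rw [le_div_iff₀ (by positivity)]
        push_cast
        linarith [h4 hre]
      · apply Nat.le_of_lt_succ
        rw [Nat.floor_lt hs0, div_lt_iff₀ (by positivity)]
        push_cast
        linarith
  have hn := Complex.norm_mul_exp_arg_mul_I x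
  have hcos := Complex.cos_arg hx
  have hnx : 0 < ‖x‖ := norm_pos_iff.2 hx
  have ha1 := Complex.arg_le_pi x
  have ha2 := Complex.neg_pi_lt_arg x
  rcases lt_or_ge x.im 0 with him | him
  · have ha3 : Complex.arg x < 0 := Complex.arg_neg_iff.2 him
    refine key (Complex.arg x + 2 * Real.pi) (by linarith) (by linarith) ?_ ?_
    · have e : Complex.exp (((Complex.arg x + 2 * Real.pi : ℝ) : ℂ) * Complex.I) =
          Complex.exp ((Complex.arg x : ℂ) * Complex.I) := by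
        push_cast
        rw [add_mul, Complex.exp_add, Complex.exp_two_pi_mul_I, mul_one]
      rw [e]
      exact hn.symm
    · intro h
      exact absurd him (not_lt.2 h)
  · have ha3 : 0 ≤ Complex.arg x := Complex.arg_nonneg_iff.2 him
    rcases lt_or_eq_of_le ha1 with hlt | heq
    · refine key (Complex.arg x) ha3 (by linarith) hn.symm ?_
      intro _
      refine ⟨hlt, fun hre => ?_⟩
      by_contra hc
      push Not at hc
      have h5 := Real.cos_lt_cos_of_nonneg_of_le_pi ha3 (by linarith) hc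
      rw [Real.cos_pi_div_three, hcos] at h5
      rw [lt_div_iff₀ hnx] at h5
      linarith
    · refine ⟨47, by norm_num, ⟨Real.pi, ?_, ?_, ?_⟩, fun _ _ => ⟨by norm_num, le_refl _⟩⟩
      · rw [← heq]
        exact hn.symm
      · push_cast
        linarith
      · push_cast
        linarith

/-- the cosine `g` of the angle between two points in the sectors `t, t'` with cyclic distance
`δ = circ (96 - t + t') ≤ 48` -/
private lemma sc_norm {x y : ℂ} {θ φ : ℝ} (hx : x = (‖x‖ : ℂ) * Complex.exp (θ * Complex.I))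
    (hy : y = (‖y‖ : ℂ) * Complex.exp (φ * Complex.I)) :
    ‖x - y‖ ^ 2 = ‖x‖ ^ 2 + ‖y‖ ^ 2 - 2 * Real.cos (φ - θ) * ‖x‖ * ‖y‖ := by
  have ex : x.re = ‖x‖ * Real.cos θ ∧ x.im = ‖x‖ * Real.sin θ := by
    constructor
    · conv_lhs => rw [hx]
      rw [Complex.re_ofReal_mul, Complex.exp_ofReal_mul_I_re]
    · conv_lhs => rw [hx]
      rw [Complex.im_ofReal_mul, Complex.exp_ofReal_mul_I_im]
  have ey : y.re = ‖y‖ * Real.cos φ ∧ y.im = ‖y‖ * Real.sin φ := by
    constructor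
    · conv_lhs => rw [hy]
      rw [Complex.re_ofReal_mul, Complex.exp_ofReal_mul_I_re]
    · conv_lhs => rw [hy]
      rw [Complex.im_ofReal_mul, Complex.exp_ofReal_mul_I_im]
  have e1 : ‖x - y‖ ^ 2 = (x.re - y.re) ^ 2 + (x.im - y.im) ^ 2 := by
    rw [Complex.sq_norm, Complex.normSq_apply, Complex.sub_re, Complex.sub_im]
    ring
  rw [e1, ex.1, ex.2, ey.1, ey.2, Real.cos_sub]
  have s1 := Real.sin_sq_add_cos_sq θ
  have s2 := Real.sin_sq_add_cos_sq φ
  linear_combination (‖x‖ ^ 2) * s1 + (‖y‖ ^ 2) * s2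

private lemma sc_core {c : ℕ} (hc : c ≤ 48) {D : ℝ} (h1 : ((c : ℝ) - 1) * (Real.pi / 48) ≤ D)
    (h2 : D ≤ ((c : ℝ) + 1) * (Real.pi / 48)) :
    (c ≤ 47 → Real.cos (((c : ℕ) + 1 : ℝ) * (Real.pi / 48)) ≤ Real.cos D) ∧
      (1 ≤ c → Real.cos D ≤ Real.cos (((c : ℕ) - 1 : ℝ) * (Real.pi / 48))) := by
  have hpi := Real.pi_pos
  have hδ : 0 < Real.pi / 48 := by positivity
  constructor
  · intro h
    have h3 : (c : ℝ) ≤ 47 := by exact_mod_cast h
    have h0 : (0 : ℝ) ≤ c := Nat.cast_nonneg _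
    rw [← Real.cos_abs D]
    apply Real.cos_le_cos_of_nonneg_of_le_pi (abs_nonneg D)
    · have := mul_le_mul_of_nonneg_right (show (c : ℝ) + 1 ≤ 48 by linarith) hδ.le
      linarith
    · rw [abs_le]
      refine ⟨?_, h2⟩
      have := mul_nonneg h0 hδ.le
      linarith
  · intro h
    have h3 : (1 : ℝ) ≤ c := by exact_mod_cast h
    have h4 : (c : ℝ) ≤ 48 := by exact_mod_cast hc
    have h5 : 0 ≤ ((c : ℝ) - 1) * (Real.pi / 48) := mul_nonneg (by linarith) hδ.le
    rcases le_total D Real.pi with hD | hD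
    · exact Real.cos_le_cos_of_nonneg_of_le_pi h5 hD h1
    · rw [← Real.cos_two_pi_sub D]
      apply Real.cos_le_cos_of_nonneg_of_le_pi h5 (by linarith)
      have := mul_le_mul_of_nonneg_right h4 hδ.le
      linarith

private lemma ble_f {m n : ℕ} (h : n < m) : Nat.ble m n = false := by
  cases hb : Nat.ble m n
  · rfl
  · have := Nat.le_of_ble_eq_true hb
    omega

theorem sec_cos {x y : ℂ} {t t' : ℕ} (hx : InSec x t) (hy : InSec y t') (ht : t < 96)
    (ht' : t' < 96) (_hx0 : x ≠ 0) (_hy0 : y ≠ 0) :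
    circ (96 - t + t') ≤ 48 ∧ ∃ g : ℝ, ‖x - y‖ ^ 2 = ‖x‖ ^ 2 + ‖y‖ ^ 2 - 2 * g * ‖x‖ * ‖y‖ ∧
      (circ (96 - t + t') ≤ 47 →
        Real.cos (((circ (96 - t + t') : ℕ) + 1 : ℝ) * (Real.pi / 48)) ≤ g) ∧
      (1 ≤ circ (96 - t + t') →
        g ≤ Real.cos (((circ (96 - t + t') : ℕ) - 1 : ℝ) * (Real.pi / 48))) := by
  obtain ⟨θ, hx1, hx2, hx3⟩ := hx
  obtain ⟨φ, hy1, hy2, hy3⟩ := hy
  have main : circ (96 - t + t') ≤ 48 ∧ ∃ D : ℝ, Real.cos D = Real.cos (φ - θ) ∧
      ((circ (96 - t + t') : ℝ) - 1) * (Real.pi / 48) ≤ D ∧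
      D ≤ ((circ (96 - t + t') : ℝ) + 1) * (Real.pi / 48) := by
    by_cases h1 : 96 ≤ 96 - t + t'
    · by_cases h2 : 96 - t + t' ≤ 144
      · have e : circ (96 - t + t') = t' - t := by
          unfold circ
          rw [Nat.ble_eq_true_of_le h1, Nat.ble_eq_true_of_le h2]
          show 96 - t + t' - 96 = t' - t
          omega
        rw [e]
        refine ⟨by omega, φ - θ, rfl, ?_, ?_⟩
        · rw [Nat.cast_sub (by omega)]
          linarith
        · rw [Nat.cast_sub (by omega)]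
          linarith
      · have e : circ (96 - t + t') = 96 - (t' - t) := by
          have h3 : Nat.ble (96 - t + t') 144 = false := ble_f (by omega)
          unfold circ
          rw [Nat.ble_eq_true_of_le h1, h3]
          show 192 - (96 - t + t') = 96 - (t' - t)
          omega
        rw [e]
        refine ⟨by omega, 2 * Real.pi - (φ - θ), Real.cos_two_pi_sub _, ?_, ?_⟩
        · rw [Nat.cast_sub (by omega), Nat.cast_sub (by omega)]
          push_cast
          linarith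
        · rw [Nat.cast_sub (by omega), Nat.cast_sub (by omega)]
          push_cast
          linarith
    · have h1' : Nat.ble 96 (96 - t + t') = false := ble_f (by omega)
      by_cases h2 : 48 ≤ 96 - t + t'
      · have e : circ (96 - t + t') = t - t' := by
          unfold circ
          rw [h1', Nat.ble_eq_true_of_le h2]
          show 96 - (96 - t + t') = t - t'
          omega
        rw [e]
        refine ⟨by omega, -(φ - θ), Real.cos_neg _, ?_, ?_⟩
        · rw [Nat.cast_sub (by omega)]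
          linarith
        · rw [Nat.cast_sub (by omega)]
          linarith
      · have e : circ (96 - t + t') = 96 - (t - t') := by
          have h3 : Nat.ble 48 (96 - t + t') = false := ble_f (by omega)
          unfold circ
          rw [h1', h3]
          show 96 - t + t' = 96 - (t - t')
          omega
        rw [e]
        refine ⟨by omega, (φ - θ) + 2 * Real.pi, Real.cos_add_two_pi _, ?_, ?_⟩
        · rw [Nat.cast_sub (by omega), Nat.cast_sub (by omega)]
          push_cast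
          linarith
        · rw [Nat.cast_sub (by omega), Nat.cast_sub (by omega)]
          push_cast
          linarith
  obtain ⟨hc, D, hD, hD1, hD2⟩ := main
  have k := sc_core hc hD1 hD2
  rw [hD] at k
  exact ⟨hc, Real.cos (φ - θ), sc_norm hx1 hy1, k.1, k.2⟩

/-- the level of a curvature, `y = 28 κ` -/
noncomputable def lvR (y : ℝ) : ℕ :=
  if y < 1 then 0 else if y < 2 then 1 else if y < 3 then 2 else if y < 4 then 3 else
  if y < 5 then 4 else if y < 7 then 5 else if y < 10 then 6 else if y < 14 then 7 else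
  if y < 18 then 8 else if y < 23 then 9 else 10

private lemma d5_cases (y : ℝ) :
    (y < 1 ∧ lvR y = 0) ∨
    (1 ≤ y ∧ y < 2 ∧ lvR y = 1) ∨
    (2 ≤ y ∧ y < 3 ∧ lvR y = 2) ∨
    (3 ≤ y ∧ y < 4 ∧ lvR y = 3) ∨
    (4 ≤ y ∧ y < 5 ∧ lvR y = 4) ∨
    (5 ≤ y ∧ y < 7 ∧ lvR y = 5) ∨
    (7 ≤ y ∧ y < 10 ∧ lvR y = 6) ∨
    (10 ≤ y ∧ y < 14 ∧ lvR y = 7) ∨
    (14 ≤ y ∧ y < 18 ∧ lvR y = 8) ∨
    (18 ≤ y ∧ y < 23 ∧ lvR y = 9) ∨
    (23 ≤ y ∧ lvR y = 10) := by
  unfold lvR
  split_ifs with h0 h1 h2 h3 h4 h5 h6 h7 h8 h9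
  · exact Or.inl ⟨h0, rfl⟩
  · exact Or.inr (Or.inl ⟨not_lt.1 h0, h1, rfl⟩)
  · exact Or.inr (Or.inr (Or.inl ⟨not_lt.1 h1, h2, rfl⟩))
  · exact Or.inr (Or.inr (Or.inr (Or.inl ⟨not_lt.1 h2, h3, rfl⟩)))
  · exact Or.inr (Or.inr (Or.inr (Or.inr (Or.inl ⟨not_lt.1 h3, h4, rfl⟩))))
  · exact Or.inr (Or.inr (Or.inr (Or.inr (Or.inr (Or.inl ⟨not_lt.1 h4, h5, rfl⟩)))))
  · exact Or.inr (Or.inr (Or.inr (Or.inr (Or.inr (Or.inr (Or.inl ⟨not_lt.1 h5, h6, rfl⟩))))))
  · exact Or.inr (Or.inr (Or.inr (Or.inr (Or.inr (Or.inr (Or.inr (Or.inl ⟨not_lt.1 h6, h7, rfl⟩)))))))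
  · exact Or.inr (Or.inr (Or.inr (Or.inr (Or.inr (Or.inr (Or.inr (Or.inr (Or.inl ⟨not_lt.1 h7, h8, rfl⟩))))))))
  · exact Or.inr (Or.inr (Or.inr (Or.inr (Or.inr (Or.inr (Or.inr (Or.inr (Or.inr (Or.inl ⟨not_lt.1 h8, h9, rfl⟩)))))))))
  · exact Or.inr (Or.inr (Or.inr (Or.inr (Or.inr (Or.inr (Or.inr (Or.inr (Or.inr (Or.inr (⟨not_lt.1 h9, rfl⟩))))))))))

theorem lvR_lt (y : ℝ) : lvR y < 11 := by
  unfold lvR
  split_ifs <;> norm_num

theorem lvR_mono {y z : ℝ} (h : y ≤ z) : lvR y ≤ lvR z := by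
  rcases d5_cases y with hy | hy | hy | hy | hy | hy | hy | hy | hy | hy | hy <;>
  rcases d5_cases z with hz | hz | hz | hz | hz | hz | hz | hz | hz | hz | hz <;>
  first
  | (rw [hy.2, hz.2]; done)
  | omega
  | (exfalso; linarith [hy.1, hz.1, hy.2, hz.2])

theorem lvR_near {y : ℝ} (h : 4 ≤ y) : 4 ≤ lvR y := by
  unfold lvR
  split_ifs <;> first | omega | (exfalso; linarith)

/-- `kbT.get 0, ..., kbT.get 12 = 0, 1, 2, 3, 4, 5, 7, 10, 14, 18, 23, 28, 28` -/
theorem lvR_box {y : ℝ} (h0 : 0 ≤ y) (h1 : y ≤ 28) :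
    (kbT.get (lvR y) : ℝ) ≤ y ∧ y ≤ (kbT.get (lvR y + 1) : ℝ) := by
  have e0 : kbT.get 0 = 0 := rfl
  have e1 : kbT.get 1 = 1 := rfl
  have e2 : kbT.get 2 = 2 := rfl
  have e3 : kbT.get 3 = 3 := rfl
  have e4 : kbT.get 4 = 4 := rfl
  have e5 : kbT.get 5 = 5 := rfl
  have e6 : kbT.get 6 = 7 := rfl
  have e7 : kbT.get 7 = 10 := rfl
  have e8 : kbT.get 8 = 14 := rfl
  have e9 : kbT.get 9 = 18 := rfl
  have e10 : kbT.get 10 = 23 := rfl
  have e11 : kbT.get 11 = 28 := rfl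
  unfold lvR
  split_ifs
  · rw [e0, e1]; push_cast; constructor <;> linarith
  · rw [e1, e2]; push_cast; constructor <;> linarith
  · rw [e2, e3]; push_cast; constructor <;> linarith
  · rw [e3, e4]; push_cast; constructor <;> linarith
  · rw [e4, e5]; push_cast; constructor <;> linarith
  · rw [e5, e6]; push_cast; constructor <;> linarith
  · rw [e6, e7]; push_cast; constructor <;> linarith
  · rw [e7, e8]; push_cast; constructor <;> linarith
  · rw [e8, e9]; push_cast; constructor <;> linarith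
  · rw [e9, e10]; push_cast; constructor <;> linarith
  · rw [e10, e11]; push_cast; constructor <;> linarith

end SigK
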