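import Pool.Agent.SigK.Tab
import Pool.Agent.SigK.Dat

/-!
# Kernel checks of the tables
-/

namespace SigK

theorem chk_mask : maskOK levT.get exT.get = true := by decide +kernel
theorem chk_ring : ringOK geT.get leT.get = true := by decide +kernel
theorem chk_row : rowOK rowT.get dtT.get geT.get leT.get = true := by decide +kernel
theorem chk_geo : geoOK kbT.get csT.get dtT.get = true := by decide +kernel
/-- the first `n` bits -/
def pmask (n : ℕ) : ℕ := Nat.sub (Nat.pow 2 n) 1

theorem chk_base : Nat.beq base (Nat.land (Nat.land (Nat.shiftRight (rowT.get 88) 8448)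
    (Nat.shiftRight (rowT.get 88) 88)) (pmask 8448)) = true := by decide +kernel

end SigK
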