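import Mathlib.Data.Nat.Bitwise
import Mathlib.Data.Nat.Log

/-!
# A kernel friendly clique search

Sets of cells are natural numbers (bit sets).  All functions are written with recursors and the
binary representation primitives, so that the kernel evaluates them fast.  The kernel hashes a
number by its last 64 bits, therefore big numbers are stored together with a short tag (`pk`).
-/

namespace SigK

/-- binary search tree with natural numbers at the leaves -/
inductive T where
  | l (x : ℕ) : T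
  | n (k : ℕ) (a b : T) : T

noncomputable def T.get (t : T) : ℕ → ℕ :=
  T.rec (fun x _ => x) (fun k _ _ ga gb i => cond (Nat.ble k i) (gb i) (ga i)) t

noncomputable def force {β : Type} (n : ℕ) (f : ℕ → β) : β :=
  Nat.rec (f 0) (fun m _ => f (Nat.succ m)) n

theorem force_eq {β : Type} (n : ℕ) (f : ℕ → β) : force n f = f n := by
  cases n <;> rfl

/-- pack a number with a tag -/
noncomputable def pk (x : ℕ) : ℕ := Nat.add (Nat.shiftLeft x 64) (Nat.mod x 9223372036854775783)

/-- unpack -/
noncomputable def up (y : ℕ) : ℕ := Nat.shiftRight y 64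

/-- neighbours of the cell `i` -/
noncomputable def rw' (row : ℕ → ℕ) (i : ℕ) : ℕ :=
  Nat.shiftRight (row (Nat.mod i 88)) (Nat.mul (Nat.sub 96 (Nat.div i 88)) 88)

/-- rotated independent set -/
noncomputable def sw' (shp : ℕ → ℕ) (x : ℕ) : ℕ :=
  Nat.shiftRight (shp (Nat.div x 128)) (Nat.mul (Nat.sub 96 (Nat.mod x 128)) 88)

noncomputable def anyZ (row : ℕ → ℕ) (l : List ℕ) (i : ℕ) : Bool :=
  List.rec false (fun R _ ih => cond (Nat.beq (Nat.land (up R) (rw' row i)) 0) true ih) l

/-- split off the last field of a number -/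
noncomputable def rd1 (w : ℕ) (c : ℕ → ℕ → ℕ) : ℕ :=
  force (Nat.mod w 65536) fun x => force (Nat.div w 65536) fun w' => c x w'

/-- read a field of the certificate; a number below `65536` is the address of the next part -/
noncomputable def rd (nx : ℕ → ℕ) (w : ℕ) (c : ℕ → ℕ → ℕ) : ℕ :=
  cond (Nat.ble 65536 w) (rd1 w c) (rd1 (nx w) c)

noncomputable def cover (nx shp : ℕ → ℕ) (k : ℕ) : ℕ → ℕ → (ℕ → ℕ → ℕ) → ℕ :=
  Nat.rec (fun R w c => c R w)
    (fun _ ih R w c => rd nx w fun x w' =>
      force (pk (Nat.xor (up R) (Nat.land (up R) (sw' shp x)))) fun R' => ih R' w' c) k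

noncomputable def covers (nx shp : ℕ → ℕ) (k P m : ℕ) : ℕ → List ℕ → (List ℕ → ℕ → ℕ) → ℕ :=
  Nat.rec (fun w acc c => c acc w)
    (fun _ ih w acc c => cover nx shp k P w (fun R w' => ih w' (R :: acc) c)) m

/-- the recursive call for one vertex which is not covered -/
noncomputable def desc (nx row shp : ℕ → ℕ) (ih : ℕ → ℕ → List ℕ → ℕ → ℕ → ℕ → ℕ)
    (n P : ℕ) (Rs : List ℕ) (B i w : ℕ) : ℕ :=
  Nat.rec 0 (fun n' _ => force (pk (Nat.land (up P) (rw' row i))) fun Pb =>
    cover nx shp n' Pb w fun Rb w1 =>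
    cond (Nat.beq (up Rb) 0) (force (Nat.succ i) fun i' => ih n P Rs B i' w1) <|
    Nat.rec 0 (fun n'' _ => rd nx w1 fun m w2 =>
      covers nx shp n'' Pb m w2 [] fun Rs' w3 =>
      Nat.rec 0 (fun w4 _ => force (Nat.succ i) fun i' => force w4 fun w5 => ih n P Rs B i' w5)
        (ih n' Pb Rs' Rb 0 w3)) n') n

noncomputable def loop (nx row shp : ℕ → ℕ) (f : ℕ) : ℕ → ℕ → List ℕ → ℕ → ℕ → ℕ → ℕ :=
  Nat.rec (fun _ _ _ _ _ _ => 0)
    (fun _ ih n P Rs B i w =>
      cond (Nat.beq (Nat.shiftRight (up B) i) 0) (Nat.succ w) <|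
      cond (Nat.beq (Nat.mod (Nat.shiftRight (up B) i) 2) 0)
        (rd nx w fun s w' =>
          cond (Nat.beq (Nat.mod (Nat.shiftRight (up B) i) (Nat.pow 2 s)) 0)
            (force (Nat.add i s) fun i' => ih n P Rs B i' w') 0) <|
      cond (anyZ row Rs i) (force (Nat.succ i) fun i' => ih n P Rs B i' w)
        (desc nx row shp ih n P Rs B i w)) f

/-- the levels `4 + c` for `c < cnt` for a fixed first disc -/
noncomputable def tops (nx row shp lev ex : ℕ → ℕ) (Pu cnt : ℕ) : ℕ → ℕ :=
  Nat.rec (fun w => Nat.succ w)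
    (fun c ih w =>
      force (pk (Nat.land (up Pu) (lev (Nat.add 4 c)))) fun P =>
      force (pk (Nat.land (up Pu) (ex (Nat.add 4 c)))) fun B =>
      rd nx w fun m w2 =>
      covers nx shp 4 P m w2 [] fun Rs w3 =>
      Nat.rec 0 (fun w4 _ => force w4 fun w5 => ih w5) (loop nx row shp 5000 5 P Rs B 0 w3)) cnt

/-- the check for the first disc in cell `u` -/
noncomputable def chkU (nx row shp lev ex : ℕ → ℕ) (base u w : ℕ) : Bool :=
  force (Nat.div (Nat.mod u 88) 8) fun k =>
  force (pk (Nat.land (Nat.land base (lev k)) (rw' row u))) fun Pu =>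
  Nat.ble 1 (tops nx row shp lev ex Pu (Nat.sub k 3) w)

/-- the check for a list of first discs -/
noncomputable def chkL (nx row shp lev ex : ℕ → ℕ) (base : ℕ) (L : List (ℕ × ℕ)) : Bool :=
  List.rec true (fun p _ ih => cond (chkU nx row shp lev ex base p.1 p.2) ih false) L

end SigK
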