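import Pool.Agent.SigK.Tst

/-!
# D4: the real inequalities behind the integer tests

Notation: radii `r s > 0`, offsets `a b ≥ 0`, distances from the origin `ρ = r + a`, `σ = s + b`, cosine
`g` of the angle; squared distance of the centres `D = ρ² + σ² - 2 g ρ σ`.

S1: multiply `D - r² = 2 r a + a² + σ² - 2 g (r + a) σ` by `κ = 1/r`:
`F = 2 a + κ a² + κ σ² - 2 g (1 + κ a) σ`.  `g ≥ c := C/10^6` so `F ≤ F_c`.  `F_c` is linear in `κ`,
convex in `a` (coefficient `κ ≥ 0`), convex in `σ`, and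
`σ ∈ [28/kj2 + aj1/8, 28/kj1 + aj2/8] = [(224 + kj2 aj1)/(8 kj2), (224 + kj1 aj2)/(8 kj1)]`,
so it is negative if it is negative at the 8 corners = the 8 integer tests divided by
`1792 kj² 10^6`.

Tri: `κ = 1/r ≤ μ = 1/s`, both in `[k1/28, k2/28]`.  `φ(κ, μ) = κ μ² (D - r²)`
`= μ² a (2 + κ a) + κ (1 + μ b)² - 2 g (1 + κ a)(1 + μ b) μ`, again `g ≥ c`.
For fixed `μ, a, b` linear in `κ`, so it is enough to look at `κ = k1/28` and `κ = μ`.
`κ = μ`: `φ/μ = μ a (2 + μ a) + (1 + μ b)² - 2 c (1 + μ a)(1 + μ b)` is convex in `μ`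
(coefficient `a² + b² - 2 c a b ≥ 0` since `c ≤ 1`): corners `μ = k1/28, k2/28` (tests `trd`).
`κ = k1/28 =: κ0`: `φ/μ² = a (2 + κ0 a) + κ0 σ² - 2 c (1 + κ0 a) σ` is convex in `σ = 1/μ + b`, so for
`k1 > 0` the corners `μ = k1/28` (it is `trd` again) and `μ = k2/28` (test `tre`); for `k1 = 0`:
`φ/μ = 2 μ a - 2 c (1 + μ b)` is linear in `μ`, it is `≤ 0`... at `μ = 0` (`= -2c < 0`) and
negative at `k2/28`.  In `a` and `b` everything is convex (coefficients `μ² κ ≥ 0`, `κ μ² ≥ 0`).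

Opp: `κ μ (D - (r + s)²) = μ a (2 + κ a) + κ b (2 + μ b) - 2 - 2 g (1 + κ a)(1 + μ b)` with
`-g ≥ C/10^6 ≥ 0`: increasing in `a` and `b`, bilinear in `(κ, μ)`: 4 corners.
-/

namespace SigK

private lemma cvx {A B D p q x : ℝ} (hA : 0 ≤ A) (hp : p ≤ x) (hq : x ≤ q)
    (h1 : A * p ^ 2 + B * p + D < 0) (h2 : A * q ^ 2 + B * q + D < 0) :
    A * x ^ 2 + B * x + D < 0 := by
  rcases eq_or_lt_of_le hp with rfl | hp'
  · exact h1
  rcases eq_or_lt_of_le hq with rfl | hq'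
  · exact h2
  have e : (q - p) * (A * x ^ 2 + B * x + D) = (q - x) * (A * p ^ 2 + B * p + D) +
      (x - p) * (A * q ^ 2 + B * q + D) - A * ((q - p) * ((x - p) * (q - x))) := by ring
  have h3 : (q - x) * (A * p ^ 2 + B * p + D) < 0 := mul_neg_of_pos_of_neg (by linarith) h1
  have h4 : (x - p) * (A * q ^ 2 + B * q + D) < 0 := mul_neg_of_pos_of_neg (by linarith) h2
  have h5 : 0 ≤ A * ((q - p) * ((x - p) * (q - x))) :=
    mul_nonneg hA (mul_nonneg (by linarith) (mul_nonneg (by linarith) (by linarith)))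
  have h6 : (q - p) * (A * x ^ 2 + B * x + D) < 0 := by rw [e]; linarith
  by_contra h7
  push Not at h7
  have := mul_nonneg (show 0 ≤ q - p by linarith) h7
  linarith

private lemma cnd {a b : Bool} (h : cond a b false = true) : a = true ∧ b = true := by
  cases a
  · exact Bool.noConfusion h
  · exact ⟨rfl, h⟩

/-! ## S1 -/

private def Fs (c K A S : ℝ) : ℝ := 2 * A + K * A ^ 2 + K * S ^ 2 - 2 * c * (1 + K * A) * S

private lemma s1_core {c K1 K2 A1 A2 S1 S2 r a S g : ℝ} (hr : 0 < r) (hK1 : 0 ≤ K1)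
    (hK2 : 0 ≤ K2) (hk1 : K1 ≤ 1 / r) (hk2 : 1 / r ≤ K2) (ha0 : 0 ≤ a) (ha1 : A1 ≤ a)
    (ha2 : a ≤ A2) (hS0 : 0 < S) (hS1 : S1 ≤ S) (hS2 : S ≤ S2) (hg : c ≤ g)
    (u1 : Fs c K1 A1 S2 < 0) (u2 : Fs c K1 A2 S2 < 0) (u3 : Fs c K2 A1 S2 < 0)
    (u4 : Fs c K2 A2 S2 < 0) (u5 : Fs c K1 A1 S1 < 0) (u6 : Fs c K1 A2 S1 < 0)
    (u7 : Fs c K2 A1 S1 < 0) (u8 : Fs c K2 A2 S1 < 0) :
    (r + a) ^ 2 + S ^ 2 - 2 * g * (r + a) * S < r ^ 2 := by
  have cS : ∀ K A : ℝ, 0 ≤ K → Fs c K A S1 < 0 → Fs c K A S2 < 0 → Fs c K A S < 0 := by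
    intro K A hK x1 x2
    unfold Fs at *
    have := cvx (A := K) (B := - (2 * c * (1 + K * A))) (D := 2 * A + K * A ^ 2) hK hS1 hS2
      (by linarith) (by linarith)
    linarith
  have v1 := cS K1 A1 hK1 u5 u1
  have v2 := cS K1 A2 hK1 u6 u2
  have v3 := cS K2 A1 hK2 u7 u3
  have v4 := cS K2 A2 hK2 u8 u4
  have cA : ∀ K : ℝ, 0 ≤ K → Fs c K A1 S < 0 → Fs c K A2 S < 0 → Fs c K a S < 0 := by
    intro K hK x1 x2
    unfold Fs at *
    have := cvx (A := K) (B := 2 - 2 * c * K * S) (D := K * S ^ 2 - 2 * c * S) hK ha1 ha2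
      (by linarith) (by linarith)
    linarith
  have w1 := cA K1 hK1 v1 v2
  have w2 := cA K2 hK2 v3 v4
  unfold Fs at w1 w2
  have w3 := cvx (A := 0) (B := a ^ 2 + S ^ 2 - 2 * c * a * S) (D := 2 * a - 2 * c * S) le_rfl
    hk1 hk2 (by linarith) (by linarith)
  have w4 : r * (0 * (1 / r) ^ 2 + (a ^ 2 + S ^ 2 - 2 * c * a * S) * (1 / r) +
      (2 * a - 2 * c * S)) < 0 := mul_neg_of_pos_of_neg hr w3
  have w5 : r * (0 * (1 / r) ^ 2 + (a ^ 2 + S ^ 2 - 2 * c * a * S) * (1 / r) +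
      (2 * a - 2 * c * S)) = (r + a) ^ 2 + S ^ 2 - 2 * c * (r + a) * S - r ^ 2 := by
    field_simp
    ring
  rw [w5] at w4
  have w6 : 0 ≤ (g - c) * ((r + a) * S) :=
    mul_nonneg (by linarith) (mul_nonneg (by linarith) hS0.le)
  linarith

private lemma s1v_real {C K A kj aj : ℕ} (h : s1v C K A kj aj = true) (hk : 1 ≤ kj) :
    Fs ((C : ℝ) / 1000000) ((K : ℝ) / 28) ((A : ℝ) / 8) (28 / (kj : ℝ) + (aj : ℝ) / 8) < 0 := by
  have h1 := Nat.le_of_ble_eq_true h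
  have h2 : (1000000 * (448 * A * kj * kj + (K * (A * A) * kj * kj +
      K * ((224 + kj * aj) * (224 + kj * aj))))).succ ≤
      2 * C * ((224 + K * A) * (224 + kj * aj) * kj) := h1
  have h3 : (1000000 * (448 * A * kj * kj + (K * (A * A) * kj * kj +
      K * ((224 + kj * aj) * (224 + kj * aj)))) : ℝ) <
      2 * C * ((224 + K * A) * (224 + kj * aj) * kj) := by
    exact_mod_cast Nat.lt_of_succ_le h2
  have hk0 : (0 : ℝ) < kj := by exact_mod_cast hk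
  have e : Fs ((C : ℝ) / 1000000) ((K : ℝ) / 28) ((A : ℝ) / 8) (28 / (kj : ℝ) + (aj : ℝ) / 8) =
      ((1000000 * (448 * A * kj * kj + (K * (A * A) * kj * kj +
      K * ((224 + kj * aj) * (224 + kj * aj)))) : ℝ) -
      2 * C * ((224 + K * A) * (224 + kj * aj) * kj)) / (1792 * kj ^ 2 * 1000000) := by
    unfold Fs
    field_simp
    ring
  rw [e]
  exact div_neg_of_neg_of_pos (by linarith) (by positivity)

theorem s1_sound {C ki1 ki2 ai1 ai2 kj1 kj2 aj1 aj2 : ℕ}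
    (h : s1 C ki1 ki2 ai1 ai2 kj1 kj2 aj1 aj2 = true)
    {r s a b g : ℝ} (hr : 0 < r) (hs : 0 < s)
    (hk1 : (ki1 : ℝ) / 28 ≤ 1 / r) (hk2 : 1 / r ≤ (ki2 : ℝ) / 28)
    (ha1 : (ai1 : ℝ) / 8 ≤ a) (ha2 : a ≤ (ai2 : ℝ) / 8)
    (hm1 : (kj1 : ℝ) / 28 ≤ 1 / s) (hm2 : 1 / s ≤ (kj2 : ℝ) / 28)
    (hb1 : (aj1 : ℝ) / 8 ≤ b) (hb2 : b ≤ (aj2 : ℝ) / 8)
    (hg : (C : ℝ) / 1000000 ≤ g) :
    (r + a) ^ 2 + (s + b) ^ 2 - 2 * g * (r + a) * (s + b) < r ^ 2 := by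
  obtain ⟨h0, h⟩ := cnd h
  obtain ⟨t1, h⟩ := cnd h
  obtain ⟨t2, h⟩ := cnd h
  obtain ⟨t3, h⟩ := cnd h
  obtain ⟨t4, h⟩ := cnd h
  obtain ⟨t5, h⟩ := cnd h
  obtain ⟨t6, h⟩ := cnd h
  obtain ⟨t7, t8⟩ := cnd h
  have hkj1 : 1 ≤ kj1 := Nat.le_of_ble_eq_true h0
  have hkj1' : (0 : ℝ) < kj1 := by exact_mod_cast hkj1
  have hs' : 0 < 1 / s := by positivity
  have hkj2' : (0 : ℝ) < kj2 := by linarith
  have hkj2 : 1 ≤ kj2 := by exact_mod_cast hkj2'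
  have ha0 : 0 ≤ a := le_trans (by positivity) ha1
  have hb0 : 0 ≤ b := le_trans (by positivity) hb1
  have hs1 : s ≤ 28 / (kj1 : ℝ) := by
    rw [le_div_iff₀ hkj1']
    rw [div_le_div_iff₀ (by norm_num) hs] at hm1
    linarith
  have hs2 : 28 / (kj2 : ℝ) ≤ s := by
    rw [div_le_iff₀ hkj2']
    rw [div_le_div_iff₀ hs (by norm_num)] at hm2
    linarith
  exact s1_core hr (by positivity) (by positivity) hk1 hk2 ha0 ha1 ha2 (by linarith)
    (by linarith) (by linarith) hg (s1v_real t1 hkj1) (s1v_real t2 hkj1) (s1v_real t3 hkj1)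
    (s1v_real t4 hkj1) (s1v_real t5 hkj2) (s1v_real t6 hkj2) (s1v_real t7 hkj2)
    (s1v_real t8 hkj2)

/-! ## Tri -/

/-- `κ μ² (D - r²)` -/
private def Ft (c K M A B : ℝ) : ℝ :=
  M ^ 2 * A * (2 + K * A) + K * (1 + M * B) ^ 2 - 2 * c * (1 + K * A) * (1 + M * B) * M

/-- the diagonal, divided by `μ` -/
private def Fd (c M A B : ℝ) : ℝ :=
  M * A * (2 + M * A) + (1 + M * B) ^ 2 - 2 * c * (1 + M * A) * (1 + M * B)

private lemma trd_real {C K Ai Aj : ℕ} (h : trd C K Ai Aj = true) :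
    Fd ((C : ℝ) / 1000000) ((K : ℝ) / 28) ((Ai : ℝ) / 8) ((Aj : ℝ) / 8) < 0 := by
  have h1 := Nat.le_of_ble_eq_true h
  have h2 : (1000000 * (K * Ai * (448 + K * Ai) + (224 + K * Aj) * (224 + K * Aj))).succ ≤
      2 * C * ((224 + K * Ai) * (224 + K * Aj)) := h1
  have h3 : (1000000 * (K * Ai * (448 + K * Ai) + (224 + K * Aj) * (224 + K * Aj)) : ℝ) <
      2 * C * ((224 + K * Ai) * (224 + K * Aj)) := by
    exact_mod_cast Nat.lt_of_succ_le h2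
  have e : Fd ((C : ℝ) / 1000000) ((K : ℝ) / 28) ((Ai : ℝ) / 8) ((Aj : ℝ) / 8) =
      ((1000000 * (K * Ai * (448 + K * Ai) + (224 + K * Aj) * (224 + K * Aj)) : ℝ) -
      2 * C * ((224 + K * Ai) * (224 + K * Aj))) / (224 * 224 * 1000000) := by
    unfold Fd
    field_simp
    ring
  rw [e]
  exact div_neg_of_neg_of_pos (by linarith) (by norm_num)

private lemma tre_real {C k1 k2 Ai Aj : ℕ} (h : tre C k1 k2 Ai Aj = true) :
    Ft ((C : ℝ) / 1000000) ((k1 : ℝ) / 28) ((k2 : ℝ) / 28) ((Ai : ℝ) / 8) ((Aj : ℝ) / 8) < 0 := by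
  have h1 := Nat.le_of_ble_eq_true h
  have h2 : (1000000 * (k2 * k2 * Ai * (448 + k1 * Ai) +
      k1 * ((224 + k2 * Aj) * (224 + k2 * Aj)))).succ ≤
      2 * C * k2 * ((224 + k1 * Ai) * (224 + k2 * Aj)) := h1
  have h3 : (1000000 * (k2 * k2 * Ai * (448 + k1 * Ai) +
      k1 * ((224 + k2 * Aj) * (224 + k2 * Aj))) : ℝ) <
      2 * C * k2 * ((224 + k1 * Ai) * (224 + k2 * Aj)) := by
    exact_mod_cast Nat.lt_of_succ_le h2
  have e : Ft ((C : ℝ) / 1000000) ((k1 : ℝ) / 28) ((k2 : ℝ) / 28) ((Ai : ℝ) / 8)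
      ((Aj : ℝ) / 8) =
      ((1000000 * (k2 * k2 * Ai * (448 + k1 * Ai) +
      k1 * ((224 + k2 * Aj) * (224 + k2 * Aj))) : ℝ) -
      2 * C * k2 * ((224 + k1 * Ai) * (224 + k2 * Aj))) / (28 * 224 * 224 * 1000000) := by
    unfold Ft
    field_simp
    ring
  rw [e]
  exact div_neg_of_neg_of_pos (by linarith) (by norm_num)

private lemma tri_core {c K1 M2 A1 A2 B1 B2 r s a b g : ℝ} (hs : 0 < s) (hsr : s ≤ r)
    (hc0 : 0 < c) (hc1 : c ≤ 1) (hK0 : 0 ≤ K1) (hk1 : K1 ≤ 1 / r) (hm2 : 1 / s ≤ M2)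
    (ha0 : 0 ≤ a) (hb0 : 0 ≤ b)
    (ha1 : A1 ≤ a) (ha2 : a ≤ A2) (hb1 : B1 ≤ b) (hb2 : b ≤ B2) (hg : c ≤ g)
    (d1 : Fd c K1 A1 B1 < 0) (d2 : Fd c K1 A1 B2 < 0) (d3 : Fd c K1 A2 B1 < 0)
    (d4 : Fd c K1 A2 B2 < 0)
    (e1 : Fd c M2 A1 B1 < 0) (e2 : Fd c M2 A1 B2 < 0) (e3 : Fd c M2 A2 B1 < 0)
    (e4 : Fd c M2 A2 B2 < 0)
    (t1 : Ft c K1 M2 A1 B1 < 0) (t2 : Ft c K1 M2 A1 B2 < 0) (t3 : Ft c K1 M2 A2 B1 < 0)
    (t4 : Ft c K1 M2 A2 B2 < 0) :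
    (r + a) ^ 2 + (s + b) ^ 2 - 2 * g * (r + a) * (s + b) < r ^ 2 := by
  have hr : 0 < r := lt_of_lt_of_le hs hsr
  have hK : 0 < 1 / r := by positivity
  have hM : 0 < 1 / s := by positivity
  have hKM : 1 / r ≤ 1 / s := one_div_le_one_div_of_le hs hsr
  have hM2 : 0 < M2 := lt_of_lt_of_le hM hm2
  -- the diagonal: convex in the offsets
  have dB : ∀ M A : ℝ, Fd c M A B1 < 0 → Fd c M A B2 < 0 → Fd c M A b < 0 := by
    intro M A x1 x2
    unfold Fd at *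
    have := cvx (A := M ^ 2) (B := 2 * M - 2 * c * (1 + M * A) * M)
      (D := M * A * (2 + M * A) + 1 - 2 * c * (1 + M * A)) (sq_nonneg M) hb1 hb2
      (by linarith) (by linarith)
    linarith
  have dA : ∀ M : ℝ, Fd c M A1 b < 0 → Fd c M A2 b < 0 → Fd c M a b < 0 := by
    intro M x1 x2
    unfold Fd at *
    have := cvx (A := M ^ 2) (B := 2 * M - 2 * c * M * (1 + M * b))
      (D := (1 + M * b) ^ 2 - 2 * c * (1 + M * b)) (sq_nonneg M) ha1 ha2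
      (by linarith) (by linarith)
    linarith
  have D1 : Fd c K1 a b < 0 := dA _ (dB _ _ d1 d2) (dB _ _ d3 d4)
  have D2 : Fd c M2 a b < 0 := dA _ (dB _ _ e1 e2) (dB _ _ e3 e4)
  have hab : 0 ≤ a ^ 2 + b ^ 2 - 2 * c * a * b := by
    have h1 : c * (a * b) ≤ 1 * (a * b) := mul_le_mul_of_nonneg_right hc1 (mul_nonneg ha0 hb0)
    have h2 := sq_nonneg (a - b)
    linarith
  have D3 : ∀ M : ℝ, K1 ≤ M → M ≤ M2 → Fd c M a b < 0 := by
    intro M x1 x2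
    unfold Fd at *
    have := cvx (A := a ^ 2 + b ^ 2 - 2 * c * a * b) (B := 2 * a + 2 * b - 2 * c * (a + b))
      (D := 1 - 2 * c) hab x1 x2 (by linarith) (by linarith)
    linarith
  -- off the diagonal
  have tB : ∀ A : ℝ, Ft c K1 M2 A B1 < 0 → Ft c K1 M2 A B2 < 0 → Ft c K1 M2 A b < 0 := by
    intro A x1 x2
    unfold Ft at *
    have := cvx (A := K1 * M2 ^ 2) (B := 2 * K1 * M2 - 2 * c * (1 + K1 * A) * M2 ^ 2)
      (D := M2 ^ 2 * A * (2 + K1 * A) + K1 - 2 * c * (1 + K1 * A) * M2)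
      (by positivity) hb1 hb2 (by linarith) (by linarith)
    linarith
  have tA : Ft c K1 M2 A1 b < 0 → Ft c K1 M2 A2 b < 0 → Ft c K1 M2 a b < 0 := by
    intro x1 x2
    unfold Ft at *
    have := cvx (A := M2 ^ 2 * K1) (B := 2 * M2 ^ 2 - 2 * c * K1 * (1 + M2 * b) * M2)
      (D := K1 * (1 + M2 * b) ^ 2 - 2 * c * (1 + M2 * b) * M2)
      (by positivity) ha1 ha2 (by linarith) (by linarith)
    linarith
  have T1 : Ft c K1 M2 a b < 0 := tA (tB _ t1 t2) (tB _ t3 t4)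
  have T2 : Ft c K1 (1 / s) a b < 0 := by
    generalize 1 / s = M at *
    rcases eq_or_lt_of_le hK0 with h0 | h0
    · subst h0
      unfold Ft at *
      have x1 : 0 * (0 : ℝ) ^ 2 + (2 * a - 2 * c * b) * 0 + (-(2 * c)) < 0 := by linarith
      have x2 : 0 * M2 ^ 2 + (2 * a - 2 * c * b) * M2 + (-(2 * c)) < 0 := by
        by_contra hx
        push Not at hx
        have := mul_nonneg hM2.le hx
        linarith
      have x3 := cvx le_rfl hM.le hm2 x1 x2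
      have x4 := mul_neg_of_pos_of_neg hM x3
      linarith
    · have x1 : a * (2 + K1 * a) + K1 * (1 / K1 + b) ^ 2 -
          2 * c * (1 + K1 * a) * (1 / K1 + b) < 0 := by
        have e : a * (2 + K1 * a) + K1 * (1 / K1 + b) ^ 2 -
            2 * c * (1 + K1 * a) * (1 / K1 + b) = Fd c K1 a b / K1 := by
          unfold Fd
          field_simp
        rw [e]
        exact div_neg_of_neg_of_pos D1 h0
      have x2 : a * (2 + K1 * a) + K1 * (1 / M2 + b) ^ 2 -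
          2 * c * (1 + K1 * a) * (1 / M2 + b) < 0 := by
        have e : a * (2 + K1 * a) + K1 * (1 / M2 + b) ^ 2 -
            2 * c * (1 + K1 * a) * (1 / M2 + b) = Ft c K1 M2 a b / M2 ^ 2 := by
          unfold Ft
          field_simp
        rw [e]
        exact div_neg_of_neg_of_pos T1 (by positivity)
      have y1 : 1 / M + b ≤ 1 / K1 + b := by
        have := one_div_le_one_div_of_le h0 (hk1.trans hKM)
        linarith
      have y2 : 1 / M2 + b ≤ 1 / M + b := by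
        have := one_div_le_one_div_of_le hM hm2
        linarith
      have x3 := cvx (A := K1) (B := - (2 * c * (1 + K1 * a))) (D := a * (2 + K1 * a)) hK0
        y2 y1 (by linarith) (by linarith)
      have x4 : M ^ 2 * (K1 * (1 / M + b) ^ 2 + -(2 * c * (1 + K1 * a)) * (1 / M + b) +
          a * (2 + K1 * a)) < 0 := mul_neg_of_pos_of_neg (by positivity) x3
      have e : M ^ 2 * (K1 * (1 / M + b) ^ 2 + -(2 * c * (1 + K1 * a)) * (1 / M + b) +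
          a * (2 + K1 * a)) = Ft c K1 M a b := by
        unfold Ft
        field_simp
        ring
      rw [e] at x4
      exact x4
  have T3 : Ft c (1 / s) (1 / s) a b < 0 := by
    have e : Ft c (1 / s) (1 / s) a b = (1 / s) * Fd c (1 / s) a b := by
      unfold Ft Fd
      ring
    rw [e]
    exact mul_neg_of_pos_of_neg hM (D3 _ (hk1.trans hKM) hm2)
  have T4 : Ft c (1 / r) (1 / s) a b < 0 := by
    generalize 1 / s = M at *
    unfold Ft at *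
    have := cvx (A := 0)
      (B := M ^ 2 * a ^ 2 + (1 + M * b) ^ 2 - 2 * c * a * (1 + M * b) * M)
      (D := 2 * M ^ 2 * a - 2 * c * (1 + M * b) * M) le_rfl hk1 hKM
      (by linarith) (by linarith)
    linarith
  have w4 : r * s ^ 2 * Ft c (1 / r) (1 / s) a b < 0 := mul_neg_of_pos_of_neg (by positivity) T4
  have w5 : r * s ^ 2 * Ft c (1 / r) (1 / s) a b =
      (r + a) ^ 2 + (s + b) ^ 2 - 2 * c * (r + a) * (s + b) - r ^ 2 := by
    unfold Ft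
    field_simp
    ring
  rw [w5] at w4
  have w6 : 0 ≤ (g - c) * ((r + a) * (s + b)) :=
    mul_nonneg (by linarith) (mul_nonneg (by linarith) (by linarith))
  linarith

theorem tri_sound {C k1 k2 ai1 ai2 aj1 aj2 : ℕ} (h : tri C k1 k2 ai1 ai2 aj1 aj2 = true)
    (hC : C ≤ 1000000) (hC0 : 1 ≤ C)
    {r s a b g : ℝ} (hs : 0 < s) (hsr : s ≤ r)
    (hk1 : (k1 : ℝ) / 28 ≤ 1 / r) (hm2 : 1 / s ≤ (k2 : ℝ) / 28)
    (ha1 : (ai1 : ℝ) / 8 ≤ a) (ha2 : a ≤ (ai2 : ℝ) / 8)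
    (hb1 : (aj1 : ℝ) / 8 ≤ b) (hb2 : b ≤ (aj2 : ℝ) / 8)
    (hg : (C : ℝ) / 1000000 ≤ g) :
    (r + a) ^ 2 + (s + b) ^ 2 - 2 * g * (r + a) * (s + b) < r ^ 2 := by
  obtain ⟨p1, h⟩ := cnd h
  obtain ⟨p2, h⟩ := cnd h
  obtain ⟨p3, p4⟩ := cnd h
  obtain ⟨q1, p1⟩ := cnd p1
  obtain ⟨q1', q1''⟩ := cnd p1
  obtain ⟨q2, p2⟩ := cnd p2
  obtain ⟨q2', q2''⟩ := cnd p2
  obtain ⟨q3, p3⟩ := cnd p3
  obtain ⟨q3', q3''⟩ := cnd p3
  obtain ⟨q4, p4⟩ := cnd p4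
  obtain ⟨q4', q4''⟩ := cnd p4
  have hc0 : (0 : ℝ) < (C : ℝ) / 1000000 := by
    have : (0 : ℝ) < C := by exact_mod_cast hC0
    positivity
  have hc1 : (C : ℝ) / 1000000 ≤ 1 := by
    have : (C : ℝ) ≤ 1000000 := by exact_mod_cast hC
    rw [div_le_one (by norm_num)]
    exact this
  exact tri_core hs hsr hc0 hc1 (by positivity) hk1 hm2 (le_trans (by positivity) ha1)
    (le_trans (by positivity) hb1) ha1 ha2 hb1 hb2 hg (trd_real q1) (trd_real q2)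
    (trd_real q3) (trd_real q4) (trd_real q1') (trd_real q2') (trd_real q3') (trd_real q4')
    (tre_real q1'') (tre_real q2'') (tre_real q3'') (tre_real q4'')

/-! ## Opp -/

private def Fo (c K M A B : ℝ) : ℝ :=
  M * A * (2 + K * A) + K * B * (2 + M * B) - 2 + 2 * c * (1 + K * A) * (1 + M * B)

private lemma opv_real {C Ki Kj Ai Aj : ℕ} (h : opv C Ki Kj Ai Aj = true) :
    0 ≤ Fo ((C : ℝ) / 1000000) ((Ki : ℝ) / 28) ((Kj : ℝ) / 28) ((Ai : ℝ) / 8) ((Aj : ℝ) / 8) := by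
  have h1 := Nat.le_of_ble_eq_true h
  have h2 : 100352000000 ≤ 1000000 * (Kj * Ai * (448 + Ki * Ai) + Ki * Aj * (448 + Kj * Aj)) +
      2 * C * ((224 + Ki * Ai) * (224 + Kj * Aj)) := h1
  have h3 : (100352000000 : ℝ) ≤ 1000000 * (Kj * Ai * (448 + Ki * Ai) +
      Ki * Aj * (448 + Kj * Aj)) + 2 * C * ((224 + Ki * Ai) * (224 + Kj * Aj)) := by
    exact_mod_cast h2
  have e : Fo ((C : ℝ) / 1000000) ((Ki : ℝ) / 28) ((Kj : ℝ) / 28) ((Ai : ℝ) / 8) ((Aj : ℝ) / 8) =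
      ((1000000 * (Kj * Ai * (448 + Ki * Ai) + Ki * Aj * (448 + Kj * Aj)) +
      2 * C * ((224 + Ki * Ai) * (224 + Kj * Aj)) : ℝ) - 100352000000) / (224 * 224 * 1000000) := by
    unfold Fo
    field_simp
    ring
  rw [e]
  exact div_nonneg (by linarith) (by norm_num)

/-- affine functions -/
private lemma aff {B D p q x : ℝ} (hp : p ≤ x) (hq : x ≤ q)
    (h1 : 0 ≤ B * p + D) (h2 : 0 ≤ B * q + D) : 0 ≤ B * x + D := by
  rcases le_total 0 B with hB | hB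
  · have := mul_le_mul_of_nonneg_left hp hB
    linarith
  · have := mul_le_mul_of_nonpos_left hq hB
    linarith

theorem opp_sound {C ki1 ki2 ai1 kj1 kj2 aj1 : ℕ} (h : opp C ki1 ki2 ai1 kj1 kj2 aj1 = true)
    {r s a b g : ℝ} (hr : 0 < r) (hs : 0 < s)
    (hk1 : (ki1 : ℝ) / 28 ≤ 1 / r) (hk2 : 1 / r ≤ (ki2 : ℝ) / 28) (ha1 : (ai1 : ℝ) / 8 ≤ a)
    (hm1 : (kj1 : ℝ) / 28 ≤ 1 / s) (hm2 : 1 / s ≤ (kj2 : ℝ) / 28) (hb1 : (aj1 : ℝ) / 8 ≤ b)
    (hg : g ≤ -((C : ℝ) / 1000000)) :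
    (r + s) ^ 2 ≤ (r + a) ^ 2 + (s + b) ^ 2 - 2 * g * (r + a) * (s + b) := by
  obtain ⟨t1, h⟩ := cnd h
  obtain ⟨t2, h⟩ := cnd h
  obtain ⟨t3, t4⟩ := cnd h
  have u1 := opv_real t1
  have u2 := opv_real t2
  have u3 := opv_real t3
  have u4 := opv_real t4
  have hA0 : (0 : ℝ) ≤ (ai1 : ℝ) / 8 := by positivity
  have hB0 : (0 : ℝ) ≤ (aj1 : ℝ) / 8 := by positivity
  have hc0 : (0 : ℝ) ≤ (C : ℝ) / 1000000 := by positivity
  have hK0 : (0 : ℝ) ≤ 1 / r := by positivity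
  have hM0 : (0 : ℝ) ≤ 1 / s := by positivity
  -- bilinear in the curvatures
  have cM : ∀ K A B c : ℝ, 0 ≤ Fo c K ((kj1 : ℝ) / 28) A B → 0 ≤ Fo c K ((kj2 : ℝ) / 28) A B →
      0 ≤ Fo c K (1 / s) A B := by
    intro K A B c x1 x2
    unfold Fo at *
    have := aff (B := A * (2 + K * A) + K * B ^ 2 + 2 * c * (1 + K * A) * B)
      (D := 2 * K * B - 2 + 2 * c * (1 + K * A)) hm1 hm2 (by linarith) (by linarith)
    linarith
  have v1 := cM _ _ _ _ u1 u2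
  have v2 := cM _ _ _ _ u3 u4
  have w : 0 ≤ Fo ((C : ℝ) / 1000000) (1 / r) (1 / s) ((ai1 : ℝ) / 8) ((aj1 : ℝ) / 8) := by
    generalize (C : ℝ) / 1000000 = c at v1 v2 ⊢
    generalize (ai1 : ℝ) / 8 = A at v1 v2 ⊢
    generalize (aj1 : ℝ) / 8 = B at v1 v2 ⊢
    generalize 1 / s = M at v1 v2 ⊢
    unfold Fo at *
    have := aff (B := M * A ^ 2 + B * (2 + M * B) + 2 * c * A * (1 + M * B))
      (D := 2 * M * A - 2 + 2 * c * (1 + M * B)) hk1 hk2 (by linarith) (by linarith)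
    linarith
  have hA : 0 ≤ a := hA0.trans ha1
  have hB : 0 ≤ b := hB0.trans hb1
  -- monotone in the offsets and the cosine
  have w2 : 0 ≤ Fo (-g) (1 / r) (1 / s) a b := by
    refine w.trans ?_
    unfold Fo
    have h1 : (ai1 : ℝ) / 8 * (2 + 1 / r * ((ai1 : ℝ) / 8)) ≤ a * (2 + 1 / r * a) := by
      apply mul_le_mul ha1 _ (by positivity) hA
      have := mul_le_mul_of_nonneg_left ha1 hK0
      linarith
    have h2 : (aj1 : ℝ) / 8 * (2 + 1 / s * ((aj1 : ℝ) / 8)) ≤ b * (2 + 1 / s * b) := by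
      apply mul_le_mul hb1 _ (by positivity) hB
      have := mul_le_mul_of_nonneg_left hb1 hM0
      linarith
    have h3 := mul_le_mul_of_nonneg_left h1 hM0
    have h4 := mul_le_mul_of_nonneg_left h2 hK0
    have h5 : 2 * ((C : ℝ) / 1000000) * (1 + 1 / r * ((ai1 : ℝ) / 8)) *
        (1 + 1 / s * ((aj1 : ℝ) / 8)) ≤ 2 * (-g) * (1 + 1 / r * a) * (1 + 1 / s * b) := by
      have h6 := mul_le_mul_of_nonneg_left ha1 hK0
      have h7 := mul_le_mul_of_nonneg_left hb1 hM0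
      have h8 : (0 : ℝ) ≤ 1 / r * a := mul_nonneg hK0 hA
      apply mul_le_mul (mul_le_mul (by linarith) (by linarith) (by positivity) (by linarith))
        (by linarith) (by positivity)
      exact mul_nonneg (by linarith) (by linarith)
    linarith
  have w3 := mul_nonneg (mul_nonneg hr.le hs.le) w2
  have e : r * s * Fo (-g) (1 / r) (1 / s) a b =
      (r + a) ^ 2 + (s + b) ^ 2 - 2 * g * (r + a) * (s + b) - (r + s) ^ 2 := by
    unfold Fo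
    field_simp
    ring
  rw [e] at w3
  linarith

end SigK
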