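import Mathlib

set_option autoImplicit false

namespace SigK

/-! ## D1: cosine table -/

/-- lower bounds of `10^6 cos (k π / 48)` -/
def cosL : List ℕ :=
  [1000000, 997858, 991444, 980785, 965925, 946930, 923879, 896872, 866025, 831469, 793353, 751839,
   707106, 659345, 608761, 555570, 499999, 442288, 382683, 321439, 258819, 195090, 130526, 65403, 0]

private lemma d1_half {x l u L U : ℝ} (hU : 0 ≤ U) (hx : 0 ≤ Real.cos x)
    (h1 : l ≤ Real.cos (2 * x)) (h2 : Real.cos (2 * x) ≤ u)
    (h3 : L ^ 2 ≤ 1 / 2 + l / 2) (h4 : 1 / 2 + u / 2 ≤ U ^ 2) :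
    L ≤ Real.cos x ∧ Real.cos x ≤ U := by
  have h5 := Real.cos_sq x
  constructor
  · exact le_of_sq_le_sq (by rw [h5]; linarith) hx
  · exact le_of_sq_le_sq (by rw [h5]; linarith) hU

private lemma d1_step {x a b l u m n l' u' : ℝ} {k : ℕ} (hL : 0 ≤ a) (hl : 0 ≤ l)
    (h1 : a ≤ Real.cos x ∧ Real.cos x ≤ b)
    (h2 : l ≤ Real.cos ((k + 1 : ℕ) * x) ∧ Real.cos ((k + 1 : ℕ) * x) ≤ u)
    (h3 : m ≤ Real.cos ((k : ℕ) * x) ∧ Real.cos ((k : ℕ) * x) ≤ n)
    (h4 : l' ≤ 2 * a * l - n) (h5 : 2 * b * u - m ≤ u') :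
    l' ≤ Real.cos ((k + 2 : ℕ) * x) ∧ Real.cos ((k + 2 : ℕ) * x) ≤ u' := by
  have e : Real.cos ((k + 2 : ℕ) * x) =
      2 * Real.cos x * Real.cos ((k + 1 : ℕ) * x) - Real.cos ((k : ℕ) * x) := by
    have e1 : ((k + 2 : ℕ) : ℝ) * x = (k + 1 : ℕ) * x + x := by push_cast; ring
    have e2 : ((k : ℕ) : ℝ) * x = (k + 1 : ℕ) * x - x := by push_cast; ring
    rw [e1, e2, Real.cos_add, Real.cos_sub]
    ring
  rw [e]
  have f1 : a * l ≤ Real.cos x * Real.cos ((k + 1 : ℕ) * x) :=
    mul_le_mul h1.1 h2.1 hl (hL.trans h1.1)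
  have f2 : Real.cos x * Real.cos ((k + 1 : ℕ) * x) ≤ b * u :=
    mul_le_mul h1.2 h2.2 (hl.trans h2.1) (hL.trans (h1.1.trans h1.2))
  constructor
  · linarith [h3.2]
  · linarith [h3.1]

theorem cosL_le (k : ℕ) (hk : k ≤ 24) :
    ((cosL.getD k 0 : ℕ) : ℝ) / 1000000 ≤ Real.cos (k * (Real.pi / 48)) := by
  have hpi := Real.pi_pos
  have s1 : (86602540378443864676 / 100000000000000000000 : ℝ) ≤ Real.cos (2 * (Real.pi / 12)) ∧
      Real.cos (2 * (Real.pi / 12)) ≤ 86602540378443864677 / 100000000000000000000 := by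
    have e : 2 * (Real.pi / 12) = Real.pi / 6 := by ring
    rw [e, Real.cos_pi_div_six]
    constructor
    · have h := Real.le_sqrt' (x := 2 * (86602540378443864676 / 100000000000000000000)) (y := 3) (by norm_num)
      have h1 := h.2 (by norm_num)
      linarith
    · have h := Real.sqrt_le_left (x := 3) (y := 2 * (86602540378443864677 / 100000000000000000000)) (by norm_num)
      have h1 := h.2 (by norm_num)
      linarith
  have c12 : (96592582628906828674 / 100000000000000000000 : ℝ) ≤ Real.cos (Real.pi / 12) ∧ Real.cos (Real.pi / 12) ≤ 96592582628906828676 / 100000000000000000000 :=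
    d1_half (by norm_num)
      (Real.cos_nonneg_of_neg_pi_div_two_le_of_le (by linarith) (by linarith)) s1.1 s1.2
      (by norm_num) (by norm_num)
  have s2 : (96592582628906828674 / 100000000000000000000 : ℝ) ≤ Real.cos (2 * (Real.pi / 24)) ∧
      Real.cos (2 * (Real.pi / 24)) ≤ 96592582628906828676 / 100000000000000000000 := by
    have e : 2 * (Real.pi / 24) = Real.pi / 12 := by ring
    rw [e]
    exact c12
  have c24 : (99144486137381041114 / 100000000000000000000 : ℝ) ≤ Real.cos (Real.pi / 24) ∧ Real.cos (Real.pi / 24) ≤ 99144486137381041115 / 100000000000000000000 :=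
    d1_half (by norm_num)
      (Real.cos_nonneg_of_neg_pi_div_two_le_of_le (by linarith) (by linarith)) s2.1 s2.2
      (by norm_num) (by norm_num)
  have s3 : (99144486137381041114 / 100000000000000000000 : ℝ) ≤ Real.cos (2 * (Real.pi / 48)) ∧
      Real.cos (2 * (Real.pi / 48)) ≤ 99144486137381041115 / 100000000000000000000 := by
    have e : 2 * (Real.pi / 48) = Real.pi / 24 := by ring
    rw [e]
    exact c24
  have c48 : (99785892323860350673 / 100000000000000000000 : ℝ) ≤ Real.cos (Real.pi / 48) ∧ Real.cos (Real.pi / 48) ≤ 99785892323860350674 / 100000000000000000000 :=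
    d1_half (by norm_num)
      (Real.cos_nonneg_of_neg_pi_div_two_le_of_le (by linarith) (by linarith)) s3.1 s3.2
      (by norm_num) (by norm_num)
  have b0 : (1 : ℝ) ≤ Real.cos ((0 : ℕ) * (Real.pi / 48)) ∧
      Real.cos ((0 : ℕ) * (Real.pi / 48)) ≤ 1 := by
    rw [Nat.cast_zero, zero_mul, Real.cos_zero]
    exact ⟨le_refl _, le_refl _⟩
  have b1 : (99785892323860350673 / 100000000000000000000 : ℝ) ≤ Real.cos ((1 : ℕ) * (Real.pi / 48)) ∧
      Real.cos ((1 : ℕ) * (Real.pi / 48)) ≤ 99785892323860350674 / 100000000000000000000 := by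
    rw [Nat.cast_one, one_mul]
    exact c48
  have b2 : (99144486137381041111 / 100000000000000000000 : ℝ) ≤ Real.cos ((2 : ℕ) * (Real.pi / 48)) ∧
      Real.cos ((2 : ℕ) * (Real.pi / 48)) ≤ 99144486137381041116 / 100000000000000000000 :=
    d1_step (k := 0) (by norm_num) (by norm_num) c48 b1 b0 (by norm_num) (by norm_num)
  have b3 : (98078528040323044903 / 100000000000000000000 : ℝ) ≤ Real.cos ((3 : ℕ) * (Real.pi / 48)) ∧
      Real.cos ((3 : ℕ) * (Real.pi / 48)) ≤ 98078528040323044917 / 100000000000000000000 :=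
    d1_step (k := 1) (by norm_num) (by norm_num) c48 b2 b1 (by norm_num) (by norm_num)
  have b4 : (96592582628906828652 / 100000000000000000000 : ℝ) ≤ Real.cos ((4 : ℕ) * (Real.pi / 48)) ∧
      Real.cos ((4 : ℕ) * (Real.pi / 48)) ≤ 96592582628906828688 / 100000000000000000000 :=
    d1_step (k := 2) (by norm_num) (by norm_num) c48 b3 b2 (by norm_num) (by norm_num)
  have b5 : (94693012949510566373 / 100000000000000000000 : ℝ) ≤ Real.cos ((5 : ℕ) * (Real.pi / 48)) ∧
      Real.cos ((5 : ℕ) * (Real.pi / 48)) ≤ 94693012949510566462 / 100000000000000000000 :=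
    d1_step (k := 3) (by norm_num) (by norm_num) c48 b4 b3 (by norm_num) (by norm_num)
  have b6 : (92387953251128675493 / 100000000000000000000 : ℝ) ≤ Real.cos ((6 : ℕ) * (Real.pi / 48)) ∧
      Real.cos ((6 : ℕ) * (Real.pi / 48)) ≤ 92387953251128675709 / 100000000000000000000 :=
    d1_step (k := 4) (by norm_num) (by norm_num) c48 b5 b4 (by norm_num) (by norm_num)
  have b7 : (89687274153268830112 / 100000000000000000000 : ℝ) ≤ Real.cos ((7 : ℕ) * (Real.pi / 48)) ∧
      Real.cos ((7 : ℕ) * (Real.pi / 48)) ≤ 89687274153268830635 / 100000000000000000000 :=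
    d1_step (k := 5) (by norm_num) (by norm_num) c48 b6 b5 (by norm_num) (by norm_num)
  have b8 : (86602540378443864025 / 100000000000000000000 : ℝ) ≤ Real.cos ((8 : ℕ) * (Real.pi / 48)) ∧
      Real.cos ((8 : ℕ) * (Real.pi / 48)) ≤ 86602540378443865287 / 100000000000000000000 :=
    d1_step (k := 6) (by norm_num) (by norm_num) c48 b7 b6 (by norm_num) (by norm_num)
  have b9 : (83146961230254522160 / 100000000000000000000 : ℝ) ≤ Real.cos ((9 : ℕ) * (Real.pi / 48)) ∧
      Real.cos ((9 : ℕ) * (Real.pi / 48)) ≤ 83146961230254525205 / 100000000000000000000 :=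
    d1_step (k := 7) (by norm_num) (by norm_num) c48 b8 b7 (by norm_num) (by norm_num)
  have b10 : (79335334029123512756 / 100000000000000000000 : ℝ) ≤ Real.cos ((10 : ℕ) * (Real.pi / 48)) ∧
      Real.cos ((10 : ℕ) * (Real.pi / 48)) ≤ 79335334029123520098 / 100000000000000000000 :=
    d1_step (k := 8) (by norm_num) (by norm_num) c48 b9 b8 (by norm_num) (by norm_num)
  have b11 : (75183980747897730754 / 100000000000000000000 : ℝ) ≤ Real.cos ((11 : ℕ) * (Real.pi / 48)) ∧
      Real.cos ((11 : ℕ) * (Real.pi / 48)) ≤ 75183980747897748454 / 100000000000000000000 :=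
    d1_step (k := 9) (by norm_num) (by norm_num) c48 b10 b9 (by norm_num) (by norm_num)
  have b12 : (70710678118654731063 / 100000000000000000000 : ℝ) ≤ Real.cos ((12 : ℕ) * (Real.pi / 48)) ∧
      Real.cos ((12 : ℕ) * (Real.pi / 48)) ≤ 70710678118654773732 / 100000000000000000000 :=
    d1_step (k := 10) (by norm_num) (by norm_num) c48 b11 b10 (by norm_num) (by norm_num)
  have b13 : (65934581510006835365 / 100000000000000000000 : ℝ) ≤ Real.cos ((13 : ℕ) * (Real.pi / 48)) ∧
      Real.cos ((13 : ℕ) * (Real.pi / 48)) ≤ 65934581510006938223 / 100000000000000000000 :=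
    d1_step (k := 11) (by norm_num) (by norm_num) c48 b12 b11 (by norm_num) (by norm_num)
  have b14 : (60876142900871939914 / 100000000000000000000 : ℝ) ≤ Real.cos ((14 : ℕ) * (Real.pi / 48)) ∧
      Real.cos ((14 : ℕ) * (Real.pi / 48)) ≤ 60876142900872187860 / 100000000000000000000 :=
    d1_step (k := 12) (by norm_num) (by norm_num) c48 b13 b12 (by norm_num) (by norm_num)
  have b15 : (55557023301959923568 / 100000000000000000000 : ℝ) ≤ Real.cos ((15 : ℕ) * (Real.pi / 48)) ∧
      Real.cos ((15 : ℕ) * (Real.pi / 48)) ≤ 55557023301960521259 / 100000000000000000000 :=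
    d1_step (k := 13) (by norm_num) (by norm_num) c48 b14 b13 (by norm_num) (by norm_num)
  have b16 : (49999999999999279548 / 100000000000000000000 : ℝ) ≤ Real.cos ((16 : ℕ) * (Real.pi / 48)) ∧
      Real.cos ((16 : ℕ) * (Real.pi / 48)) ≤ 50000000000000720318 / 100000000000000000000 :=
    d1_step (k := 14) (by norm_num) (by norm_num) c48 b15 b14 (by norm_num) (by norm_num)
  have b17 : (44228869021898391595 / 100000000000000000000 : ℝ) ≤ Real.cos ((17 : ℕ) * (Real.pi / 48)) ∧
      Real.cos ((17 : ℕ) * (Real.pi / 48)) ≤ 44228869021901864658 / 100000000000000000000 :=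
    d1_step (k := 15) (by norm_num) (by norm_num) c48 b16 b15 (by norm_num) (by norm_num)
  have b18 : (38268343236504791081 / 100000000000000000000 : ℝ) ≤ Real.cos ((18 : ℕ) * (Real.pi / 48)) ∧
      Real.cos ((18 : ℕ) * (Real.pi / 48)) ≤ 38268343236513163107 / 100000000000000000000 :=
    d1_step (k := 16) (by norm_num) (by norm_num) c48 b17 b16 (by norm_num) (by norm_num)
  have b19 : (32143946530306067352 / 100000000000000000000 : ℝ) ≤ Real.cos ((19 : ℕ) * (Real.pi / 48)) ∧
      Real.cos ((19 : ℕ) * (Real.pi / 48)) ≤ 32143946530326248619 / 100000000000000000000 :=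
    d1_step (k := 17) (by norm_num) (by norm_num) c48 b18 b17 (by norm_num) (by norm_num)
  have b20 : (25881904510227752074 / 100000000000000000000 : ℝ) ≤ Real.cos ((20 : ℕ) * (Real.pi / 48)) ∧
      Real.cos ((20 : ℕ) * (Real.pi / 48)) ≤ 25881904510276400216 / 100000000000000000000 :=
    d1_step (k := 18) (by norm_num) (by norm_num) c48 b19 b18 (by norm_num) (by norm_num)
  have b21 : (19509032201554192073 / 100000000000000000000 : ℝ) ≤ Real.cos ((21 : ℕ) * (Real.pi / 48)) ∧
      Real.cos ((21 : ℕ) * (Real.pi / 48)) ≤ 19509032201671461307 / 100000000000000000000 :=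
    d1_step (k := 19) (by norm_num) (by norm_num) c48 b20 b19 (by norm_num) (by norm_num)
  have b22 : (13052619221863816832 / 100000000000000000000 : ℝ) ≤ Real.cos ((22 : ℕ) * (Real.pi / 48)) ∧
      Real.cos ((22 : ℕ) * (Real.pi / 48)) ≤ 13052619222146501279 / 100000000000000000000 :=
    d1_step (k := 20) (by norm_num) (by norm_num) c48 b21 b20 (by norm_num) (by norm_num)
  have b23 : (6540312922673592762 / 100000000000000000000 : ℝ) ≤ Real.cos ((23 : ℕ) * (Real.pi / 48)) ∧
      Real.cos ((23 : ℕ) * (Real.pi / 48)) ≤ 6540312923355020394 / 100000000000000000000 :=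
    d1_step (k := 21) (by norm_num) (by norm_num) c48 b22 b21 (by norm_num) (by norm_num)
  have hk' : k < 25 := by omega
  interval_cases k
  · refine le_trans ?_ b0.1
    norm_num [cosL]
  · refine le_trans ?_ b1.1
    norm_num [cosL]
  · refine le_trans ?_ b2.1
    norm_num [cosL]
  · refine le_trans ?_ b3.1
    norm_num [cosL]
  · refine le_trans ?_ b4.1
    norm_num [cosL]
  · refine le_trans ?_ b5.1
    norm_num [cosL]
  · refine le_trans ?_ b6.1
    norm_num [cosL]
  · refine le_trans ?_ b7.1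
    norm_num [cosL]
  · refine le_trans ?_ b8.1
    norm_num [cosL]
  · refine le_trans ?_ b9.1
    norm_num [cosL]
  · refine le_trans ?_ b10.1
    norm_num [cosL]
  · refine le_trans ?_ b11.1
    norm_num [cosL]
  · refine le_trans ?_ b12.1
    norm_num [cosL]
  · refine le_trans ?_ b13.1
    norm_num [cosL]
  · refine le_trans ?_ b14.1
    norm_num [cosL]
  · refine le_trans ?_ b15.1
    norm_num [cosL]
  · refine le_trans ?_ b16.1
    norm_num [cosL]
  · refine le_trans ?_ b17.1
    norm_num [cosL]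
  · refine le_trans ?_ b18.1
    norm_num [cosL]
  · refine le_trans ?_ b19.1
    norm_num [cosL]
  · refine le_trans ?_ b20.1
    norm_num [cosL]
  · refine le_trans ?_ b21.1
    norm_num [cosL]
  · refine le_trans ?_ b22.1
    norm_num [cosL]
  · refine le_trans ?_ b23.1
    norm_num [cosL]
  · have e : ((24 : ℕ) : ℝ) * (Real.pi / 48) = Real.pi / 2 := by push_cast; ring
    rw [e, Real.cos_pi_div_two]
    norm_num [cosL]

end SigK
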