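import Pool.Agent.SigK.Geo
import Pool.Agent.SigK.Ang
import Pool.Agent.SigK.Chk
import Pool.Agent.SigK.Trig

/-!
# Two discs in cells are adjacent cells
-/

namespace SigK

/-- the disc with centre `x` and radius `r` belongs to the class `c` and the sector `t` -/
structure InCell (x : ℂ) (r : ℝ) (c t : ℕ) : Prop where
  hr : 1 ≤ r
  hx : r ≤ ‖x‖
  hk1 : (k1 kbT.get c : ℝ) / 28 ≤ 1 / r
  hk2 : 1 / r ≤ (k2 kbT.get c : ℝ) / 28
  ha1 : (a1 c : ℝ) / 8 ≤ ‖x‖ - r
  ha2 : ‖x‖ - r ≤ (a2 c : ℝ) / 8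
  hs : InSec x t
  ht : t < 96

theorem csT_eq (k : ℕ) (hk : k ≤ 24) : csT.get k = cosL.getD k 0 := by
  have h : allLt (fun k => Nat.beq (csT.get k) (cosL.getD k 0)) 25 = true := by decide +kernel
  exact (beq_iff _ _).mp (allLt_spec h k (by omega))

theorem csT_le (k : ℕ) (hk : k ≤ 24) :
    ((csT.get k : ℕ) : ℝ) / 1000000 ≤ Real.cos (k * (Real.pi / 48)) := by
  rw [csT_eq k hk]; exact cosL_le k hk

theorem csT_range (k : ℕ) (hk : k ≤ 24) : csT.get k ≤ 1000000 ∧ (k ≤ 23 → 1 ≤ csT.get k) := by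
  have h : allLt (fun k => cond (Nat.ble (csT.get k) 1000000)
    (cond (Nat.ble k 23) (Nat.ble 1 (csT.get k)) true) false) 25 = true := by decide +kernel
  have h1 := cond_and (allLt_spec h k (by omega))
  exact ⟨(ble_iff _ _).mp h1.1, fun h2 => (ble_iff _ _).mp (cond_imp h1.2 ((ble_iff _ _).mpr h2))⟩

/-- no entry of the table is 24 in its first component -/
theorem ent_le (c e : ℕ) (hc : c < 89) (he : e < 88) : Nat.mod (ent dtT.get c e) 64 ≤ 23 := by
  have h : allLt (fun c => allLt (fun e => Nat.ble (Nat.mod (ent dtT.get c e) 64) 23) 88) 89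
    = true := by decide +kernel
  exact (ble_iff _ _).mp (allLt_spec (allLt_spec h c hc) e he)

/-- the curvature boxes which are used in `s1` for the higher level are bounded -/
theorem pair_tau {x y : ℂ} {r s : ℝ} {c e t t' : ℕ} (hx : InCell x r c t) (hy : InCell y s e t')
    (hc : c < 89) (he : e < 88) (h1 : r ≤ ‖x - y‖) (h2 : s ≤ ‖x - y‖) (h3 : ‖x - y‖ < r + s) :
    Nat.mod (ent dtT.get c e) 64 ≤ circ (96 - t + t') ∧
      circ (96 - t + t') ≤ Nat.div (ent dtT.get c e) 64 := by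
  have hr0 : 0 < r := lt_of_lt_of_le one_pos hx.hr
  have hs0 : 0 < s := lt_of_lt_of_le one_pos hy.hr
  have hxn : 0 < ‖x‖ := lt_of_lt_of_le hr0 hx.hx
  have hyn : 0 < ‖y‖ := lt_of_lt_of_le hs0 hy.hx
  have hx0 : x ≠ 0 := norm_pos_iff.mp hxn
  have hy0 : y ≠ 0 := norm_pos_iff.mp hyn
  obtain ⟨hδ, g, hD, hg1, hg2⟩ := sec_cos hx.hs hy.hs hx.ht hy.ht hx0 hy0
  obtain ⟨G1, G2⟩ := geoOK_spec chk_geo hc he
  have hle := ent_le c e hc he
  set δ := circ (96 - t + t') with hδd
  set d1 := Nat.mod (ent dtT.get c e) 64 with hd1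
  set d2 := Nat.div (ent dtT.get c e) 64 with hd2
  have hsq1 : r ^ 2 ≤ ‖x - y‖ ^ 2 := by gcongr
  have hsq2 : s ^ 2 ≤ ‖x - y‖ ^ 2 := by gcongr
  have hsq3 : ‖x - y‖ ^ 2 < (r + s) ^ 2 := by gcongr
  have hpi := Real.pi_pos
  constructor
  · by_contra hlt
    push Not at hlt
    rcases G1 with G1 | ⟨G1, G1'⟩
    · omega
    have hC := csT_le d1 G1
    have hCr := csT_range d1 G1
    have hgC : ((csT.get d1 : ℕ) : ℝ) / 1000000 ≤ g := by
      refine le_trans hC (le_trans ?_ (hg1 (by omega)))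
      apply Real.cos_le_cos_of_nonneg_of_le_pi
      · positivity
      · have : (d1 : ℝ) ≤ 48 := by exact_mod_cast (by omega : d1 ≤ 48)
        nlinarith
      · have : ((δ : ℕ) : ℝ) + 1 ≤ (d1 : ℝ) := by exact_mod_cast (by omega : δ + 1 ≤ d1)
        exact mul_le_mul_of_nonneg_right this (by positivity)
    unfold sepB at G1'
    have eD1 : ‖x - y‖ ^ 2 = (r + (‖x‖ - r)) ^ 2 + (s + (‖y‖ - s)) ^ 2
        - 2 * g * (r + (‖x‖ - r)) * (s + (‖y‖ - s)) := by rw [hD]; ring
    have eD2 : ‖x - y‖ ^ 2 = (s + (‖y‖ - s)) ^ 2 + (r + (‖x‖ - r)) ^ 2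
        - 2 * g * (s + (‖y‖ - s)) * (r + (‖x‖ - r)) := by rw [hD]; ring
    cases hl1 : Nat.ble (Nat.succ (Nat.div c 8)) (Nat.div e 8) with
    | true =>
      rw [hl1] at G1'
      have := s1_sound G1' hr0 hs0 hx.hk1 hx.hk2 hx.ha1 hx.ha2 hy.hk1 hy.hk2 hy.ha1 hy.ha2 hgC
      rw [← eD1] at this
      linarith
    | false =>
      rw [hl1] at G1'
      simp only [cond_false] at G1'
      cases hl2 : Nat.ble (Nat.succ (Nat.div e 8)) (Nat.div c 8) with
      | true =>
        rw [hl2] at G1'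
        have := s1_sound G1' hs0 hr0 hy.hk1 hy.hk2 hy.ha1 hy.ha2 hx.hk1 hx.hk2 hx.ha1 hx.ha2 hgC
        rw [← eD2] at this
        linarith
      | false =>
        rw [hl2] at G1'
        simp only [cond_false] at G1'
        obtain ⟨T1, T2⟩ := cond_and G1'
        have hlev : Nat.div c 8 = Nat.div e 8 := by
          have n1 : ¬ Nat.succ (Nat.div c 8) ≤ Nat.div e 8 := by
            rw [← ble_iff, hl1]; simp
          have n2 : ¬ Nat.succ (Nat.div e 8) ≤ Nat.div c 8 := by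
            rw [← ble_iff, hl2]; simp
          omega
        have ek1 : k1 kbT.get e = k1 kbT.get c := by unfold k1; rw [hlev]
        have ek2 : k2 kbT.get e = k2 kbT.get c := by unfold k2; rw [hlev]
        have hk1' := hy.hk1
        have hk2' := hy.hk2
        rw [ek1] at hk1'
        rw [ek2] at hk2'
        rcases le_total s r with hsr | hrs
        · have := tri_sound T1 hCr.1 (hCr.2 hle) hs0 hsr hx.hk1 hk2' hx.ha1 hx.ha2 hy.ha1 hy.ha2
            hgC
          rw [← eD1] at this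
          linarith
        · have := tri_sound T2 hCr.1 (hCr.2 hle) hr0 hrs hk1' hx.hk2 hy.ha1 hy.ha2 hx.ha1 hx.ha2
            hgC
          rw [← eD2] at this
          linarith
  · by_contra hlt
    push Not at hlt
    rcases G2 with G2 | ⟨G2, G2'⟩
    · omega
    have h48 : Nat.sub 48 d2 = 48 - d2 := rfl
    rw [h48] at G2'
    have hC := csT_le (48 - d2) (by omega)
    have hgC : g ≤ -(((csT.get (48 - d2) : ℕ) : ℝ) / 1000000) := by
      have hcast : (((48 - d2 : ℕ)) : ℝ) = 48 - (d2 : ℝ) := by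
        push_cast [Nat.cast_sub (by omega : d2 ≤ 48)]; ring
      rw [hcast] at hC
      have e1 : Real.cos ((48 - (d2 : ℝ)) * (Real.pi / 48)) = - Real.cos (d2 * (Real.pi / 48)) := by
        have : (48 - (d2 : ℝ)) * (Real.pi / 48) = Real.pi - d2 * (Real.pi / 48) := by ring
        rw [this, Real.cos_pi_sub]
      rw [e1] at hC
      have h4 := hg2 (by omega)
      have h5 : Real.cos (((δ : ℕ) - 1 : ℝ) * (Real.pi / 48)) ≤ Real.cos (d2 * (Real.pi / 48)) := by
        apply Real.cos_le_cos_of_nonneg_of_le_pi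
        · positivity
        · have : (δ : ℝ) ≤ 48 := by exact_mod_cast hδ
          nlinarith
        · have : (d2 : ℝ) ≤ (δ : ℝ) - 1 := by
            have : (d2 : ℝ) + 1 ≤ δ := by exact_mod_cast (by omega : d2 + 1 ≤ δ)
            linarith
          exact mul_le_mul_of_nonneg_right this (by positivity)
      linarith
    have := opp_sound G2' hr0 hs0 hx.hk1 hx.hk2 hx.ha1 hy.hk1 hy.hk2 hy.ha1 hgC
    have eD1 : ‖x - y‖ ^ 2 = (r + (‖x‖ - r)) ^ 2 + (s + (‖y‖ - s)) ^ 2
        - 2 * g * (r + (‖x‖ - r)) * (s + (‖y‖ - s)) := by rw [hD]; ring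
    rw [← eD1] at this
    linarith

/-- the bit of the table -/
theorem pair_bit {x y : ℂ} {r s : ℝ} {c e t t' : ℕ} (hx : InCell x r c t) (hy : InCell y s e t')
    (hc : c < 89) (he : e < 88) (h1 : r ≤ ‖x - y‖) (h2 : s ≤ ‖x - y‖) (h3 : ‖x - y‖ < r + s) :
    Mem ((96 - t + t') * 88 + e) (rowT.get c) := by
  obtain ⟨h4, h5⟩ := pair_tau hx hy hc he h1 h2 h3
  have ht := hx.ht
  have ht' := hy.ht
  exact rowOK_spec chk_ring chk_row hc he (by omega) h4 h5

/-- adjacency of the cells of two discs -/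
theorem pair_adj {x y : ℂ} {r s : ℝ} {c e t t' : ℕ} (hx : InCell x r c t) (hy : InCell y s e t')
    (hc : c < 88) (he : e < 88) (h1 : r ≤ ‖x - y‖) (h2 : s ≤ ‖x - y‖) (h3 : ‖x - y‖ < r + s) :
    Adj rowT.get (t * 88 + c) (t' * 88 + e) := by
  have h := pair_bit hx hy (by omega) he h1 h2 h3
  unfold Adj rw' Mem at *
  have m1 : Nat.mod (t * 88 + c) 88 = c := by
    show (t * 88 + c) % 88 = c
    omega
  have m2 : Nat.div (t * 88 + c) 88 = t := by
    show (t * 88 + c) / 88 = t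
    omega
  rw [m1, m2]
  have e1 : Nat.shiftRight (rowT.get c) (Nat.mul (Nat.sub 96 t) 88)
    = (rowT.get c) >>> ((96 - t) * 88) := rfl
  rw [e1, Nat.testBit_shiftRight]
  have e2 : (96 - t) * 88 + (t' * 88 + e) = (96 - t + t') * 88 + e := by ring
  rw [e2]
  exact h

/-- the disc `1` as a member of the class `88` -/
theorem one_cell : InCell 1 1 88 0 ∧ InCell 1 1 88 95 := by
  have e1 : k1 kbT.get 88 = 28 := by unfold k1; decide +kernel
  have e2 : k2 kbT.get 88 = 28 := by unfold k2; decide +kernel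
  have e3 : a1 88 = 0 := by decide
  have e4 : a2 88 = 0 := by decide
  have hn : ‖(1 : ℂ)‖ = 1 := norm_one
  constructor
  · refine ⟨le_refl _, by rw [hn], ?_, ?_, ?_, ?_, ⟨0, ?_, ?_, ?_⟩, by norm_num⟩
    · rw [e1]; norm_num
    · rw [e2]; norm_num
    · rw [e3, hn]; norm_num
    · rw [e4, hn]; norm_num
    · simp
    · simp
    · have := Real.pi_pos
      simp only [Nat.cast_zero, zero_add, one_mul]
      positivity
  · refine ⟨le_refl _, by rw [hn], ?_, ?_, ?_, ?_, ⟨2 * Real.pi, ?_, ?_, ?_⟩, by norm_num⟩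
    · rw [e1]; norm_num
    · rw [e2]; norm_num
    · rw [e3, hn]; norm_num
    · rw [e4, hn]; norm_num
    · rw [hn]
      push_cast
      rw [Complex.exp_two_pi_mul_I]
      simp
    · have := Real.pi_pos
      push_cast
      nlinarith
    · push_cast
      nlinarith [Real.pi_pos]

theorem mem_pow (n i : ℕ) (h : i < n) : Mem i (pmask n) := by
  unfold Mem pmask
  have e1 : Nat.sub (Nat.pow 2 n) 1 = 2 ^ n - 1 := rfl
  rw [e1, Nat.testBit_two_pow_sub_one]
  simp only [decide_eq_true_eq]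
  exact h

theorem mem_base {y : ℂ} {s : ℝ} {e t' : ℕ} (hy : InCell y s e t') (he : e < 88)
    (h2 : s ≤ ‖1 - y‖) (h3 : ‖1 - y‖ < 1 + s) : Mem (t' * 88 + e) base := by
  have h1 : (1 : ℝ) ≤ ‖1 - y‖ := le_trans hy.hr h2
  have b1 := pair_bit one_cell.1 hy (by norm_num) he h1 h2 h3
  have b2 := pair_bit one_cell.2 hy (by norm_num) he h1 h2 h3
  rw [(beq_iff _ _).mp chk_base, mem_land, mem_land]
  have ht' := hy.ht
  refine ⟨⟨?_, ?_⟩, ?_⟩
  · unfold Mem at b1 ⊢
    have e1 : Nat.shiftRight (rowT.get 88) 8448 = (rowT.get 88) >>> 8448 := rfl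
    rw [e1, Nat.testBit_shiftRight]
    have : 8448 + (t' * 88 + e) = (96 - 0 + t') * 88 + e := by omega
    rw [this]; exact b1
  · unfold Mem at b2 ⊢
    have e1 : Nat.shiftRight (rowT.get 88) 88 = (rowT.get 88) >>> 88 := rfl
    rw [e1, Nat.testBit_shiftRight]
    have : 88 + (t' * 88 + e) = (96 - 95 + t') * 88 + e := by omega
    rw [this]; exact b2
  · exact mem_pow 8448 _ (by omega)

end SigK
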