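import Mathlib

/-!
# Sphere-of-influence graphs (MP_9fd1a9_co): the definitions of the statement
-/

namespace SigK

/-- the Euclidean plane -/
abbrev Pl := EuclideanSpace ℝ (Fin 2)

/-- the distance from `x` to a nearest other point of `S` -/
noncomputable def nrad (S : Finset Pl) (x : Pl) : ℝ :=
  sInf ((fun y => dist x y) '' {y | y ∈ S ∧ y ≠ x})

/-- the sphere-of-influence graph of `S`: two distinct points are joined when their open discs meet -/
def sigGraph (S : Finset Pl) : SimpleGraph {x // x ∈ S} where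
  Adj x y := x ≠ y ∧
    (Metric.ball (x : Pl) (nrad S x) ∩ Metric.ball (y : Pl) (nrad S y)).Nonempty
  symm := ⟨fun x y h => ⟨h.1.symm, by rw [Set.inter_comm]; exact h.2⟩⟩
  loopless := ⟨fun x h => h.1 rfl⟩

/-- `G` is a sphere-of-influence graph -/
def IsSIG {V : Type} (G : SimpleGraph V) : Prop :=
  ∃ S : Finset Pl, 2 ≤ S.card ∧ Nonempty (G ≃g sigGraph S)

end SigK
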