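import Pool.Agent.SigK.Eng
import Mathlib

/-!
# Soundness of the clique search
-/

namespace SigK

theorem up_pk (x : ℕ) : up (pk x) = x := by
  unfold up pk
  have h : x % 9223372036854775783 < 2 ^ 64 :=
    lt_trans (Nat.mod_lt _ (by norm_num)) (by norm_num)
  have e : Nat.shiftRight (Nat.add (Nat.shiftLeft x 64) (Nat.mod x 9223372036854775783)) 64
      = (x <<< 64 + x % 9223372036854775783) >>> 64 := rfl
  rw [e, Nat.shiftRight_eq_div_pow, Nat.shiftLeft_eq, Nat.mul_comm,
    Nat.mul_add_div (by positivity), Nat.div_eq_of_lt h, Nat.add_zero]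

theorem beq_zero_iff (x : ℕ) : Nat.beq x 0 = true ↔ x = 0 := by
  constructor
  · intro h; exact Nat.eq_of_beq_eq_true h
  · rintro rfl; rfl

/-- bit sets as sets -/
def Mem (x : ℕ) (S : ℕ) : Prop := S.testBit x = true

/-- adjacency of two cells -/
def Adj (row : ℕ → ℕ) (x y : ℕ) : Prop := Mem y (rw' row x)

/-- a clique of cells -/
def Cl (row : ℕ → ℕ) (l : List ℕ) : Prop :=
  l.Pairwise (fun a b => Adj row a b ∧ Adj row b a) ∧ ∀ a ∈ l, a < 8448

theorem Cl.filter {row : ℕ → ℕ} {l : List ℕ} (h : Cl row l) (p : ℕ → Bool) :
    Cl row (l.filter p) :=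
  ⟨h.1.filter p, fun a ha => h.2 a (List.mem_of_mem_filter ha)⟩

theorem Cl.tail {row : ℕ → ℕ} {b : ℕ} {l : List ℕ} (h : Cl row (b :: l)) : Cl row l :=
  ⟨(List.pairwise_cons.mp h.1).2, fun a ha => h.2 a (List.mem_cons_of_mem _ ha)⟩

theorem Cl.perm {row : ℕ → ℕ} {l l' : List ℕ} (h : Cl row l) (hp : l.Perm l') : Cl row l' :=
  ⟨(hp.pairwise_iff (fun hab => ⟨hab.2, hab.1⟩)).mp h.1,
    fun a ha => h.2 a (hp.mem_iff.mpr ha)⟩

/-- all the rotated shapes are independent sets -/
def IndS (row shp : ℕ → ℕ) : Prop :=
  ∀ x a b, Mem a (sw' shp x) → Mem b (sw' shp x) → a < 8448 → b < 8448 → ¬ Adj row a b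

/-- every clique contained in `P` minus `R` has at most `k` elements -/
def Good (row : ℕ → ℕ) (k P R : ℕ) : Prop :=
  ∀ l : List ℕ, Cl row l → (∀ a ∈ l, Mem a (up P)) → (∀ a ∈ l, ¬ Mem a (up R)) → l.length ≤ k

theorem length_filter_le_one {row : ℕ → ℕ} {l : List ℕ} (h : Cl row l) (p : ℕ → Bool)
    (hp : ∀ a ∈ l, ∀ b ∈ l, p a = true → p b = true → ¬ Adj row a b) :
    (l.filter p).length ≤ 1 := by
  have h1 := h.filter p
  match hm : l.filter p with
  | [] => simp
  | [a] => simp
  | a :: b :: t =>
    exfalso
    rw [hm] at h1
    have h2 := (List.pairwise_cons.mp h1.1).1 b (by simp)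
    have ha : a ∈ l.filter p := by rw [hm]; simp
    have hb : b ∈ l.filter p := by rw [hm]; simp
    rw [List.mem_filter] at ha hb
    exact hp a ha.1 b hb.1 ha.2 hb.2 h2.1

theorem mem_land (x a b : ℕ) : Mem x (Nat.land a b) ↔ Mem x a ∧ Mem x b := by
  unfold Mem
  have : Nat.land a b = a &&& b := rfl
  rw [this, Nat.testBit_and]; simp

theorem mem_minus (x a b : ℕ) : Mem x (Nat.xor a (Nat.land a b)) ↔ Mem x a ∧ ¬ Mem x b := by
  unfold Mem
  have : Nat.xor a (Nat.land a b) = a ^^^ (a &&& b) := rfl
  rw [this, Nat.testBit_xor, Nat.testBit_and]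
  cases a.testBit x <;> cases b.testBit x <;> simp

theorem not_mem_zero (x : ℕ) : ¬ Mem x 0 := by unfold Mem; simp

theorem rd_spec (nx : ℕ → ℕ) (w : ℕ) (c : ℕ → ℕ → ℕ) : ∃ x w', rd nx w c = c x w' := by
  have h1 : ∀ v, rd1 v c = c (Nat.mod v 65536) (Nat.div v 65536) := by
    intro v
    unfold rd1
    rw [force_eq, force_eq]
  unfold rd
  cases Nat.ble 65536 w with
  | true => exact ⟨_, _, h1 w⟩
  | false => exact ⟨_, _, h1 (nx w)⟩

theorem cover_spec (nx : ℕ → ℕ) {row shp : ℕ → ℕ} (hI : IndS row shp) (k : ℕ) :
    ∀ (R w : ℕ) (c : ℕ → ℕ → ℕ), ∃ R' w', cover nx shp k R w c = c R' w' ∧ Good row k R R' := by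
  induction k with
  | zero =>
    intro R w c
    refine ⟨R, w, rfl, ?_⟩
    intro l hl h1 h2
    cases l with
    | nil => simp
    | cons a t => exact absurd (h1 a (by simp)) (h2 a (by simp))
  | succ k ih =>
    intro R w c
    obtain ⟨x, w1, hrd⟩ := rd_spec nx w (fun x w' =>
      force (pk (Nat.xor (up R) (Nat.land (up R) (sw' shp x)))) fun R' => cover nx shp k R' w' c)
    set R1 := pk (Nat.xor (up R) (Nat.land (up R) (sw' shp x))) with hR1
    obtain ⟨R', w', h, hG⟩ := ih R1 w1 c
    refine ⟨R', w', ?_, ?_⟩
    · have e : cover nx shp (k + 1) R w c = rd nx w (fun x w' =>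
          force (pk (Nat.xor (up R) (Nat.land (up R) (sw' shp x)))) fun R' =>
            cover nx shp k R' w' c) := rfl
      rw [e, hrd, force_eq, ← h]
    · intro l hl h1 h2
      have e : l.length = (l.filter (fun a => (sw' shp x).testBit a)).length +
          (l.filter (fun a => !(sw' shp x).testBit a)).length := by
        rw [← List.length_append]
        exact (List.filter_append_perm _ l).length_eq.symm
      have a1 : (l.filter (fun a => (sw' shp x).testBit a)).length ≤ 1 := by
        apply length_filter_le_one hl
        intro a ha b hb hpa hpb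
        exact hI x a b hpa hpb (hl.2 a ha) (hl.2 b hb)
      have a2 : (l.filter (fun a => !(sw' shp x).testBit a)).length ≤ k := by
        apply hG _ (hl.filter _)
        · intro a ha
          rw [List.mem_filter] at ha
          rw [hR1, up_pk, mem_minus]
          refine ⟨h1 a ha.1, ?_⟩
          have := ha.2
          unfold Mem
          simpa using this
        · intro a ha
          exact h2 a (List.mem_of_mem_filter ha)
      omega

theorem covers_spec (nx : ℕ → ℕ) {row shp : ℕ → ℕ} (hI : IndS row shp) (k P m : ℕ) :
    ∀ (w : ℕ) (acc : List ℕ) (c : List ℕ → ℕ → ℕ), (∀ R ∈ acc, Good row k P R) →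
      ∃ Rs w', covers nx shp k P m w acc c = c Rs w' ∧ ∀ R ∈ Rs, Good row k P R := by
  induction m with
  | zero => intro w acc c h; exact ⟨acc, w, rfl, h⟩
  | succ m ih =>
    intro w acc c h
    obtain ⟨R, w1, h1, hG⟩ := cover_spec nx hI k P w
      (fun R w' => covers nx shp k P m w' (R :: acc) c)
    obtain ⟨Rs, w2, h2, hG2⟩ := ih w1 (R :: acc) c (by
      intro R' hR'
      rcases List.mem_cons.mp hR' with rfl | h'
      · exact hG
      · exact h R' h')
    refine ⟨Rs, w2, ?_, hG2⟩
    rw [← h2, ← h1]
    rfl

theorem anyZ_spec {row : ℕ → ℕ} {i : ℕ} : ∀ {l : List ℕ}, anyZ row l i = true →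
    ∃ R ∈ l, Nat.land (up R) (rw' row i) = 0 := by
  intro l
  induction l with
  | nil => intro h; exact absurd h (by simp [anyZ])
  | cons R t ih =>
    intro h
    have e : anyZ row (R :: t) i =
        cond (Nat.beq (Nat.land (up R) (rw' row i)) 0) true (anyZ row t i) := rfl
    rw [e] at h
    cases hb : Nat.beq (Nat.land (up R) (rw' row i)) 0 with
    | true => exact ⟨R, by simp, (beq_zero_iff _).mp hb⟩
    | false =>
      rw [hb] at h
      obtain ⟨R', h1, h2⟩ := ih h
      exact ⟨R', List.mem_cons_of_mem _ h1, h2⟩

/-- there is no clique consisting of `b` and `n` cells of `P` -/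
def Ref (row : ℕ → ℕ) (n P b : ℕ) : Prop :=
  ∀ l : List ℕ, l.length = n → Cl row (b :: l) → (∀ a ∈ l, Mem a (up P)) → False

theorem ref_of_good {row : ℕ → ℕ} {m P R b : ℕ} (hG : Good row m P R)
    (hz : Nat.land (up R) (rw' row b) = 0) : Ref row (m + 1) P b := by
  intro l hl hc hP
  have h1 : l.length ≤ m := by
    apply hG l hc.tail hP
    intro a ha hm
    have h2 : Adj row b a := ((List.pairwise_cons.mp hc.1).1 a ha).1
    have h3 : Mem a (Nat.land (up R) (rw' row b)) := (mem_land _ _ _).mpr ⟨hm, h2⟩
    rw [hz] at h3
    exact not_mem_zero _ h3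
  omega

theorem loop_spec (nx : ℕ → ℕ) {row shp : ℕ → ℕ} (hI : IndS row shp) (f : ℕ) :
    ∀ (n P : ℕ) (Rs : List ℕ) (B i w : ℕ), loop nx row shp f n P Rs B i w ≠ 0 →
      (∀ R ∈ Rs, ∃ m, n = m + 1 ∧ Good row m P R) →
      ∀ b, i ≤ b → Mem b (up B) → Ref row n P b := by
  induction f with
  | zero => intro n P Rs B i w h; exact absurd rfl h
  | succ f ih =>
    intro n P Rs B i w h hRs b hib hb
    have e : loop nx row shp (f + 1) n P Rs B i w =
      cond (Nat.beq (Nat.shiftRight (up B) i) 0) (Nat.succ w) (
      cond (Nat.beq (Nat.mod (Nat.shiftRight (up B) i) 2) 0)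
        (rd nx w fun s w' =>
          cond (Nat.beq (Nat.mod (Nat.shiftRight (up B) i) (Nat.pow 2 s)) 0)
            (force (Nat.add i s) fun i' => loop nx row shp f n P Rs B i' w') 0) (
      cond (anyZ row Rs i) (force (Nat.succ i) fun i' => loop nx row shp f n P Rs B i' w)
        (desc nx row shp (loop nx row shp f) n P Rs B i w))) := rfl
    rw [e] at h
    cases h1 : Nat.beq (Nat.shiftRight (up B) i) 0 with
    | true =>
      exfalso
      have h2 : (up B) >>> i = 0 := (beq_zero_iff _).mp h1
      have h3 : ((up B) >>> i).testBit (b - i) = true := by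
        rw [Nat.testBit_shiftRight]
        have : i + (b - i) = b := by omega
        rw [this]; exact hb
      rw [h2] at h3
      simp at h3
    | false =>
      rw [h1] at h
      simp only [cond_false] at h
      cases h2 : Nat.beq (Nat.mod (Nat.shiftRight (up B) i) 2) 0 with
      | true =>
        rw [h2] at h
        simp only [cond_true] at h
        obtain ⟨s, w', hrd⟩ := rd_spec nx w (fun s w' =>
          cond (Nat.beq (Nat.mod (Nat.shiftRight (up B) i) (Nat.pow 2 s)) 0)
            (force (Nat.add i s) fun i' => loop nx row shp f n P Rs B i' w') 0)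
        rw [hrd] at h
        cases h3 : Nat.beq (Nat.mod (Nat.shiftRight (up B) i) (Nat.pow 2 s)) 0 with
        | false => rw [h3] at h; exact absurd rfl h
        | true =>
          rw [h3] at h
          simp only [cond_true] at h
          rw [force_eq] at h
          have h4 : ((up B) >>> i) % 2 ^ s = 0 := (beq_zero_iff _).mp h3
          apply ih _ _ _ _ _ _ h hRs b _ hb
          by_contra hlt
          have hlt' : b < i + s := by
            have : Nat.add i s = i + s := rfl
            omega
          have h5 : (((up B) >>> i) % 2 ^ s).testBit (b - i) = true := by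
            rw [Nat.testBit_mod_two_pow, Nat.testBit_shiftRight]
            have e1 : i + (b - i) = b := by omega
            have e2 : b - i < s := by omega
            rw [e1]
            simp only [e2, decide_true, Bool.true_and]
            exact hb
          rw [h4] at h5
          simp at h5
      | false =>
        rw [h2] at h
        simp only [cond_false] at h
        cases h3 : anyZ row Rs i with
        | true =>
          rw [h3] at h
          simp only [cond_true] at h
          rw [force_eq] at h
          rcases Nat.eq_or_lt_of_le hib with rfl | hlt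
          · obtain ⟨R, hR, hz⟩ := anyZ_spec h3
            obtain ⟨m, rfl, hG⟩ := hRs R hR
            exact ref_of_good hG hz
          · exact ih _ _ _ _ _ _ h hRs b hlt hb
        | false =>
          rw [h3] at h
          simp only [cond_false] at h
          cases n with
          | zero => exact absurd rfl h
          | succ n' =>
            have e2 : desc nx row shp (loop nx row shp f) (n' + 1) P Rs B i w =
              force (pk (Nat.land (up P) (rw' row i))) fun Pb =>
                cover nx shp n' Pb w fun Rb w1 =>
                cond (Nat.beq (up Rb) 0)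
                  (force (Nat.succ i) fun i' => loop nx row shp f (n' + 1) P Rs B i' w1)
                (Nat.rec 0 (fun n'' _ => rd nx w1 fun m w2 =>
                  covers nx shp n'' Pb m w2 [] fun Rs' w3 =>
                  Nat.rec 0 (fun w4 _ => force (Nat.succ i) fun i' => force w4 fun w5 =>
                      loop nx row shp f (n' + 1) P Rs B i' w5)
                    (loop nx row shp f n' Pb Rs' Rb 0 w3)) n') := rfl
            rw [e2, force_eq] at h
            obtain ⟨Rb, w1, hc, hG⟩ := cover_spec nx hI n' (pk (Nat.land (up P) (rw' row i))) w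
              (fun Rb w1 =>
                cond (Nat.beq (up Rb) 0)
                  (force (Nat.succ i) fun i' => loop nx row shp f (n' + 1) P Rs B i' w1)
                (Nat.rec 0 (fun n'' _ => rd nx w1 fun m w2 =>
                  covers nx shp n'' (pk (Nat.land (up P) (rw' row i))) m w2 [] fun Rs' w3 =>
                  Nat.rec 0 (fun w4 _ => force (Nat.succ i) fun i' => force w4 fun w5 =>
                      loop nx row shp f (n' + 1) P Rs B i' w5)
                    (loop nx row shp f n' (pk (Nat.land (up P) (rw' row i))) Rs' Rb 0 w3)) n'))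
            rw [hc] at h
            clear hc
            -- cliques through `i` live in `Pb`
            have key : ∀ l : List ℕ, Cl row (i :: l) → (∀ a ∈ l, Mem a (up P)) →
                ∀ a ∈ l, Mem a (up (pk (Nat.land (up P) (rw' row i)))) := by
              intro l hl hP a ha
              rw [up_pk, mem_land]
              exact ⟨hP a ha, ((List.pairwise_cons.mp hl.1).1 a ha).1⟩
            cases h4 : Nat.beq (up Rb) 0 with
            | true =>
              rw [h4] at h
              simp only [cond_true] at h
              rw [force_eq] at h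
              rcases Nat.eq_or_lt_of_le hib with rfl | hlt
              · intro l hl hc hP
                have h5 := hG l hc.tail (key l hc hP) (by
                  intro a _
                  rw [(beq_zero_iff _).mp h4]
                  exact not_mem_zero a)
                omega
              · exact ih _ _ _ _ _ _ h hRs b hlt hb
            | false =>
              rw [h4] at h
              simp only [cond_false] at h
              cases n' with
              | zero => exact absurd rfl h
              | succ n'' =>
                change (rd nx w1 fun m w2 =>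
                  covers nx shp n'' (pk (Nat.land (up P) (rw' row i))) m w2 [] fun Rs' w3 =>
                  Nat.rec 0 (fun w4 _ => force (Nat.succ i) fun i' => force w4 fun w5 =>
                      loop nx row shp f (n'' + 1 + 1) P Rs B i' w5)
                    (loop nx row shp f (n'' + 1) (pk (Nat.land (up P) (rw' row i))) Rs' Rb 0 w3))
                  ≠ 0 at h
                obtain ⟨m, w2, hrd⟩ := rd_spec nx w1 (fun m w2 =>
                  covers nx shp n'' (pk (Nat.land (up P) (rw' row i))) m w2 [] fun Rs' w3 =>
                  Nat.rec 0 (fun w4 _ => force (Nat.succ i) fun i' => force w4 fun w5 =>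
                      loop nx row shp f (n'' + 1 + 1) P Rs B i' w5)
                    (loop nx row shp f (n'' + 1) (pk (Nat.land (up P) (rw' row i))) Rs' Rb 0 w3))
                rw [hrd] at h
                obtain ⟨Rs', w3, hc, hG'⟩ := covers_spec nx hI n''
                  (pk (Nat.land (up P) (rw' row i))) m w2 []
                  (fun Rs' w3 =>
                    Nat.rec 0 (fun w4 _ => force (Nat.succ i) fun i' => force w4 fun w5 =>
                      loop nx row shp f (n'' + 1 + 1) P Rs B i' w5)
                    (loop nx row shp f (n'' + 1) (pk (Nat.land (up P) (rw' row i))) Rs' Rb 0 w3))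
                  (by simp)
                rw [hc] at h
                clear hc
                cases h5 : loop nx row shp f (n'' + 1) (pk (Nat.land (up P) (rw' row i))) Rs' Rb 0
                  w3 with
                | zero => rw [h5] at h; exact absurd rfl h
                | succ w4 =>
                  rw [h5] at h
                  change (force (Nat.succ i) fun i' => force w4 fun w5 =>
                      loop nx row shp f (n'' + 1 + 1) P Rs B i' w5) ≠ 0 at h
                  rw [force_eq, force_eq] at h
                  rcases Nat.eq_or_lt_of_le hib with rfl | hlt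
                  · intro l hl hc hP
                    have hk := key l hc hP
                    by_cases hex : ∃ a ∈ l, Mem a (up Rb)
                    · obtain ⟨a, ha, hab⟩ := hex
                      have hp : l.Perm (a :: l.erase a) := List.perm_cons_erase ha
                      have hcl : Cl row (a :: l.erase a) := hc.tail.perm hp
                      refine ih _ _ _ _ _ _ (by rw [h5]; simp) ?_ a (Nat.zero_le _) hab
                        (l.erase a) ?_ hcl ?_
                      · intro R hR
                        exact ⟨n'', rfl, hG' R hR⟩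
                      · rw [List.length_erase_of_mem ha, hl]; rfl
                      · intro x hx
                        exact hk x (List.mem_of_mem_erase hx)
                    · push Not at hex
                      have h6 := hG l hc.tail hk hex
                      omega
                  · exact ih _ _ _ _ _ _ h hRs b hlt hb

theorem tops_spec (nx : ℕ → ℕ) {row shp lev ex : ℕ → ℕ} (hI : IndS row shp) (Pu cnt : ℕ) :
    ∀ w, tops nx row shp lev ex Pu cnt w ≠ 0 → ∀ c < cnt, ∀ b, Mem b (up Pu) → Mem b (ex (4 + c)) →
      ∀ l : List ℕ, l.length = 5 → Cl row (b :: l) →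
        (∀ a ∈ l, Mem a (up Pu) ∧ Mem a (lev (4 + c))) → False := by
  induction cnt with
  | zero => intro w h c hc; omega
  | succ cnt ih =>
    intro w h c hc b hb1 hb2 l hl hcl hP
    set P := pk (Nat.land (up Pu) (lev (Nat.add 4 cnt))) with hPd
    set B := pk (Nat.land (up Pu) (ex (Nat.add 4 cnt))) with hBd
    have e : tops nx row shp lev ex Pu (cnt + 1) w =
      (force P fun P => force B fun B => rd nx w fun m w2 =>
      covers nx shp 4 P m w2 [] fun Rs w3 =>
      Nat.rec 0 (fun w4 _ => force w4 fun w5 => tops nx row shp lev ex Pu cnt w5)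
        (loop nx row shp 5000 5 P Rs B 0 w3)) := rfl
    rw [e, force_eq, force_eq] at h
    obtain ⟨m, w2, hrd⟩ := rd_spec nx w (fun m w2 =>
      covers nx shp 4 P m w2 [] fun Rs w3 =>
      Nat.rec 0 (fun w4 _ => force w4 fun w5 => tops nx row shp lev ex Pu cnt w5)
        (loop nx row shp 5000 5 P Rs B 0 w3))
    rw [hrd] at h
    obtain ⟨Rs, w3, h1, hG⟩ := covers_spec nx hI 4 P m w2 []
      (fun Rs w3 => Nat.rec 0 (fun w4 _ => force w4 fun w5 => tops nx row shp lev ex Pu cnt w5)
        (loop nx row shp 5000 5 P Rs B 0 w3)) (by simp)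
    rw [h1] at h
    clear h1
    cases h2 : loop nx row shp 5000 5 P Rs B 0 w3 with
    | zero => rw [h2] at h; exact absurd rfl h
    | succ w4 =>
      rw [h2] at h
      change (force w4 fun w5 => tops nx row shp lev ex Pu cnt w5) ≠ 0 at h
      rw [force_eq] at h
      rcases Nat.lt_succ_iff_lt_or_eq.mp hc with hlt | rfl
      · exact ih w4 h c hlt b hb1 hb2 l hl hcl hP
      · refine loop_spec nx hI 5000 5 P Rs B 0 w3 (by rw [h2]; simp) ?_ b (Nat.zero_le _) ?_ l hl hcl ?_
        · intro R hR; exact ⟨4, rfl, hG R hR⟩
        · rw [hBd, up_pk, mem_land]; exact ⟨hb1, hb2⟩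
        · intro a ha
          rw [hPd, up_pk, mem_land]; exact hP a ha

/-- the level of a cell -/
def lvl (b : ℕ) : ℕ := b % 88 / 8

/-- the masks are right -/
def MaskOK (lev ex : ℕ → ℕ) : Prop :=
  ∀ j < 11, ∀ b < 8448, (lvl b ≤ j → Mem b (lev j)) ∧ (lvl b = j → Mem b (ex j))

theorem lvl_lt (b : ℕ) : lvl b < 11 := by
  unfold lvl
  have : b % 88 < 88 := Nat.mod_lt _ (by norm_num)
  omega

theorem exists_max {l : List ℕ} (h : l ≠ []) : ∃ b ∈ l, ∀ a ∈ l, lvl a ≤ lvl b := by
  induction l with
  | nil => exact absurd rfl h
  | cons x t ih =>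
    by_cases ht : t = []
    · subst ht; exact ⟨x, by simp, by simp⟩
    · obtain ⟨b, hb, hmax⟩ := ih ht
      by_cases hx : lvl x ≤ lvl b
      · refine ⟨b, List.mem_cons_of_mem _ hb, ?_⟩
        intro a ha
        rcases List.mem_cons.mp ha with rfl | h'
        · exact hx
        · exact hmax a h'
      · refine ⟨x, by simp, ?_⟩
        intro a ha
        rcases List.mem_cons.mp ha with rfl | h'
        · exact le_refl _
        · exact le_trans (hmax a h') (by omega)

theorem chkU_spec {nx row shp lev ex : ℕ → ℕ} (hI : IndS row shp) (hM : MaskOK lev ex)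
    {base u w : ℕ} (h : chkU nx row shp lev ex base u w = true)
    {l : List ℕ} (hl : l.length = 6) (hcl : Cl row (u :: l)) (hbase : ∀ a ∈ l, Mem a base)
    (hlev : ∀ a ∈ l, lvl a ≤ lvl u) (hnear : ∃ a ∈ l, 4 ≤ lvl a) : False := by
  unfold chkU at h
  rw [force_eq, force_eq] at h
  have hk : Nat.div (Nat.mod u 88) 8 = lvl u := rfl
  rw [hk] at h
  set Pu := pk (Nat.land (Nat.land base (lev (lvl u))) (rw' row u)) with hPu
  have h1 : tops nx row shp lev ex Pu (Nat.sub (lvl u) 3) w ≠ 0 := by
    intro h0
    rw [h0] at h
    exact absurd h (by decide)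
  have hne : l ≠ [] := by
    rintro rfl
    simp at hl
  obtain ⟨b, hb, hmax⟩ := exists_max hne
  obtain ⟨a0, ha0, ha04⟩ := hnear
  have hb4 : 4 ≤ lvl b := le_trans ha04 (hmax a0 ha0)
  have hbu : lvl b ≤ lvl u := hlev b hb
  have hP : ∀ a ∈ l, Mem a (up Pu) := by
    intro a ha
    rw [hPu, up_pk, mem_land, mem_land]
    refine ⟨⟨hbase a ha, ?_⟩, ((List.pairwise_cons.mp hcl.1).1 a ha).1⟩
    exact ((hM _ (lvl_lt u) a (hcl.tail.2 a ha)).1 (hlev a ha))
  have hp : l.Perm (b :: l.erase b) := List.perm_cons_erase hb
  have e4 : 4 + (lvl b - 4) = lvl b := by omega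
  refine tops_spec nx hI Pu _ w h1 (lvl b - 4) ?_ b (hP b hb) ?_ (l.erase b) ?_
    (hcl.tail.perm hp) ?_
  · have : Nat.sub (lvl u) 3 = lvl u - 3 := rfl
    omega
  · rw [e4]
    exact (hM _ (lvl_lt b) b (hcl.tail.2 b hb)).2 rfl
  · rw [List.length_erase_of_mem hb, hl]
  · intro a ha
    have ha' := List.mem_of_mem_erase ha
    refine ⟨hP a ha', ?_⟩
    rw [e4]
    exact (hM _ (lvl_lt b) a (hcl.tail.2 a ha')).1 (hmax a ha')

theorem chkL_spec {nx row shp lev ex : ℕ → ℕ} {base : ℕ} : ∀ {L : List (ℕ × ℕ)},
    chkL nx row shp lev ex base L = true →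
      ∀ p ∈ L, chkU nx row shp lev ex base p.1 p.2 = true := by
  intro L
  induction L with
  | nil => intro _ p hp; simp at hp
  | cons q t ih =>
    intro h p hp
    have e : chkL nx row shp lev ex base (q :: t) =
      cond (chkU nx row shp lev ex base q.1 q.2) (chkL nx row shp lev ex base t) false := rfl
    rw [e] at h
    cases h1 : chkU nx row shp lev ex base q.1 q.2 with
    | false => rw [h1] at h; exact absurd h (by simp)
    | true =>
      rw [h1] at h
      rcases List.mem_cons.mp hp with rfl | h'
      · exact h1
      · exact ih h p h'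

end SigK
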