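import Mathlib

/-!
# The integer tests for a pair of boxes of discs

A disc has curvature `κ = 1/r ∈ [k1/28, k2/28]` and offset `a = ρ - r ∈ [a1/8, a2/8]`, `ρ` the distance
of its centre from the origin.  All tests are inequalities between natural numbers; `C` is a number
with `C / 10^6 ≤ |cos|`.
-/

namespace SigK

/-- corner test for `ρ_i² + ρ_j² - 2 γ ρ_i ρ_j < r_i²` with `ρ_j = (224 + kj aj) / (8 kj)` -/
def s1v (C K A kj aj : ℕ) : Bool :=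
  Nat.ble (Nat.succ (Nat.mul 1000000 (Nat.add (Nat.mul (Nat.mul (Nat.mul 448 A) kj) kj)
    (Nat.add (Nat.mul (Nat.mul (Nat.mul K (Nat.mul A A)) kj) kj)
      (Nat.mul K (Nat.mul (Nat.add 224 (Nat.mul kj aj)) (Nat.add 224 (Nat.mul kj aj))))))))
    (Nat.mul (Nat.mul 2 C)
      (Nat.mul (Nat.mul (Nat.add 224 (Nat.mul K A)) (Nat.add 224 (Nat.mul kj aj))) kj))

/-- the test with all corners; the box of the second disc must be bounded (`1 ≤ kj1`) -/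
def s1 (C ki1 ki2 ai1 ai2 kj1 kj2 aj1 aj2 : ℕ) : Bool :=
  cond (Nat.ble 1 kj1) (
  cond (s1v C ki1 ai1 kj1 aj2) (cond (s1v C ki1 ai2 kj1 aj2) (
  cond (s1v C ki2 ai1 kj1 aj2) (cond (s1v C ki2 ai2 kj1 aj2) (
  cond (s1v C ki1 ai1 kj2 aj1) (cond (s1v C ki1 ai2 kj2 aj1) (
  cond (s1v C ki2 ai1 kj2 aj1) (s1v C ki2 ai2 kj2 aj1) false) false) false) false) false) false)
    false) false

/-- diagonal corner, both curvatures `K / 28` -/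
def trd (C K Ai Aj : ℕ) : Bool :=
  Nat.ble (Nat.succ (Nat.mul 1000000 (Nat.add
    (Nat.mul (Nat.mul K Ai) (Nat.add 448 (Nat.mul K Ai)))
    (Nat.mul (Nat.add 224 (Nat.mul K Aj)) (Nat.add 224 (Nat.mul K Aj))))))
    (Nat.mul (Nat.mul 2 C) (Nat.mul (Nat.add 224 (Nat.mul K Ai)) (Nat.add 224 (Nat.mul K Aj))))

/-- corner `κ_i = k1 / 28`, `κ_j = k2 / 28` -/
def tre (C k1 k2 Ai Aj : ℕ) : Bool :=
  Nat.ble (Nat.succ (Nat.mul 1000000 (Nat.add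
    (Nat.mul (Nat.mul (Nat.mul k2 k2) Ai) (Nat.add 448 (Nat.mul k1 Ai)))
    (Nat.mul k1 (Nat.mul (Nat.add 224 (Nat.mul k2 Aj)) (Nat.add 224 (Nat.mul k2 Aj)))))))
    (Nat.mul (Nat.mul (Nat.mul 2 C) k2)
      (Nat.mul (Nat.add 224 (Nat.mul k1 Ai)) (Nat.add 224 (Nat.mul k2 Aj))))

def tr1 (C k1 k2 Ai Aj : ℕ) : Bool :=
  cond (trd C k1 Ai Aj) (cond (trd C k2 Ai Aj) (tre C k1 k2 Ai Aj) false) false

/-- the test for two boxes with the same range `[k1/28, k2/28]` of curvatures -/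
def tri (C k1 k2 ai1 ai2 aj1 aj2 : ℕ) : Bool :=
  cond (tr1 C k1 k2 ai1 aj1) (cond (tr1 C k1 k2 ai1 aj2) (cond (tr1 C k1 k2 ai2 aj1)
    (tr1 C k1 k2 ai2 aj2) false) false) false

/-- corner test for `(r_i + r_j)² ≤ ρ_i² + ρ_j² + 2 (C/10^6) ρ_i ρ_j` -/
def opv (C Ki Kj Ai Aj : ℕ) : Bool :=
  Nat.ble 100352000000 (Nat.add
    (Nat.mul 1000000 (Nat.add (Nat.mul (Nat.mul Kj Ai) (Nat.add 448 (Nat.mul Ki Ai)))
      (Nat.mul (Nat.mul Ki Aj) (Nat.add 448 (Nat.mul Kj Aj)))))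
    (Nat.mul (Nat.mul 2 C) (Nat.mul (Nat.add 224 (Nat.mul Ki Ai)) (Nat.add 224 (Nat.mul Kj Aj)))))

def opp (C ki1 ki2 ai1 kj1 kj2 aj1 : ℕ) : Bool :=
  cond (opv C ki1 kj1 ai1 aj1) (cond (opv C ki1 kj2 ai1 aj1) (cond (opv C ki2 kj1 ai1 aj1)
    (opv C ki2 kj2 ai1 aj1) false) false) false

end SigK
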