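import Pool.Agent.SigK.Snd
import Pool.Agent.SigK.Tst

/-!
# Tables: what the kernel checks about them
-/

namespace SigK

/-- `p i` for all `i < n` -/
noncomputable def allLt (p : ℕ → Bool) (n : ℕ) : Bool :=
  Nat.rec true (fun i ih => cond (p i) ih false) n

theorem allLt_spec {p : ℕ → Bool} : ∀ {n : ℕ}, allLt p n = true → ∀ i < n, p i = true := by
  intro n
  induction n with
  | zero => intro _ i hi; omega
  | succ n ih =>
    intro h i hi
    have e : allLt p (n + 1) = cond (p n) (allLt p n) false := rfl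
    rw [e] at h
    cases h1 : p n with
    | false => rw [h1] at h; exact absurd h (by simp)
    | true =>
      rw [h1] at h
      rcases Nat.lt_succ_iff_lt_or_eq.mp hi with h2 | rfl
      · exact ih h i h2
      · exact h1

theorem beq_iff (x y : ℕ) : Nat.beq x y = true ↔ x = y :=
  ⟨Nat.eq_of_beq_eq_true, by rintro rfl; exact Nat.beq_refl _⟩

theorem ble_iff (x y : ℕ) : Nat.ble x y = true ↔ x ≤ y := by
  constructor
  · exact Nat.le_of_ble_eq_true
  · exact Nat.ble_eq_true_of_le

/-- test of a bit -/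
def tb (x i : ℕ) : Bool := Nat.beq (Nat.mod (Nat.shiftRight x i) 2) 1

theorem tb_iff (x i : ℕ) : tb x i = true ↔ Mem i x := by
  unfold tb Mem
  rw [beq_iff, Nat.testBit_eq_decide_div_mod_eq, decide_eq_true_iff]
  have : Nat.shiftRight x i = x / 2 ^ i := Nat.shiftRight_eq_div_pow x i
  rw [this]
  rfl

/-- `p i` for all bits `i` of `s` with `off ≤ i < off + 2 ^ k` -/
noncomputable def allB (p : ℕ → Bool) (s : ℕ) (k : ℕ) : ℕ → Bool :=
  Nat.rec (fun off => cond (Nat.beq (Nat.mod (Nat.shiftRight s off) 2) 0) true (p off))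
    (fun k ih off =>
      cond (Nat.beq (Nat.mod (Nat.shiftRight s off) (Nat.pow 2 (Nat.pow 2 (Nat.succ k)))) 0) true
        (cond (ih off) (force (Nat.add off (Nat.pow 2 k)) fun off' => ih off') false)) k

theorem allB_spec {p : ℕ → Bool} {s : ℕ} (k : ℕ) : ∀ off, allB p s k off = true →
    ∀ i, off ≤ i → i < off + 2 ^ k → Mem i s → p i = true := by
  induction k with
  | zero =>
    intro off h i h1 h2 h3
    have hi : i = off := by simp at h2; omega
    subst hi
    have e : allB p s 0 i = cond (Nat.beq (Nat.mod (Nat.shiftRight s i) 2) 0) true (p i) := rfl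
    rw [e] at h
    cases h4 : Nat.beq (Nat.mod (Nat.shiftRight s i) 2) 0 with
    | false => rw [h4] at h; exact h
    | true =>
      exfalso
      have h5 : (s >>> i) % 2 = 0 := (beq_zero_iff _).mp h4
      have h6 := (tb_iff s i).mpr h3
      unfold tb at h6
      rw [beq_iff] at h6
      have h7 : (s >>> i) % 2 = 1 := h6
      omega
  | succ k ih =>
    intro off h i h1 h2 h3
    have e : allB p s (k + 1) off =
      cond (Nat.beq (Nat.mod (Nat.shiftRight s off) (Nat.pow 2 (Nat.pow 2 (Nat.succ k)))) 0) true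
        (cond (allB p s k off) (force (Nat.add off (Nat.pow 2 k)) fun off' => allB p s k off')
          false) := rfl
    rw [e] at h
    cases h4 : Nat.beq (Nat.mod (Nat.shiftRight s off) (Nat.pow 2 (Nat.pow 2 (Nat.succ k)))) 0 with
    | true =>
      exfalso
      have h5 : (s >>> off) % 2 ^ 2 ^ (k + 1) = 0 := (beq_zero_iff _).mp h4
      have h6 : ((s >>> off) % 2 ^ 2 ^ (k + 1)).testBit (i - off) = true := by
        rw [Nat.testBit_mod_two_pow, Nat.testBit_shiftRight]
        have e1 : off + (i - off) = i := by omega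
        have e2 : i - off < 2 ^ (k + 1) := by omega
        rw [e1]
        simp only [e2, decide_true, Bool.true_and]
        exact h3
      rw [h5] at h6
      simp at h6
    | false =>
      rw [h4] at h
      simp only [cond_false] at h
      cases h5 : allB p s k off with
      | false => rw [h5] at h; exact absurd h (by simp)
      | true =>
        rw [h5] at h
        simp only [cond_true] at h
        rw [force_eq] at h
        by_cases hlt : i < off + 2 ^ k
        · exact ih off h5 i h1 hlt h3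
        · have e3 : Nat.add off (Nat.pow 2 k) = off + 2 ^ k := rfl
          rw [e3] at h
          refine ih (off + 2 ^ k) h i (by omega) ?_ h3
          rw [pow_succ] at h2
          omega

/-! ## shapes -/

/-- check of one doubled shape -/
noncomputable def shapeOK (row : ℕ → ℕ) (s : ℕ) : Bool :=
  cond (Nat.beq (Nat.shiftRight s 32768) 0)
  (allB (fun p => Nat.beq (Nat.land (Nat.shiftRight (Nat.shiftLeft s 8448) (Nat.sub p (Nat.mod p 88)))
    (row (Nat.mod p 88))) 0) s 15 0) false

theorem shapeOK_spec {row : ℕ → ℕ} {s : ℕ} (h : shapeOK row s = true) (r : ℕ) (a b : ℕ)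
    (ha : Mem a (Nat.shiftRight s (Nat.mul (Nat.sub 96 r) 88)))
    (hb : Mem b (Nat.shiftRight s (Nat.mul (Nat.sub 96 r) 88)))
    (ha' : a < 8448) : ¬ Adj row a b := by
  unfold shapeOK at h
  cases h0 : Nat.beq (Nat.shiftRight s 32768) 0 with
  | false => rw [h0] at h; exact absurd h (by simp)
  | true =>
    rw [h0] at h
    simp only [cond_true] at h
    have hs0 : s >>> 32768 = 0 := (beq_zero_iff _).mp h0
    have hmul : Nat.mul (Nat.sub 96 r) 88 = (96 - r) * 88 := rfl
    rw [hmul] at ha hb
    have ha2 : Mem ((96 - r) * 88 + a) s := by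
      unfold Mem at ha ⊢
      have : Nat.shiftRight s ((96 - r) * 88) = s >>> ((96 - r) * 88) := rfl
      rw [this, Nat.testBit_shiftRight] at ha
      exact ha
    have hb2 : Mem ((96 - r) * 88 + b) s := by
      unfold Mem at hb ⊢
      have : Nat.shiftRight s ((96 - r) * 88) = s >>> ((96 - r) * 88) := rfl
      rw [this, Nat.testBit_shiftRight] at hb
      exact hb
    set p := (96 - r) * 88 + a with hp
    have hplt : p < 0 + 2 ^ 15 := by
      by_contra hge
      have h1 : (s >>> 32768).testBit (p - 32768) = true := by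
        rw [Nat.testBit_shiftRight]
        have : 32768 + (p - 32768) = p := by omega
        rw [this]; exact ha2
      rw [hs0] at h1
      simp at h1
    have hk := allB_spec 15 0 h p (Nat.zero_le _) hplt ha2
    have hk2 : Nat.land (Nat.shiftRight (Nat.shiftLeft s 8448) (Nat.sub p (Nat.mod p 88)))
        (row (Nat.mod p 88)) = 0 := (beq_zero_iff _).mp hk
    have hmod : Nat.mod p 88 = a % 88 := by
      show p % 88 = a % 88
      rw [hp, Nat.add_comm, Nat.add_mul_mod_self_right]
    rw [hmod] at hk2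
    intro hadj
    unfold Adj rw' Mem at hadj
    have e1 : Nat.shiftRight (row (Nat.mod a 88)) (Nat.mul (Nat.sub 96 (Nat.div a 88)) 88)
      = (row (a % 88)) >>> ((96 - a / 88) * 88) := rfl
    rw [e1, Nat.testBit_shiftRight] at hadj
    -- the bit `z`
    have hz : Mem ((96 - a / 88) * 88 + b)
        (Nat.land (Nat.shiftRight (Nat.shiftLeft s 8448) (Nat.sub p (a % 88))) (row (a % 88))) := by
      rw [mem_land]
      refine ⟨?_, hadj⟩
      unfold Mem
      have e2 : Nat.shiftRight (Nat.shiftLeft s 8448) (Nat.sub p (a % 88))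
        = (s <<< 8448) >>> (p - a % 88) := rfl
      rw [e2, Nat.testBit_shiftRight, Nat.testBit_shiftLeft]
      have hdm := Nat.div_add_mod a 88
      have e3 : p - a % 88 + ((96 - a / 88) * 88 + b) = 8448 + ((96 - r) * 88 + b) := by
        have h96 : a / 88 ≤ 95 := by omega
        omega
      rw [e3]
      have e4 : 8448 + ((96 - r) * 88 + b) - 8448 = (96 - r) * 88 + b := by omega
      rw [e4]
      have e5 : (8448 ≤ 8448 + ((96 - r) * 88 + b)) := by omega
      simp only [ge_iff_le, e5, decide_true, Bool.true_and]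
      exact hb2
    rw [hk2] at hz
    exact not_mem_zero _ hz

/-- all leaves satisfy `p` -/
noncomputable def T.all (p : ℕ → Bool) (t : T) : Bool :=
  T.rec (fun x => p x) (fun _ _ _ ga gb => cond ga gb false) t

theorem T.all_spec {p : ℕ → Bool} {t : T} (h : t.all p = true) : ∀ i, p (t.get i) = true := by
  induction t with
  | l x => intro i; exact h
  | n k a b iha ihb =>
    intro i
    have e : (T.n k a b).all p = cond (a.all p) (b.all p) false := rfl
    rw [e] at h
    cases h1 : a.all p with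
    | false => rw [h1] at h; exact absurd h (by simp)
    | true =>
      rw [h1] at h
      have e2 : (T.n k a b).get i = cond (Nat.ble k i) (b.get i) (a.get i) := rfl
      rw [e2]
      cases Nat.ble k i with
      | true => exact ihb h i
      | false => exact iha h1 i

theorem indS_of_shapes {row : ℕ → ℕ} {shpT : T} (h : shpT.all (shapeOK row) = true) :
    IndS row shpT.get := by
  intro x a b ha hb ha' _
  unfold sw' at ha hb
  exact shapeOK_spec (T.all_spec h _) _ a b ha hb ha'

/-! ## masks -/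

noncomputable def maskOK (lev ex : ℕ → ℕ) : Bool :=
  allLt (fun j => allLt (fun b =>
    cond (cond (Nat.ble (Nat.div (Nat.mod b 88) 8) j) (tb (lev j) b) true)
      (cond (Nat.beq (Nat.div (Nat.mod b 88) 8) j) (tb (ex j) b) true) false) 8448) 11

theorem cond_imp {a b : Bool} (h : cond a b true = true) (ha : a = true) : b = true := by
  subst ha; exact h

theorem cond_and {a b : Bool} (h : cond a b false = true) : a = true ∧ b = true := by
  cases a
  · exact absurd h (by simp)
  · exact ⟨rfl, h⟩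

theorem maskOK_spec {lev ex : ℕ → ℕ} (h : maskOK lev ex = true) : MaskOK lev ex := by
  intro j hj b hb
  have h1 := allLt_spec (allLt_spec h j hj) b hb
  obtain ⟨h2, h3⟩ := cond_and h1
  constructor
  · intro hl
    exact (tb_iff _ _).mp (cond_imp h2 ((ble_iff _ _).mpr hl))
  · intro hl
    exact (tb_iff _ _).mp (cond_imp h3 ((beq_iff _ _).mpr hl))

/-! ## rows -/

/-- cyclic distance of the sectors, `τ = 96 - t + t'` -/
def circ (τ : ℕ) : ℕ :=
  cond (Nat.ble 96 τ)
    (cond (Nat.ble τ 144) (Nat.sub τ 96) (Nat.sub 192 τ))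
    (cond (Nat.ble 48 τ) (Nat.sub 96 τ) τ)

noncomputable def ringOK (ge le : ℕ → ℕ) : Bool :=
  allLt (fun d => allLt (fun τ =>
    cond (cond (Nat.ble d (circ τ)) (tb (ge d) (Nat.mul τ 88)) true)
      (cond (Nat.ble (circ τ) d) (tb (le d) (Nat.mul τ 88)) true) false) 192) 49

/-- entries of the table: `d1 = x % 64`, `d2 = x / 64 % 64` -/
noncomputable def ent (dt : ℕ → ℕ) (c e : ℕ) : ℕ :=
  Nat.mod (Nat.shiftRight (dt c) (Nat.mul 12 e)) 4096

noncomputable def rowOK (row dt ge le : ℕ → ℕ) : Bool :=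
  allLt (fun c => allLt (fun e =>
    force (ent dt c e) fun x =>
    cond (Nat.ble (Nat.mod x 64) 48)
      (cond (Nat.ble (Nat.div x 64) 48)
        (Nat.beq (Nat.land (Nat.shiftRight (row c) e)
          (Nat.land (ge (Nat.mod x 64)) (le (Nat.div x 64))))
          (Nat.land (ge (Nat.mod x 64)) (le (Nat.div x 64)))) false) false) 88) 89

theorem rowOK_spec {row dt ge le : ℕ → ℕ} (hr : ringOK ge le = true)
    (h : rowOK row dt ge le = true) {c e τ : ℕ} (hc : c < 89) (he : e < 88) (hτ : τ < 192)
    (h1 : Nat.mod (ent dt c e) 64 ≤ circ τ) (h2 : circ τ ≤ Nat.div (ent dt c e) 64) :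
    Mem (τ * 88 + e) (row c) := by
  have h3 := allLt_spec (allLt_spec h c hc) e he
  rw [force_eq] at h3
  obtain ⟨h4, h5⟩ := cond_and h3
  obtain ⟨h6, h7⟩ := cond_and h5
  have h4' := (ble_iff _ _).mp h4
  have h6' := (ble_iff _ _).mp h6
  have g1 := allLt_spec (allLt_spec hr (Nat.mod (ent dt c e) 64) (by omega)) τ hτ
  have g2 := allLt_spec (allLt_spec hr (Nat.div (ent dt c e) 64) (by omega)) τ hτ
  have g3 := (tb_iff _ _).mp (cond_imp (cond_and g1).1 ((ble_iff _ _).mpr h1))
  have g4 := (tb_iff _ _).mp (cond_imp (cond_and g2).2 ((ble_iff _ _).mpr h2))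
  have h8 := (beq_iff _ _).mp h7
  have h9 : Mem (Nat.mul τ 88) (Nat.land (ge (Nat.mod (ent dt c e) 64))
      (le (Nat.div (ent dt c e) 64))) := (mem_land _ _ _).mpr ⟨g3, g4⟩
  rw [← h8, mem_land] at h9
  have h10 := h9.1
  unfold Mem at h10 ⊢
  have e1 : Nat.shiftRight (row c) e = (row c) >>> e := rfl
  have e2 : Nat.mul τ 88 = τ * 88 := rfl
  rw [e1, e2, Nat.testBit_shiftRight] at h10
  rw [Nat.add_comm]
  exact h10

/-! ## the geometric tests -/

/-- all the numbers which describe the boxes -/
noncomputable def k1 (kb : ℕ → ℕ) (c : ℕ) : ℕ := kb (Nat.div c 8)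
noncomputable def k2 (kb : ℕ → ℕ) (c : ℕ) : ℕ := kb (Nat.succ (Nat.div c 8))
def a1 (c : ℕ) : ℕ := Nat.mod c 8
def a2 (c : ℕ) : ℕ := Nat.sub (Nat.succ (Nat.mod c 8)) (Nat.div c 88)

/-- the separation test, `C / 10^6` is a lower bound of the cosine -/
noncomputable def sepB (kb : ℕ → ℕ) (C c e : ℕ) : Bool :=
  cond (Nat.ble (Nat.succ (Nat.div c 8)) (Nat.div e 8))
    (s1 C (k1 kb c) (k2 kb c) (a1 c) (a2 c) (k1 kb e) (k2 kb e) (a1 e) (a2 e))
    (cond (Nat.ble (Nat.succ (Nat.div e 8)) (Nat.div c 8))
      (s1 C (k1 kb e) (k2 kb e) (a1 e) (a2 e) (k1 kb c) (k2 kb c) (a1 c) (a2 c))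
      (cond (tri C (k1 kb c) (k2 kb c) (a1 c) (a2 c) (a1 e) (a2 e))
        (tri C (k1 kb c) (k2 kb c) (a1 e) (a2 e) (a1 c) (a2 c)) false))

noncomputable def geoOK (kb cs dt : ℕ → ℕ) : Bool :=
  allLt (fun c => allLt (fun e =>
    force (Nat.mod (ent dt c e) 64) fun x => force (Nat.div (ent dt c e) 64) fun y =>
    cond (cond (Nat.beq x 0) true (cond (Nat.ble x 24) (force (cs x) fun C => sepB kb C c e) false))
      (cond (Nat.ble 48 y) true (cond (Nat.ble 24 y)
        (force (cs (Nat.sub 48 y)) fun C =>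
          opp C (k1 kb c) (k2 kb c) (a1 c) (k1 kb e) (k2 kb e) (a1 e)) false)) false) 88) 89

theorem geoOK_spec {kb cs dt : ℕ → ℕ} (h : geoOK kb cs dt = true) {c e : ℕ} (hc : c < 89)
    (he : e < 88) :
    (Nat.mod (ent dt c e) 64 = 0 ∨ (Nat.mod (ent dt c e) 64 ≤ 24 ∧
      sepB kb (cs (Nat.mod (ent dt c e) 64)) c e = true)) ∧
    (48 ≤ Nat.div (ent dt c e) 64 ∨ (24 ≤ Nat.div (ent dt c e) 64 ∧
      opp (cs (Nat.sub 48 (Nat.div (ent dt c e) 64))) (k1 kb c) (k2 kb c) (a1 c) (k1 kb e)
        (k2 kb e) (a1 e) = true)) := by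
  have h1 := allLt_spec (allLt_spec h c hc) e he
  rw [force_eq, force_eq] at h1
  obtain ⟨h2, h3⟩ := cond_and h1
  constructor
  · cases h4 : Nat.beq (Nat.mod (ent dt c e) 64) 0 with
    | true => left; exact (beq_iff _ _).mp h4
    | false =>
      right
      rw [h4] at h2
      obtain ⟨h5, h6⟩ := cond_and h2
      rw [force_eq] at h6
      exact ⟨(ble_iff _ _).mp h5, h6⟩
  · cases h4 : Nat.ble 48 (Nat.div (ent dt c e) 64) with
    | true => left; exact (ble_iff _ _).mp h4
    | false =>
      right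
      rw [h4] at h3
      obtain ⟨h5, h6⟩ := cond_and h3
      rw [force_eq] at h6
      exact ⟨(ble_iff _ _).mp h5, h6⟩

/-! ## the first discs -/

/-- all the first cells which have to be treated -/
noncomputable def firstOK (base U : ℕ) : Bool :=
  allLt (fun b =>
    cond (tb base b) (cond (Nat.ble 4 (Nat.div (Nat.mod b 88) 8))
      (cond (Nat.ble 16 (Nat.div b 88)) (cond (Nat.ble (Nat.div b 88) 47) (tb U b) true)
        true) true) true) 8448

theorem firstOK_spec {base U : ℕ} (h : firstOK base U = true) {b : ℕ} (hb : b < 8448)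
    (h1 : Mem b base) (h2 : 4 ≤ lvl b) (h3 : 16 ≤ b / 88) (h4 : b / 88 ≤ 47) : Mem b U := by
  have g := allLt_spec h b hb
  have g1 := cond_imp g ((tb_iff _ _).mpr h1)
  have g2 := cond_imp g1 ((ble_iff _ _).mpr h2)
  have g3 := cond_imp g2 ((ble_iff _ _).mpr h3)
  have g4 := cond_imp g3 ((ble_iff _ _).mpr h4)
  exact (tb_iff _ _).mp g4

/-- the bit set of the first components -/
noncomputable def bitsOf (L : List (ℕ × ℕ)) : ℕ :=
  List.rec 0 (fun p _ ih => Nat.lor ih (Nat.pow 2 p.1)) L

theorem mem_bitsOf {L : List (ℕ × ℕ)} {b : ℕ} (h : Mem b (bitsOf L)) : ∃ p ∈ L, p.1 = b := by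
  induction L with
  | nil => exact absurd h (not_mem_zero b)
  | cons q t ih =>
    have e : bitsOf (q :: t) = bitsOf t ||| 2 ^ q.1 := rfl
    unfold Mem at h
    rw [e, Nat.testBit_or, Bool.or_eq_true] at h
    rcases h with h | h
    · obtain ⟨p, hp, hb⟩ := ih h
      exact ⟨p, List.mem_cons_of_mem _ hp, hb⟩
    · rw [Nat.testBit_two_pow] at h
      exact ⟨q, by simp, by simpa using h⟩

end SigK
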